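import Pool.Agent.LibLOC.D2
import Pool.Agent.LibGMM.CanAlt
import Pool.Agent.LibKB1a.G1

/-!
[K+.LOC D4] The order of a top form.
Port of `LibKB1a/G1.lean`, `G2.lean` (there with `IsPlane a b`; only `DerB.span`, `dimK L = 2` are
used): `ω D = valAt ω D1 D2 * det (D i (crd a b j))` for all families `D`, where `crd a b i` is `a` for
`i.val = 0` and `b` otherwise (`altSubst`, `LibKB1a.crd`, `LibKB1a.derFam` can be used;
`valAt ω D1 D2 = ω (derFam D1 D2)` by definition). `valAt_ne`: otherwise `ω = 0`. `canOrd_eq_valAt`: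
`canOrd v ω` is the supremum of the orders of `g'` with `ω = g' du ∧ dw`, `0 ≤ v.ord u, v.ord w`; then
`valAt = g' * jac D1 D2 u w` and `v.ord (jac u w) ≥ 0` by hypothesis, and the value is attained for
`u = a, w = b`. `valAt_bl`: `D1' = D1 + (b / a) • D2`, `D2' = a • D2`: `valAt ω D1' D2' = a * valAt ω D1 D2`
(`altSubst`/`alt_subst` with the matrix `(1, b / a; 0, a)`, `det_fin_two'`; or multilinearity).
-/

set_option autoImplicit false

open Pool.Agent.LibGMM Pool.Agent.LibLB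
open Pool.Agent.LibKB (ev ordP Ess VDom Ge)

namespace Pool.Agent.LibLOC

variable {L : Type} [Field L] [Algebra ℂ L]

variable {x : Subalgebra ℂ L} {a b : L} {D1 D2 : Derivation ℂ L L} {ω : TopForm L}

private theorem D4_sum (hd : dimK L = 2) (hD : DerB a b D1 D2) (D : Derivation ℂ L L) :
    D = ∑ k, D (Pool.Agent.LibKB1a.crd a b k) • Pool.Agent.LibKB1a.derFam D1 D2 k := by
  have h1 := Pool.Agent.LibKB1a.sum_fin_two hd
    (fun m => D (if m = 0 then a else b) • (if m = 0 then D1 else D2))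
  have h2 : (∑ k, D (Pool.Agent.LibKB1a.crd a b k) • Pool.Agent.LibKB1a.derFam D1 D2 k) =
      D a • D1 + D b • D2 := by
    have h3 : (∑ k, D (Pool.Agent.LibKB1a.crd a b k) • Pool.Agent.LibKB1a.derFam D1 D2 k) =
        ∑ i : Fin (dimK L),
        (fun m => D (if m = 0 then a else b) • (if m = 0 then D1 else D2)) i.val := rfl
    rw [h3, h1]
    simp
  rw [h2]
  ext u
  rw [Derivation.add_apply, Derivation.smul_apply, Derivation.smul_apply, smul_eq_mul, smul_eq_mul]
  exact hD.span D u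

private theorem D4_form (hd : dimK L = 2) (hD : DerB a b D1 D2) (ω : TopForm L)
    (D : Fin (dimK L) → Derivation ℂ L L) :
    ω D = valAt ω D1 D2 * Matrix.det fun i j => D i (Pool.Agent.LibKB1a.crd a b j) := by
  have h1 := Pool.Agent.LibKB1a.altSubst ω (Pool.Agent.LibKB1a.derFam D1 D2) D
    (fun i k => D i (Pool.Agent.LibKB1a.crd a b k)) (fun i => D4_sum hd hD (D i))
  rw [h1, mul_comm]
  rfl

private theorem D4_det (hd : dimK L = 2) (hD : DerB a b D1 D2)
    (x : Fin (dimK L) → L) (i0 i1 : Fin (dimK L)) (h0 : i0.val = 0) (h1 : i1.val = 1)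
    (D : Fin (dimK L) → Derivation ℂ L L) :
    (Matrix.det fun i j => D i (x j)) =
      jac D1 D2 (x i0) (x i1) * Matrix.det fun i j => D i (Pool.Agent.LibKB1a.crd a b j) := by
  rw [Pool.Agent.LibKB1a.det_fin_two' hd (fun i j => D i (x j)) i0 i1 h0 h1,
    Pool.Agent.LibKB1a.det_fin_two' hd (fun i j => D i (Pool.Agent.LibKB1a.crd a b j)) i0 i1 h0 h1]
  have ha : Pool.Agent.LibKB1a.crd a b i0 = a := by simp [Pool.Agent.LibKB1a.crd, h0]
  have hb : Pool.Agent.LibKB1a.crd a b i1 = b := by simp [Pool.Agent.LibKB1a.crd, h1]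
  simp only [ha, hb]
  rw [hD.span (D i0) (x i0), hD.span (D i0) (x i1),
    hD.span (D i1) (x i0), hD.span (D i1) (x i1)]
  unfold jac
  ring

theorem valAt_ne (hd : dimK L = 2) (hD : DerB a b D1 D2) (hω : ω ≠ 0) : valAt ω D1 D2 ≠ 0 := by
  intro h0
  apply hω
  apply AlternatingMap.ext
  intro D
  rw [D4_form hd hD ω D, h0, zero_mul]
  rfl

theorem canOrd_eq_valAt (hd : dimK L = 2) (hD : DerB a b D1 D2) (hω : ω ≠ 0) {v : DVal L}
    (ha : 0 ≤ v.ord a) (hb : 0 ≤ v.ord b) (h1 : ∀ u, 0 ≤ v.ord u → 0 ≤ v.ord (D1 u))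
    (h2 : ∀ u, 0 ≤ v.ord u → 0 ≤ v.ord (D2 u)) : canOrd v ω = v.ord (valAt ω D1 D2) := by
  have hg := valAt_ne hd hD hω
  have hωD := D4_form hd hD ω
  have l0 : 0 < dimK L := by omega
  have l1 : 1 < dimK L := by omega
  have hdet : (Matrix.det fun i j => Pool.Agent.LibKB1a.derFam D1 D2 i
      (Pool.Agent.LibKB1a.crd a b j)) = 1 := by
    rw [Pool.Agent.LibKB1a.det_fin_two' hd (fun i j => Pool.Agent.LibKB1a.derFam D1 D2 i
      (Pool.Agent.LibKB1a.crd a b j)) ⟨0, l0⟩ ⟨1, l1⟩ rfl rfl]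
    simp [Pool.Agent.LibKB1a.derFam, Pool.Agent.LibKB1a.crd, hD.h11, hD.h12, hD.h21, hD.h22]
  have hj : ∀ u w, 0 ≤ v.ord u → 0 ≤ v.ord w → 0 ≤ v.ord (jac D1 D2 u w) := by
    intro u w hu hw
    have e1 : D1 u ∈ v.ring := h1 u hu
    have e2 : D2 w ∈ v.ring := h2 w hw
    have e3 : D2 u ∈ v.ring := h2 u hu
    have e4 : D1 w ∈ v.ring := h1 w hw
    exact sub_mem (mul_mem e1 e2) (mul_mem e3 e4)
  generalize valAt ω D1 D2 = g at hg hωD ⊢
  unfold canOrd
  apply IsGreatest.csSup_eq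
  constructor
  · refine ⟨g, Pool.Agent.LibKB1a.crd a b, hg, rfl, ?_, hωD⟩
    intro i
    unfold Pool.Agent.LibKB1a.crd
    split_ifs
    exacts [ha, hb]
  · rintro k ⟨g', x, hg', rfl, hx, hD'⟩
    have e1 := hωD (Pool.Agent.LibKB1a.derFam D1 D2)
    have e2 := hD' (Pool.Agent.LibKB1a.derFam D1 D2)
    rw [D4_det hd hD x ⟨0, l0⟩ ⟨1, l1⟩ rfl rfl, hdet, mul_one] at e2
    rw [hdet, mul_one] at e1
    have e3 : g = g' * jac D1 D2 (x ⟨0, l0⟩) (x ⟨1, l1⟩) := e1.symm.trans e2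
    have hj0 : jac D1 D2 (x ⟨0, l0⟩) (x ⟨1, l1⟩) ≠ 0 := by
      intro h0
      rw [h0, mul_zero] at e3
      exact hg e3
    have h5 := hj _ _ (hx ⟨0, l0⟩) (hx ⟨1, l1⟩)
    rw [e3, v.ord_mul _ _ hg' hj0]
    omega

theorem valAt_bl (hd : dimK L = 2) (ω : TopForm L) (D1 D2 : Derivation ℂ L L) (a t : L) :
    valAt ω (D1 + t • D2) (a • D2) = a * valAt ω D1 D2 := by
  have l0 : 0 < dimK L := by omega
  have l1 : 1 < dimK L := by omega
  have h1 := Pool.Agent.LibKB1a.altSubst ω (Pool.Agent.LibKB1a.derFam D1 D2)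
    (fun i : Fin (dimK L) => if i.val = 0 then D1 + t • D2 else a • D2)
    (fun i j : Fin (dimK L) => if i.val = 0 then (if j.val = 0 then 1 else t)
      else (if j.val = 0 then 0 else a)) (fun i => by
        have h2 := Pool.Agent.LibKB1a.sum_fin_two hd
          (fun m => (if i.val = 0 then (if m = 0 then (1 : L) else t)
            else (if m = 0 then 0 else a)) • (if m = 0 then D1 else D2))
        have h3 : (∑ j, (if i.val = 0 then (if j.val = 0 then (1 : L) else t)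
            else (if j.val = 0 then 0 else a)) • Pool.Agent.LibKB1a.derFam D1 D2 j) =
            ∑ j : Fin (dimK L), (fun m => (if i.val = 0 then (if m = 0 then (1 : L) else t)
            else (if m = 0 then 0 else a)) • (if m = 0 then D1 else D2)) j.val := rfl
        rw [h3, h2]
        by_cases hi : i.val = 0
        · simp [hi]
        · simp [hi])
  rw [Pool.Agent.LibKB1a.det_fin_two' hd _ ⟨0, l0⟩ ⟨1, l1⟩ rfl rfl] at h1
  have h4 : valAt ω (D1 + t • D2) (a • D2) =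
      ω (fun i : Fin (dimK L) => if i.val = 0 then D1 + t • D2 else a • D2) := rfl
  have h5 : ω (Pool.Agent.LibKB1a.derFam D1 D2) = valAt ω D1 D2 := rfl
  rw [h5] at h1
  rw [h4, h1]
  simp only [Matrix.of_apply]
  simp

end Pool.Agent.LibLOC
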