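import Pool.Agent.LibLOC.O2

/-!
[K+.LOC O3] Properties of the order function.
`ordAt_swap`: `inPow_swap`. `ord_eq`: `OrdAt` for `k` and `k + 1` (`f ≠ 0` since `0` is in every
power). `ord_a`, `ord_b`: `inPow_monom`, `not_inPow_two_a` (and `rlr_swap`). `ord_form`: `inPow_form`,
`form_eq_zero`, `ord_eq`. `ord_nonneg`: `k = 0`. `inv_mem_of_ord`: `f` is not in `(a, b)`
(`inPow_one_iff`, `k = 1`), `inv_mem_iff`. `ord_unit`: `f f⁻¹ = 1`. `ordAt_unique`: `E.ord f = E'.ord f`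
for `f ∈ x` (compare all `k`), so for all fractions (`h.frac`), `DVal.ext_ring` or ext.
`ord_pos_of_inM`.
-/

set_option autoImplicit false

open Pool.Agent.LibGMM Pool.Agent.LibLB
open Pool.Agent.LibKB (ev ordP Ess VDom Ge)

namespace Pool.Agent.LibLOC

variable {L : Type} [Field L] [Algebra ℂ L]

variable {x : Subalgebra ℂ L} {a b : L} {E E' : DVal L} {f : L} {k : ℕ}

theorem ordAt_swap (hE : OrdAt x a b E) : OrdAt x b a E := by
  intro f hf hf0 k
  rw [hE f hf hf0 k]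
  exact inPow_swap

theorem ord_eq (hE : OrdAt x a b E) (hf : f ∈ x) (h1 : InPow x a b k f)
    (h2 : ¬ InPow x a b (k + 1) f) : f ≠ 0 ∧ E.ord f = k := by
  have h0 : f ≠ 0 := by
    intro h0
    rw [h0] at h2
    exact h2 inPow_zero_right
  refine ⟨h0, ?_⟩
  have h3 : (k : ℤ) ≤ E.ord f := (hE f hf h0 k).2 h1
  have h4 : ¬ (((k + 1 : ℕ) : ℤ) ≤ E.ord f) := fun h5 => h2 ((hE f hf h0 (k + 1)).1 h5)
  push_cast at h4
  omega

theorem ord_a (h : RLR x a b) (hE : OrdAt x a b E) : E.ord a = 1 := by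
  have h2 : InPow x a b (1 + 0) (a ^ 1 * b ^ 0) := inPow_monom 1 0
  have h3 : a ^ 1 * b ^ 0 = a := by ring
  rw [h3] at h2
  have h4 := (ord_eq (k := 1) hE h.memA h2 (not_inPow_two_a h)).2
  exact_mod_cast h4

theorem ord_b (h : RLR x a b) (hE : OrdAt x a b E) : E.ord b = 1 :=
  ord_a (rlr_swap h) (ordAt_swap hE)

theorem ord_form (h : RLR x a b) (hE : OrdAt x a b E) {F : Polynomial ℂ} (hF : F.natDegree ≤ k)
    (h0 : F ≠ 0) : form a b k F ≠ 0 ∧ E.ord (form a b k F) = k :=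
  ord_eq hE (inPow_mem h.memA h.memB inPow_form) inPow_form (fun h1 => h0 (form_eq_zero h hF h1))

theorem ord_nonneg (hE : OrdAt x a b E) (hf : f ∈ x) : 0 ≤ E.ord f := by
  by_cases h0 : f = 0
  · rw [h0, E.ord_zero]
  · have h1 := (hE f hf h0 0).2 (inPow_zero_iff.2 hf)
    exact_mod_cast h1

theorem ord_pos_of_inM (h : RLR x a b) (hE : OrdAt x a b E) (hf : InM x a b f) (h0 : f ≠ 0) :
    1 ≤ E.ord f := by
  have h1 := (hE f (inM_mem h hf) h0 1).2 (inPow_one_iff.2 hf)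
  exact_mod_cast h1

theorem inv_mem_of_ord (h : RLR x a b) (hE : OrdAt x a b E) (hf : f ∈ x) (h0 : f ≠ 0)
    (ho : E.ord f = 0) : f⁻¹ ∈ x := by
  rw [inv_mem_iff h hf h0]
  intro h1
  have h2 := ord_pos_of_inM h hE h1 h0
  omega

theorem ord_unit (hE : OrdAt x a b E) (hf : f ∈ x) (hf' : f⁻¹ ∈ x) : E.ord f = 0 := by
  by_cases h0 : f = 0
  · rw [h0, E.ord_zero]
  · have h1 := ord_nonneg hE hf
    have h2 := ord_nonneg hE hf'
    have h3 := E.ord_mul f f⁻¹ h0 (inv_ne_zero h0)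
    rw [mul_inv_cancel₀ h0] at h3
    have h4 : E.ord 1 = 0 := by
      have h5 := E.ord_const 1
      rwa [map_one] at h5
    omega

private theorem o3_ord_frac (E : DVal L) {z u v : L} (hu : u ≠ 0) (hv : v ≠ 0) (hz : z = u / v) :
    E.ord z = E.ord u - E.ord v := by
  have h1 : z ≠ 0 := by
    rw [hz]
    exact div_ne_zero hu hv
  have h2 := E.ord_mul z v h1 hv
  have h3 : z * v = u := by
    rw [hz, div_mul_cancel₀ _ hv]
  rw [h3] at h2
  omega

theorem ordAt_unique (h : RLR x a b) (hE : OrdAt x a b E) (hE' : OrdAt x a b E') : E = E' := by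
  have h1 : ∀ f ∈ x, f ≠ 0 → E.ord f = E'.ord f := by
    intro f hf hf0
    have h2 := ord_nonneg hE hf
    have h3 := ord_nonneg hE' hf
    obtain ⟨m, hm⟩ := Int.eq_ofNat_of_zero_le h2
    obtain ⟨n, hn⟩ := Int.eq_ofNat_of_zero_le h3
    have h4 := (hE' f hf hf0 m).2 ((hE f hf hf0 m).1 (by rw [hm]))
    have h5 := (hE f hf hf0 n).2 ((hE' f hf hf0 n).1 (by rw [hn]))
    omega
  have h6 : E.ord = E'.ord := by
    funext z
    obtain ⟨u, hu, v, hv, hv0, hz⟩ := h.frac z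
    by_cases hu0 : u = 0
    · rw [hz, hu0, zero_div, E.ord_zero, E'.ord_zero]
    · rw [o3_ord_frac E hu0 hv0 hz, o3_ord_frac E' hu0 hv0 hz, h1 u hu hu0, h1 v hv hv0]
  cases E
  cases E'
  cases h6
  rfl

end Pool.Agent.LibLOC
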