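import Pool.Agent.LibLOC.P4
import Pool.Agent.LibLOC.O3

/-!
[K+.LOC P5] The exceptional curve is a prime divisor through `y`.
`ord_t`: `E.ord t = E.ord b - E.ord a = 0` (`DVal.ord_div` in LibGMM/Api). `ord_adj_nonneg`: `w = f / a ^ n`,
`f ∈ (a, b) ^ n`. `ord_adj`: for `F ≠ 0`: choose `n ≥ natDegree F` and write `p = f / a ^ n`
(`mem_adj_iff`, enlarge `n`): `a ^ n (F(t) + a p) = form b a n F + a f`, of order exactly `n`
(`ord_form` with roles exchanged: `E.ord (form b a n F) = n`; `a f ∈ (a, b) ^ (n + 1)`; `ord_eq`: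
`form b a n F + a f` is in `(a, b) ^ n` and not in `(a, b) ^ (n + 1)`). `ord_den`: `v = c + a p + t q`
and `q = G(t) + a q'`: `v = (C c + X G)(t) + a (p + t q')`, `C c + X G ≠ 0`. `exists_frac_E`: `f = p / q`,
`p, q ∈ x` nonzero, `n = E.ord q ≤ E.ord p` (natural number): `u = p / a ^ n`, `v = q / a ^ n` are in
`x[t]`, `E.ord v = 0`. `E_mem_ess`: `y ≤ E.ring` (`ord_adj_nonneg`, `ord_den`), and fractions from
`exists_frac_E`, `bl_adj_le`.
-/

set_option autoImplicit false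

open Pool.Agent.LibGMM Pool.Agent.LibLB
open Pool.Agent.LibKB (ev ordP Ess VDom Ge)

namespace Pool.Agent.LibLOC

variable {L : Type} [Field L] [Algebra ℂ L]

variable {x y : Subalgebra ℂ L} {a b : L} {E : DVal L}

theorem ord_t (h : RLR x a b) (hE : OrdAt x a b E) : E.ord (b / a) = 0 := by
  rw [DVal.ord_div E (b_ne h) h.a_ne, ord_a h hE, ord_b h hE, sub_self]

theorem ord_adj_nonneg (h : RLR x a b) (hE : OrdAt x a b E) {w : L} (hw : w ∈ adj x (b / a)) :
    0 ≤ E.ord w := by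
  obtain ⟨n, f, hf, rfl⟩ := (mem_adj_iff h).1 hw
  by_cases h0 : f = 0
  · subst h0
    simp
  have hfx : f ∈ x := inPow_mem h.memA h.memB hf
  have h1 : (n : ℤ) ≤ E.ord f := (hE f hfx h0 n).2 hf
  rw [DVal.ord_div E h0 (pow_ne_zero n h.a_ne), DVal.ord_pow, ord_a h hE]
  omega

theorem ord_adj (h : RLR x a b) (hE : OrdAt x a b E) {F : Polynomial ℂ} (hF : F ≠ 0) {p : L}
    (hp : p ∈ adj x (b / a)) : Polynomial.aeval (b / a) F + a * p ≠ 0 ∧
      E.ord (Polynomial.aeval (b / a) F + a * p) = 0 := by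
  obtain ⟨m, f0, hf0, hpe⟩ := (mem_adj_iff h).1 hp
  have ha := h.a_ne
  obtain ⟨n, f, hn, hf, hpf⟩ : ∃ (n : ℕ) (f : L), F.natDegree ≤ n ∧ InPow x a b n f ∧
      p = f / a ^ n := by
    refine ⟨m + F.natDegree, f0 * a ^ F.natDegree, Nat.le_add_left _ _, ?_, ?_⟩
    · have h1 : InPow x a b F.natDegree (a ^ F.natDegree) := by
        have h2 := inPow_monom (x := x) (a := a) (b := b) F.natDegree 0
        simpa using h2
      exact inPow_mul h.memA h.memB hf0 h1
    · rw [hpe, pow_add]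
      field_simp
  have hfx : f ∈ x := inPow_mem h.memA h.memB hf
  obtain ⟨h3, h4⟩ := ord_form (rlr_swap h) (ordAt_swap hE) hn hF
  have h5 : form b a n F = a ^ n * Polynomial.aeval (b / a) F := form_eq ha hn
  have h6 : a ^ n * (Polynomial.aeval (b / a) F + a * p) = form b a n F + a * f := by
    rw [h5, hpf]
    field_simp
  have h7 : a * f = 0 ∨ E.ord (form b a n F) < E.ord (a * f) := by
    by_cases h0 : f = 0
    · left
      rw [h0, mul_zero]
    · right
      have h1 : (n : ℤ) ≤ E.ord f := (hE f hfx h0 n).2 hf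
      rw [h4, E.ord_mul _ _ ha h0, ord_a h hE]
      omega
  obtain ⟨h8, h9⟩ := E.ord_add_eq h3 h7
  rw [← h6] at h8 h9
  have h10 : Polynomial.aeval (b / a) F + a * p ≠ 0 := by
    intro h0
    rw [h0, mul_zero] at h9
    exact h9 rfl
  refine ⟨h10, ?_⟩
  rw [E.ord_mul _ _ (pow_ne_zero n ha) h10, DVal.ord_pow, ord_a h hE, h4] at h8
  omega

theorem ord_den (h : RLR x a b) (hE : OrdAt x a b E) {v : L} (hv : Den x a b v) :
    E.ord v = 0 := by
  obtain ⟨_, _, c, hc, p, hp, q, hq, rfl⟩ := hv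
  obtain ⟨G, q', hq', rfl⟩ := adj_decomp h hq
  have h1 : (Polynomial.C c + Polynomial.X * G : Polynomial ℂ) ≠ 0 := by
    intro h0
    have h2 := congrArg (fun P : Polynomial ℂ => P.coeff 0) h0
    simp at h2
    exact hc h2
  have h2 : p + b / a * q' ∈ adj x (b / a) :=
    (adj x (b / a)).add_mem hp ((adj x (b / a)).mul_mem self_mem_adj hq')
  have h3 := (ord_adj h hE h1 h2).2
  have h4 : algebraMap ℂ L c + a * p + b / a * (Polynomial.aeval (b / a) G + a * q') =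
      Polynomial.aeval (b / a) (Polynomial.C c + Polynomial.X * G) + a * (p + b / a * q') := by
    rw [map_add, map_mul, Polynomial.aeval_C, Polynomial.aeval_X]
    ring
  rw [h4]
  exact h3

theorem exists_frac_E (h : RLR x a b) (hE : OrdAt x a b E) {f : L} (hf : 0 ≤ E.ord f) :
    ∃ u ∈ adj x (b / a), ∃ v ∈ adj x (b / a), v ≠ 0 ∧ E.ord v = 0 ∧ f = u / v := by
  obtain ⟨p, hp, q, hq, hq0, rfl⟩ := h.frac f
  have ha := h.a_ne
  by_cases hp0 : p = 0
  · subst hp0
    exact ⟨0, (adj x (b / a)).zero_mem, 1, (adj x (b / a)).one_mem, one_ne_zero,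
      DVal.ord_one E, by simp⟩
  have h1 : 0 ≤ E.ord q := ord_nonneg hE hq
  obtain ⟨n, hn⟩ := Int.eq_ofNat_of_zero_le h1
  rw [DVal.ord_div E hp0 hq0] at hf
  have h2 : InPow x a b n q := (hE q hq hq0 n).1 (by omega)
  have h3 : InPow x a b n p := (hE p hp hp0 n).1 (by omega)
  refine ⟨p / a ^ n, (mem_adj_iff h).2 ⟨n, p, h3, rfl⟩, q / a ^ n,
    (mem_adj_iff h).2 ⟨n, q, h2, rfl⟩, div_ne_zero hq0 (pow_ne_zero n ha), ?_, ?_⟩
  · rw [DVal.ord_div E hq0 (pow_ne_zero n ha), DVal.ord_pow, ord_a h hE]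
    omega
  · field_simp

theorem E_mem_ess (hb : Bl x y a b) (hE : OrdAt x a b E) : E ∈ Ess y := by
  have h := hb.rlr
  refine ⟨?_, ?_⟩
  · intro z hz
    obtain ⟨u, hu, v, hv, rfl⟩ := (bl_mem_iff hb).1 hz
    change 0 ≤ E.ord (u / v)
    by_cases hu0 : u = 0
    · subst hu0
      simp
    rw [DVal.ord_div E hu0 hv.2.1, ord_den h hE hv]
    have := ord_adj_nonneg h hE hu
    omega
  · intro f hf
    obtain ⟨u, hu, v, hv, hv0, hv1, rfl⟩ := exists_frac_E h hE hf
    exact ⟨u, bl_adj_le hb hu, v, bl_adj_le hb hv, hv0, hv1, rfl⟩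

end Pool.Agent.LibLOC
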