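import Pool.Agent.LibLOC.D3
import Pool.Agent.LibLOC.D4
import Pool.Agent.LibLOC.P5

/-!
[K+.LOC D5] The canonical divisor near `x` and on the blow-up.
`w = valAt ω D1 D2` for `D1, D2` dual to `a, b` (`exists_derB`). For `ν ∈ Ess x`: `der_ring` for `D1`, `D2`
(`D1 a = 1`, ... in `x`), `canOrd_eq_valAt`. For `E`: take `y` with `Bl x y a b` (`exists_bl`), `bl_rlr`,
the derivations `D1 + (b / a) • D2`, `a • D2` (`derB_bl`), `E ∈ Ess y` (`E_mem_ess`), `der_ring` for `y`,
`canOrd_eq_valAt`, `valAt_bl`: `canOrd E ω = E.ord (a * w) = 1 + E.ord w` (`ord_a`).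
-/

set_option autoImplicit false

open Pool.Agent.LibGMM Pool.Agent.LibLB
open Pool.Agent.LibKB (ev ordP Ess VDom Ge)

namespace Pool.Agent.LibLOC

variable {L : Type} [Field L] [Algebra ℂ L]

variable {x : Subalgebra ℂ L} {a b : L} {E : DVal L}

theorem canOrd_loc (h : RLR x a b) (hE : OrdAt x a b E) (ω : TopForm L) (hω : ω ≠ 0) :
    ∃ w : L, w ≠ 0 ∧ (∀ ν ∈ Ess x, canOrd ν ω = ν.ord w) ∧ canOrd E ω = E.ord w + 1 := by
  obtain ⟨D1, D2, hD⟩ := exists_derB h
  have hd : dimK L = 2 := dimK_two h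
  have hw : valAt ω D1 D2 ≠ 0 := valAt_ne hd hD hω
  refine ⟨valAt ω D1 D2, hw, ?_, ?_⟩
  · intro ν hν
    refine canOrd_eq_valAt hd hD hω (hν.1 h.memA) (hν.1 h.memB) ?_ ?_
    · intro u hu
      refine der_ring h D1 ?_ ?_ hν hu
      · rw [hD.h11]; exact x.one_mem
      · rw [hD.h12]; exact x.zero_mem
    · intro u hu
      refine der_ring h D2 ?_ ?_ hν hu
      · rw [hD.h21]; exact x.zero_mem
      · rw [hD.h22]; exact x.one_mem
  · obtain ⟨y, hb⟩ := exists_bl h
    have hy : RLR y a (b / a) := bl_rlr hb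
    have hEy : E ∈ Ess y := E_mem_ess hb hE
    have hD' : DerB a (b / a) (D1 + (b / a) • D2) (a • D2) := derB_bl h.a_ne hD
    have key : canOrd E ω = E.ord (valAt ω (D1 + (b / a) • D2) (a • D2)) := by
      refine canOrd_eq_valAt hd hD' hω (hEy.1 hy.memA) (hEy.1 hy.memB) ?_ ?_
      · intro u hu
        refine der_ring hy _ ?_ ?_ hEy hu
        · rw [hD'.h11]; exact y.one_mem
        · rw [hD'.h12]; exact y.zero_mem
      · intro u hu
        refine der_ring hy _ ?_ ?_ hEy hu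
        · rw [hD'.h21]; exact y.zero_mem
        · rw [hD'.h22]; exact y.one_mem
    rw [key, valAt_bl hd, E.ord_mul _ _ h.a_ne hw, ord_a h hE, add_comm]

end Pool.Agent.LibLOC
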