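import Pool.Agent.LibLOC.J2

/-!
[K+.LOC J3] Counting jets.
Port of `LibKB1a/BR2.lean` (`BR2_main`, `loc_jet_count`, `loc_jet_count'`) with `jets h m` instead of
`IsOrd.jets`. `OrdAt` translates `InPow x a b m f` into `f = 0 ∨ m ≤ E.ord f`, that is `Ge E m f`
(`f ≠ 0 → m ≤ E.ord f`). `geS E m` is the subspace `{f | Ge E m f}`. The kernel of `J` restricted to
`V` is `V ⊓ geS E m`.
-/

set_option autoImplicit false

open Pool.Agent.LibGMM Pool.Agent.LibLB
open Pool.Agent.LibKB (ev ordP Ess VDom Ge)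

namespace Pool.Agent.LibLOC

variable {L : Type} [Field L] [Algebra ℂ L]

variable {x : Subalgebra ℂ L} {a b : L} {E : DVal L}

/-- The elements of order at least `k`. -/
def geS (E : DVal L) (k : ℤ) : Submodule ℂ L where
  carrier := {f | Ge E k f}
  zero_mem' := fun h => absurd rfl h
  add_mem' := by
    intro a b ha hb hab
    by_cases h0 : a = 0
    · subst h0
      simp only [zero_add] at hab ⊢
      exact hb hab
    by_cases h1 : b = 0
    · subst h1
      simp only [add_zero] at hab ⊢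
      exact ha hab
    have h2 := E.ord_add a b h0 h1 hab
    have h3 := ha h0
    have h4 := hb h1
    exact le_trans (le_min h3 h4) h2
  smul_mem' := by
    intro c a ha hca
    have h0 : a ≠ 0 := by
      rintro rfl
      exact hca (smul_zero c)
    have h1 : algebraMap ℂ L c ≠ 0 := by
      intro h
      apply hca
      rw [Algebra.smul_def, h, zero_mul]
    have h2 := ha h0
    rw [Algebra.smul_def, E.ord_mul _ _ h1 h0, E.ord_const, zero_add]
    exact h2

theorem J3_main (h : RLR x a b) (hE : OrdAt x a b E) (m : ℕ) (V : Submodule ℂ L)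
    [Module.Finite ℂ V] (hV : ∀ z ∈ V, z ∈ x) :
    ∃ T : V →ₗ[ℂ] (Fin (m * (m + 1) / 2) → ℂ),
      Module.finrank ℂ V = Module.finrank ℂ (V ⊓ geS E m : Submodule ℂ L) +
        Module.finrank ℂ (LinearMap.range T) ∧
      ((∀ z ∈ x, ∃ v ∈ V, Ge E m (v - z)) → Function.Surjective T) := by
  obtain ⟨J, hJ, hker⟩ := jets h m
  have hle : V ≤ Subalgebra.toSubmodule x := fun z hz => hV z hz
  have hGe : ∀ z ∈ x, InPow x a b m z ↔ Ge E m z := by
    intro z hz
    constructor
    · intro h1 h2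
      exact (hE z hz h2 m).2 h1
    · intro h1
      by_cases h2 : z = 0
      · rw [h2]
        exact inPow_zero_right
      · exact (hE z hz h2 m).1 (h1 h2)
  let T : V →ₗ[ℂ] (Fin (m * (m + 1) / 2) → ℂ) := J.comp (Submodule.inclusion hle)
  have hT : ∀ z : V, T z = 0 ↔ (z : L) ∈ geS E m := by
    intro z
    have h2 := hker ⟨(z : L), hV z z.2⟩
    exact h2.trans (hGe _ (hV z z.2))
  refine ⟨T, ?_, ?_⟩
  · have h3 := LinearMap.finrank_range_add_finrank_ker T
    have h4 : Submodule.map V.subtype (LinearMap.ker T) = V ⊓ geS E m := by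
      ext z
      simp only [Submodule.mem_map, LinearMap.mem_ker, Submodule.subtype_apply, Submodule.mem_inf]
      constructor
      · rintro ⟨w, hw, rfl⟩
        exact ⟨w.2, (hT w).1 hw⟩
      · rintro ⟨h5, h6⟩
        exact ⟨⟨z, h5⟩, (hT ⟨z, h5⟩).2 h6, rfl⟩
    have h5 := Submodule.finrank_map_subtype_eq V (LinearMap.ker T)
    rw [h4] at h5
    omega
  · intro hs c
    obtain ⟨z, hz⟩ := hJ c
    obtain ⟨v, hv, hvz⟩ := hs z z.2
    refine ⟨⟨v, hv⟩, ?_⟩
    have h2 := (hker (⟨v, hV v hv⟩ - z)).2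
      ((hGe _ (x.sub_mem (hV v hv) z.2)).2 hvz)
    rw [map_sub, sub_eq_zero, hz] at h2
    exact h2

theorem jet_count (h : RLR x a b) (hE : OrdAt x a b E) (m : ℕ) (V : Submodule ℂ L)
    [Module.Finite ℂ V] (hV : ∀ z ∈ V, z ∈ x) :
    Module.finrank ℂ V ≤ Module.finrank ℂ (V ⊓ geS E m : Submodule ℂ L) + m * (m + 1) / 2 := by
  obtain ⟨T, hT, _⟩ := J3_main h hE m V hV
  have h1 := Submodule.finrank_le (LinearMap.range T)
  rw [Module.finrank_fin_fun] at h1
  omega

theorem jet_count' (h : RLR x a b) (hE : OrdAt x a b E) (m : ℕ) (V : Submodule ℂ L)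
    [Module.Finite ℂ V] (hV : ∀ z ∈ V, z ∈ x) (hs : ∀ z ∈ x, ∃ v ∈ V, Ge E m (v - z)) :
    Module.finrank ℂ V = Module.finrank ℂ (V ⊓ geS E m : Submodule ℂ L) + m * (m + 1) / 2 := by
  obtain ⟨T, hT, hsur⟩ := J3_main h hE m V hV
  rw [LinearMap.range_eq_top.2 (hsur hs), finrank_top, Module.finrank_fin_fun] at hT
  exact hT

end Pool.Agent.LibLOC
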