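import Pool.Agent.LibLOC.U2

/-!
[K+.LOC U3] Essential valuations.
`Ess x = {ν | x ≤ ν.ring ∧ ∀ f, 0 ≤ ν.ord f → ∃ p ∈ x, ∃ q ∈ x, q ≠ 0 ∧ ν.ord q = 0 ∧ f = p / q}`.
`ess_not_centre`: `ν.ord a, ν.ord b ≥ 0`. If both are `> 0` then every element of `(a, b)` has
`ν.ord > 0` or is `0`; so for `0 ≤ ν.ord f`, `f = p / q` with `ν.ord q = 0`, `q ∉ (a, b)`, `q⁻¹ ∈ x`
(`inv_mem_iff`), `f ∈ x`: `ν.ring ≤ x`. Then `b / a ∈ x` or `a / b ∈ x` (one of them has `ν.ord ≥ 0`);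
`b = a r`, `r ∈ x`: `a r = b 1` gives `1 = a r'` by `reg`, contradiction (`nonunit`); `a = b r`:
the same with `rlr_swap`.
`exists_isGen`: the ideal `I = {f : x | f = 0 ∨ 0 < ν.ord f}` of `x` satisfies the hypothesis of
`principal`: if `ν.ord a = 0` and `a w ∈ I` then `w ∈ I` (same for `b`). So `I = (π)`, `π ≠ 0`: there
is `t` with `ν.ord t = 1`, `t = p / q`, `ν.ord q = 0`, so `ν.ord p = 1`, `p ∈ I`, `p = π r`,
`1 = ν.ord π + ν.ord r`, `ν.ord π ≥ 1`, so `ν.ord π = 1`.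
-/

set_option autoImplicit false

open Pool.Agent.LibGMM Pool.Agent.LibLB
open Pool.Agent.LibKB (ev ordP Ess VDom Ge)

namespace Pool.Agent.LibLOC

variable {L : Type} [Field L] [Algebra ℂ L]

variable {x : Subalgebra ℂ L} {a b : L} {ν : DVal L}

/-- Order of an element of the maximal ideal. -/
theorem ess_pos_of_inM {ν : DVal L} (hx : x ≤ ν.ring) (ha : a ≠ 0) (hb : b ≠ 0)
    (h1 : 0 < ν.ord a) (h2 : 0 < ν.ord b) {u : L} (hu : InM x a b u) (hu0 : u ≠ 0) :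
    0 < ν.ord u := by
  obtain ⟨p, hp, q, hq, he⟩ := hu
  have hp' : 0 ≤ ν.ord p := hx hp
  have hq' : 0 ≤ ν.ord q := hx hq
  have h3 : a * p = 0 ∨ 1 ≤ ν.ord (a * p) := by
    by_cases hp0 : p = 0
    · left; rw [hp0, mul_zero]
    · right; rw [ν.ord_mul _ _ ha hp0]; omega
  have h4 : b * q = 0 ∨ 1 ≤ ν.ord (b * q) := by
    by_cases hq0 : q = 0
    · left; rw [hq0, mul_zero]
    · right; rw [ν.ord_mul _ _ hb hq0]; omega
  have h5 := ν.ord_add_ge h3 h4
  rw [← he] at h5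
  have := h5.resolve_left hu0
  omega

/-- `b / a` is not an element of `x`. -/
theorem div_not_mem (h : RLR x a b) : b / a ∉ x := by
  intro hm
  have h1 : a * (b / a) = b * 1 := by rw [mul_div_cancel₀ _ h.a_ne, mul_one]
  obtain ⟨r, hr, hr'⟩ := h.reg _ hm 1 x.one_mem h1
  exact h.nonunit r hr 0 x.zero_mem (by rw [mul_zero, add_zero, ← hr'])

theorem ess_not_centre (h : RLR x a b) (hν : ν ∈ Ess x) : ν.ord a = 0 ∨ ν.ord b = 0 := by
  have ha0 : a ≠ 0 := h.a_ne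
  have hb0 : b ≠ 0 := b_ne h
  have h1 : 0 ≤ ν.ord a := hν.1 h.memA
  have h2 : 0 ≤ ν.ord b := hν.1 h.memB
  by_contra hcon
  push Not at hcon
  have h1' : 0 < ν.ord a := lt_of_le_of_ne h1 (Ne.symm hcon.1)
  have h2' : 0 < ν.ord b := lt_of_le_of_ne h2 (Ne.symm hcon.2)
  have hall : ∀ f : L, 0 ≤ ν.ord f → f ∈ x := by
    intro f hf
    obtain ⟨p, hp, q, hq, hq0, hqo, he⟩ := hν.2 f hf
    have hnm : ¬ InM x a b q := fun hm =>
      absurd (ess_pos_of_inM hν.1 ha0 hb0 h1' h2' hm hq0) (by omega)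
    have h3 : q⁻¹ ∈ x := (inv_mem_iff h hq hq0).2 hnm
    rw [he, div_eq_mul_inv]
    exact x.mul_mem hp h3
  rcases le_total (ν.ord a) (ν.ord b) with hle | hle
  · refine div_not_mem h (hall _ ?_)
    rw [ν.ord_div hb0 ha0]; omega
  · refine div_not_mem (rlr_swap h) (hall _ ?_)
    rw [ν.ord_div ha0 hb0]; omega

theorem exists_isGen (h : RLR x a b) (hν : ν ∈ Ess x) : ∃ π, IsGen x ν π := by
  have ha0 : a ≠ 0 := h.a_ne
  have hb0 : b ≠ 0 := b_ne h
  let I : Ideal x :=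
    { carrier := {f | (f : L) = 0 ∨ 1 ≤ ν.ord (f : L)}
      add_mem' := by
        intro u v hu hv
        exact ν.ord_add_ge hu hv
      zero_mem' := Or.inl rfl
      smul_mem' := by
        intro c f hf
        rcases hf with hf | hf
        · left
          change (c : L) * (f : L) = 0
          rw [hf, mul_zero]
        · by_cases h0 : (c : L) * (f : L) = 0
          · exact Or.inl h0
          · right
            change 1 ≤ ν.ord ((c : L) * (f : L))
            have hc : 0 ≤ ν.ord (c : L) := hν.1 c.2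
            rw [ν.ord_mul _ _ (left_ne_zero_of_mul h0) (right_ne_zero_of_mul h0)]
            omega }
  have key : ∀ (c : x) (w : x), (c : L) ≠ 0 → ν.ord (c : L) = 0 → c * w ∈ I → w ∈ I := by
    intro c w hc0 hc hw
    by_cases hw0 : (w : L) = 0
    · exact Or.inl hw0
    · right
      have h1 : (c : L) * (w : L) = 0 ∨ 1 ≤ ν.ord ((c : L) * (w : L)) := hw
      have h2 := h1.resolve_left (mul_ne_zero hc0 hw0)
      rw [ν.ord_mul _ _ hc0 hw0, hc, zero_add] at h2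
      exact h2
  obtain ⟨g, hg⟩ := principal h I (fun w hw1 hw2 => by
    rcases ess_not_centre h hν with h3 | h3
    · exact key _ w ha0 h3 hw1
    · exact key _ w hb0 h3 hw2)
  have hgI : g ∈ I := by rw [hg]; exact Ideal.mem_span_singleton_self g
  obtain ⟨t, ht⟩ := ν.exists_ord_one
  obtain ⟨p, hp, q, hq, hq0, hqo, he⟩ := hν.2 t (by omega)
  have ht0 : t ≠ 0 := by
    intro h0
    rw [h0, ν.ord_zero] at ht
    omega
  have hp0 : p ≠ 0 := by
    intro h0
    rw [h0, zero_div] at he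
    exact ht0 he
  have hpo : ν.ord p = 1 := by
    rw [he, ν.ord_div hp0 hq0] at ht
    omega
  have hdvd : ∀ f : L, ∀ hf : f ∈ x, 1 ≤ ν.ord f → ∃ r ∈ x, f = (g : L) * r := by
    intro f hf h1
    have h2 : (⟨f, hf⟩ : x) ∈ I := Or.inr h1
    rw [hg, Ideal.mem_span_singleton'] at h2
    obtain ⟨r, hr⟩ := h2
    refine ⟨r, r.2, ?_⟩
    have h3 := congrArg Subtype.val hr
    change (r : L) * (g : L) = f at h3
    rw [← h3, mul_comm]
  obtain ⟨r, hr, hpr⟩ := hdvd p hp (by omega)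
  have hg0 : (g : L) ≠ 0 := by
    intro h0
    rw [h0, zero_mul] at hpr
    exact hp0 hpr
  have hr0 : r ≠ 0 := by
    intro h0
    rw [h0, mul_zero] at hpr
    exact hp0 hpr
  have hg1 : 1 ≤ ν.ord (g : L) := by
    have h1 : (g : L) = 0 ∨ 1 ≤ ν.ord (g : L) := hgI
    exact h1.resolve_left hg0
  have hr1 : 0 ≤ ν.ord r := hν.1 hr
  refine ⟨g, g.2, ?_, fun f hf h1 => hdvd f hf (by omega)⟩
  rw [hpr, ν.ord_mul _ _ hg0 hr0] at hpo
  omega

end Pool.Agent.LibLOC
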