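import Pool.Agent.LibLOC.P5
import Pool.Agent.LibLOC.U3

/-!
[K+.LOC P6] The prime divisors through `y`.
`ess_bl` (←): `ν = E`: `E_mem_ess`; `ν ∈ Ess x` and `y ≤ ν.ring`: the fractions of elements of `x ≤ y`.
(→) `ν ∈ Ess y`. Case `ν.ord a > 0`. By `ess_not_centre` for `bl_rlr hb` : `ν.ord t = 0`. For `v ∈ y`,
by `mod_a` for `bl_rlr hb`: either `v = a r`, `r ∈ y` (then `v = 0` or `ν.ord v > 0` and `E.ord v > 0`),
or `v = u t ^ k + a s` with `u` a unit of `y`: then `ν.ord (u t ^ k) = 0`, so `v ≠ 0` and `ν.ord v = 0`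
(`ν.ord` of a sum of an element of order `0` and one of positive order), and likewise `E.ord v = 0`
(`E.ord t = 0`, `E.ord a = 1`, `E ∈ Ess y`). So for `0 ≠ v ∈ y`: `ν.ord v = 0 ↔ E.ord v = 0`. If
`0 ≤ ν.ord f`: `f = p / q`, `p, q ∈ y`, `ν.ord q = 0`, so `E.ord q = 0`, `0 ≤ E.ord f`; hence `ν = E`
(`DVal.ext_ring`). Case `ν.ord a = 0`: `ν ∈ Ess x`: `x ≤ y ≤ ν.ring`; `0 ≤ ν.ord f`: `f = p / q`,
`p, q ∈ y`, `ν.ord q = 0`; `p = p' / v`, `q = q' / v` (`bl_common`), `ν.ord v = 0` (`v, v⁻¹ ∈ y`);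
`p' = p'' / a ^ n`, `q' = q'' / a ^ m` with `p'', q'' ∈ x` (`mem_adj_iff`, `inPow_mem`):
`f = (p'' a ^ m) / (q'' a ^ n)`, `ν.ord (q'' a ^ n) = 0`.
`ord_a_zero`: if `ν.ord a ≥ 1` then `t ∈ y ≤ ν.ring`, `ν.ord b = ν.ord t + ν.ord a ≥ 1`, contradicting
`ess_not_centre` for `x`.
-/

set_option autoImplicit false

open Pool.Agent.LibGMM Pool.Agent.LibLB
open Pool.Agent.LibKB (ev ordP Ess VDom Ge)

namespace Pool.Agent.LibLOC

variable {L : Type} [Field L] [Algebra ℂ L]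

variable {x y : Subalgebra ℂ L} {a b : L} {E ν : DVal L}

theorem ess_bl (hb : Bl x y a b) (hE : OrdAt x a b E) (ν : DVal L) :
    ν ∈ Ess y ↔ ν = E ∨ (ν ∈ Ess x ∧ y ≤ ν.ring) := by
  have h := hb.rlr
  have hr := bl_rlr hb
  have ha := h.a_ne
  have hEy : E ∈ Ess y := E_mem_ess hb hE
  constructor
  · intro hν
    have hnn : ∀ (μ : DVal L), μ ∈ Ess y → ∀ z ∈ y, 0 ≤ μ.ord z := fun μ hμ z hz => hμ.1 hz
    have hunit : ∀ (μ : DVal L), μ ∈ Ess y → ∀ z ∈ y, z⁻¹ ∈ y → μ.ord z = 0 := by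
      intro μ hμ z hz hz'
      have h1 := hnn μ hμ z hz
      have h2 := hnn μ hμ _ hz'
      rw [DVal.ord_inv] at h2
      omega
    have ha0 : 0 ≤ ν.ord a := hnn ν hν a hr.memA
    rcases ha0.lt_or_eq with hpos | hz
    · left
      apply DVal.ext_ring
      have key : ∀ v ∈ y, v ≠ 0 → ν.ord v = 0 → E.ord v = 0 := by
        intro v hv hv0 hvν
        rcases mod_a hr hv with ⟨r, hr1, rfl⟩ | ⟨k, u, hu, hu0, hu', s, hs, rfl⟩
        · exfalso
          have hr0 : r ≠ 0 := by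
            rintro rfl
            exact hv0 (mul_zero _)
          rw [ν.ord_mul _ _ ha hr0] at hvν
          have := hnn ν hν r hr1
          omega
        · have ht0 : b / a ≠ 0 := div_ne_zero (b_ne h) ha
          have h1 : E.ord (u * (b / a) ^ k) = 0 := by
            rw [E.ord_mul _ _ hu0 (pow_ne_zero k ht0), DVal.ord_pow, ord_t h hE,
              hunit E hEy u hu hu', mul_zero, add_zero]
          have h2 : a * s = 0 ∨ E.ord (u * (b / a) ^ k) < E.ord (a * s) := by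
            by_cases hs0 : s = 0
            · left
              rw [hs0, mul_zero]
            · right
              rw [h1, E.ord_mul _ _ ha hs0, ord_a h hE]
              have := hnn E hEy s hs
              omega
          have h3 := (E.ord_add_eq (mul_ne_zero hu0 (pow_ne_zero k ht0)) h2).1
          rw [h3, h1]
      intro f hf
      obtain ⟨p, hp, q, hq, hq0, hqν, rfl⟩ := hν.2 f hf
      by_cases hp0 : p = 0
      · subst hp0
        simp
      rw [DVal.ord_div E hp0 hq0, key q hq hq0 hqν]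
      have := hnn E hEy p hp
      omega
    · right
      refine ⟨⟨(bl_le hb).trans hν.1, ?_⟩, hν.1⟩
      intro f hf
      obtain ⟨p, hp, q, hq, hq0, hqν, rfl⟩ := hν.2 f hf
      obtain ⟨p', hp', q', hq', v, hv, rfl, rfl⟩ := bl_common hb hp hq
      have hv0 : v ≠ 0 := hv.2.1
      have hq'0 : q' ≠ 0 := by
        rintro rfl
        exact hq0 (zero_div _)
      have hvν : ν.ord v = 0 := hunit ν hν v (bl_adj_le hb hv.1) (bl_den_inv hb hv)
      have hq'ν : ν.ord q' = 0 := by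
        rw [DVal.ord_div ν hq'0 hv0, hvν, sub_zero] at hqν
        exact hqν
      obtain ⟨n, p2, hp2, rfl⟩ := (mem_adj_iff h).1 hp'
      obtain ⟨m, q2, hq2, rfl⟩ := (mem_adj_iff h).1 hq'
      have hp2x : p2 ∈ x := inPow_mem h.memA h.memB hp2
      have hq2x : q2 ∈ x := inPow_mem h.memA h.memB hq2
      have hq20 : q2 ≠ 0 := by
        rintro rfl
        exact hq'0 (zero_div _)
      rw [DVal.ord_div ν hq20 (pow_ne_zero m ha), DVal.ord_pow, ← hz, mul_zero, sub_zero] at hq'ν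
      refine ⟨p2 * a ^ m, x.mul_mem hp2x (x.pow_mem h.memA m), q2 * a ^ n,
        x.mul_mem hq2x (x.pow_mem h.memA n), mul_ne_zero hq20 (pow_ne_zero n ha), ?_, ?_⟩
      · rw [ν.ord_mul _ _ hq20 (pow_ne_zero n ha), DVal.ord_pow, ← hz, mul_zero, add_zero, hq'ν]
      · field_simp
  · rintro (rfl | ⟨hν, hy⟩)
    · exact hEy
    · refine ⟨hy, ?_⟩
      intro f hf
      obtain ⟨p, hp, q, hq, hq0, hqν, rfl⟩ := hν.2 f hf
      exact ⟨p, bl_le hb hp, q, bl_le hb hq, hq0, hqν, rfl⟩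

theorem ord_a_zero (hb : Bl x y a b) (hν : ν ∈ Ess x) (hy : y ≤ ν.ring) : ν.ord a = 0 := by
  have h := hb.rlr
  have ha := h.a_ne
  rcases ess_not_centre h hν with h1 | h1
  · exact h1
  · have ht : b / a ∈ y := bl_adj_le hb self_mem_adj
    have h2 : 0 ≤ ν.ord (b / a) := hy ht
    rw [DVal.ord_div ν (b_ne h) ha, h1] at h2
    have h3 : 0 ≤ ν.ord a := hν.1 h.memA
    omega

end Pool.Agent.LibLOC
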