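import Pool.Agent.LibLOC.P4
import Pool.Agent.LibLOC.O3

/-!
[K+.LOC P7] Points over `x` with the same direction are equal.
`bl_le_of_congr`: `t = b / a`, `t' = b' / a'`. First: if `w ∈ (a, b) ^ 2` then `w / a = a w''` with
`w'' ∈ x[t]` (`mem_adj_iff`, `w'' = w / a ^ 2`). `b' = d⁻¹ (b - w)`, `w ∈ (a, b) ^ 2`:
`b' / a = d⁻¹ t - d⁻¹ a w''`. `a' ∈ (a, b)`: `a' = a p + b q`, constants of `p`, `q`: `a' = e a + f b + w'`,
`w' ∈ (a, b) ^ 2` (`exists_const` for `p`, `q`; or `exists_lead` with `k = 1`); `e ≠ 0`: otherwise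
`a', b'` are both multiples of `b` modulo `(a, b) ^ 2 = (a', b') ^ 2` (`inPow_iff_of_rlr`):
`a' - f d b' ∈ (a', b') ^ 2`, contradicting quasi-regularity (`quasi` with `k = 1`, coefficients
`- f d`, `1`, or `form_eq_zero`). So `a' / a = e + f t + a w₃`, which is `Den x a b`
(`den_mk`), a unit of `y`. So `t' = (b' / a) / (a' / a) = a p₁ + t q₁` with `p₁, q₁ ∈ y`, and
`a' = a p₂`, `p₂ ∈ y`. Hence `x[t'] ≤ y` (`adj_le`, `bl_le`), and a denominator
`v' = c + a' p + t' q` of `y'` is `c + a p₃ + t q₃`, `p₃, q₃ ∈ y`, a unit of `y`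
(`unit_of_const (bl_rlr hb)`): so `y' ≤ y`.
`bl_eq_of_congr`: both inclusions: `b - d b' ∈ (a, b) ^ 2` gives `b' - d⁻¹ b ∈ (a', b') ^ 2`.
`over_ne_aux`: `b = a' p + b' q`, so `b - c a' - d b' ∈ (a, b) ^ 2` for `c, d ∈ ℂ` (constants of
`p, q`); if `c = 0`: `d ≠ 0` (else `b ∈ (a, b) ^ 2`, contradiction with `ord_b`/`not_inPow_two_a`), so
`y = y'`, contradiction.
-/

set_option autoImplicit false

open Pool.Agent.LibGMM Pool.Agent.LibLB
open Pool.Agent.LibKB (ev ordP Ess VDom Ge)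

namespace Pool.Agent.LibLOC

variable {L : Type} [Field L] [Algebra ℂ L]

variable {x y y' : Subalgebra ℂ L} {a b a' b' : L}

/-- `w / a = a w''` with `w'' ∈ x[b / a]`, for `w ∈ (a, b) ^ 2`. -/
private theorem p7_div (h : RLR x a b) {w : L} (hw : InPow x a b 2 w) :
    ∃ w' ∈ adj x (b / a), w / a = a * w' := by
  refine ⟨w / a ^ 2, (mem_adj_iff h).2 ⟨2, w, hw, rfl⟩, ?_⟩
  have := h.a_ne
  field_simp

theorem bl_le_of_congr (hb : Bl x y a b) (hb' : Bl x y' a' b') {d : ℂ} (hd : d ≠ 0)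
    (hc : InPow x a b 2 (b - algebraMap ℂ L d * b')) : y' ≤ y := by
  have h := hb.rlr
  have h' := hb'.rlr
  have ha0 := h.a_ne
  have ha0' := h'.a_ne
  have hy := bl_rlr hb
  have hxy := bl_le hb
  have hadj := bl_adj_le hb
  have hd' : algebraMap ℂ L d ≠ 0 := by
    rw [Ne, map_eq_zero_iff _ (algebraMap ℂ L).injective]; exact hd
  -- `b' / a`
  obtain ⟨w₁, hw₁, hw₁'⟩ := p7_div h hc
  have hb1 : b' / a = algebraMap ℂ L d⁻¹ * (b / a) - algebraMap ℂ L d⁻¹ * (a * w₁) := by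
    rw [← hw₁', map_inv₀]
    field_simp
    ring
  -- `a' = e a + f b + w₂`
  obtain ⟨p, hp, q, hq, hpq⟩ := (inM_iff_of_rlr h h' a').2 inM_a
  obtain ⟨e, he⟩ := exists_const h hp
  obtain ⟨f, hf⟩ := exists_const h hq
  have hw2 : InPow x a b 2 (a' - algebraMap ℂ L e * a - algebraMap ℂ L f * b) := by
    have h1 : a' - algebraMap ℂ L e * a - algebraMap ℂ L f * b =
        a * (p - algebraMap ℂ L e) + b * (q - algebraMap ℂ L f) := by rw [hpq]; ring
    rw [h1]
    exact inPow_succ_iff.2 ⟨_, _, inPow_one_iff.2 he, inPow_one_iff.2 hf, rfl⟩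
  have he0 : e ≠ 0 := by
    rintro rfl
    rw [map_zero, zero_mul, sub_zero] at hw2
    -- `a' - f d b' ∈ (a', b') ^ 2`
    have h1 : InPow x a b 2 (a' - algebraMap ℂ L (f * d) * b') := by
      have h2 : a' - algebraMap ℂ L (f * d) * b' = (a' - algebraMap ℂ L f * b) +
          algebraMap ℂ L f * (b - algebraMap ℂ L d * b') := by rw [map_mul]; ring
      rw [h2]
      exact inPow_add hw2 (inPow_smul (x.algebraMap_mem f) hc)
    have h2 := (inPow_iff_of_rlr h h' 2 _).1 h1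
    have h3 := quasi h' 1 (fun i => if i = 0 then - algebraMap ℂ L (f * d) else 1) (by
      intro i
      split_ifs
      · exact x.neg_mem (x.algebraMap_mem _)
      · exact x.one_mem) (by
      rw [Finset.sum_range_succ, Finset.sum_range_one]
      simp only [if_true, one_ne_zero, if_false, pow_zero, pow_one, mul_one, Nat.sub_zero,
        Nat.sub_self, one_mul]
      have h4 : - algebraMap ℂ L (f * d) * b' + a' = a' - algebraMap ℂ L (f * d) * b' := by ring
      rw [h4]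
      exact h2) 1 le_rfl
    simp only [one_ne_zero, if_false] at h3
    exact not_inM_one h' h3
  have he0' : algebraMap ℂ L e ≠ 0 := by
    rw [Ne, map_eq_zero_iff _ (algebraMap ℂ L).injective]; exact he0
  obtain ⟨w₂, hw₂, hw₂'⟩ := p7_div h hw2
  have ha1 : a' / a = algebraMap ℂ L e + a * w₂ + b / a * algebraMap ℂ L f := by
    have h1 : a' / a = (a' - algebraMap ℂ L e * a - algebraMap ℂ L f * b) / a +
        algebraMap ℂ L e + b / a * algebraMap ℂ L f := by
      field_simp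
      ring
    rw [h1, hw₂']
    ring
  have hden : Den x a b (a' / a) := by
    rw [ha1]
    exact den_mk h he0 hw₂ ((adj x (b / a)).algebraMap_mem f)
  have hinv : (a' / a)⁻¹ ∈ y := bl_den_inv hb hden
  have haa : a' / a ∈ y := hadj hden.1
  have hty : b / a ∈ y := hadj self_mem_adj
  have hay : a ∈ y := hxy h.memA
  -- `t' = a p₁ + t q₁`
  obtain ⟨p₁, hp₁, q₁, hq₁, ht'⟩ : ∃ p₁ ∈ y, ∃ q₁ ∈ y, b' / a' = a * p₁ + b / a * q₁ := by
    refine ⟨-(algebraMap ℂ L d⁻¹ * w₁ * (a' / a)⁻¹), ?_, algebraMap ℂ L d⁻¹ * (a' / a)⁻¹, ?_, ?_⟩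
    · exact y.neg_mem (y.mul_mem (y.mul_mem (y.algebraMap_mem _) (hadj hw₁)) hinv)
    · exact y.mul_mem (y.algebraMap_mem _) hinv
    · have h1 : b' / a' = b' / a * (a' / a)⁻¹ := by field_simp
      rw [h1, hb1]
      ring
  -- `a' = a p₂`
  have ha2 : a' = a * (a' / a) := by field_simp
  have ht'y : b' / a' ∈ y := by
    rw [ht']
    exact y.add_mem (y.mul_mem hay hp₁) (y.mul_mem hty hq₁)
  have hadj' : adj x (b' / a') ≤ y := adj_le hxy ht'y
  intro z hz
  obtain ⟨u, hu, v, ⟨hv1, hv0, c, hc0, r, hr, s, hs, hv⟩, rfl⟩ := (bl_mem_iff hb').1 hz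
  have h1 : v = algebraMap ℂ L c + (a * (a' / a * r + p₁ * s) + b / a * (q₁ * s)) := by
    rw [hv, ht']
    have : a' * r = a * (a' / a) * r := by rw [← ha2]
    rw [this]
    ring
  have h2 := unit_of_const hy hc0 (m := a * (a' / a * r + p₁ * s) + b / a * (q₁ * s))
    ⟨_, y.add_mem (y.mul_mem haa (hadj' hr)) (y.mul_mem hp₁ (hadj' hs)), _,
      y.mul_mem hq₁ (hadj' hs), rfl⟩
  rw [← h1] at h2
  rw [div_eq_mul_inv]
  exact y.mul_mem (hadj' hu) h2.2

theorem bl_eq_of_congr (hb : Bl x y a b) (hb' : Bl x y' a' b') {d : ℂ} (hd : d ≠ 0)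
    (hc : InPow x a b 2 (b - algebraMap ℂ L d * b')) : y = y' := by
  refine le_antisymm (bl_le_of_congr hb' hb (inv_ne_zero hd) ?_) (bl_le_of_congr hb hb' hd hc)
  have hd' : algebraMap ℂ L d ≠ 0 := by
    rw [Ne, map_eq_zero_iff _ (algebraMap ℂ L).injective]; exact hd
  have h1 : b' - algebraMap ℂ L d⁻¹ * b =
      algebraMap ℂ L (-d⁻¹) * (b - algebraMap ℂ L d * b') := by
    rw [map_neg, map_inv₀]
    field_simp
    ring
  rw [h1]
  exact inPow_smul (x.algebraMap_mem _) ((inPow_iff_of_rlr hb.rlr hb'.rlr 2 _).1 hc)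

theorem over_ne_aux (hb : Bl x y a b) (hb' : Bl x y' a' b') (hne : y ≠ y') :
    ∃ c d : ℂ, c ≠ 0 ∧ InPow x a b 2 (b - algebraMap ℂ L c * a' - algebraMap ℂ L d * b') := by
  have h := hb.rlr
  have h' := hb'.rlr
  obtain ⟨p, hp, q, hq, hpq⟩ := (inM_iff_of_rlr h h' b).1 inM_b
  obtain ⟨c, hc⟩ := exists_const h' hp
  obtain ⟨d, hd⟩ := exists_const h' hq
  have h1 : InPow x a' b' 2 (b - algebraMap ℂ L c * a' - algebraMap ℂ L d * b') := by
    have h2 : b - algebraMap ℂ L c * a' - algebraMap ℂ L d * b' =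
        a' * (p - algebraMap ℂ L c) + b' * (q - algebraMap ℂ L d) := by rw [hpq]; ring
    rw [h2]
    exact inPow_succ_iff.2 ⟨_, _, inPow_one_iff.2 hc, inPow_one_iff.2 hd, rfl⟩
  have h2 := (inPow_iff_of_rlr h h' 2 _).2 h1
  refine ⟨c, d, ?_, h2⟩
  rintro rfl
  rw [map_zero, zero_mul, sub_zero] at h2
  by_cases hd0 : d = 0
  · subst hd0
    rw [map_zero, zero_mul, sub_zero] at h2
    have h3 := quasi h 1 (fun i => if i = 0 then 1 else 0) (by
      intro i
      split_ifs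
      · exact x.one_mem
      · exact x.zero_mem) (by
      rw [Finset.sum_range_succ, Finset.sum_range_one]
      simp only [if_true, one_ne_zero, if_false, pow_zero, pow_one, mul_one, Nat.sub_zero,
        Nat.sub_self, one_mul, zero_mul, add_zero]
      exact h2) 0 (Nat.zero_le _)
    simp only [if_true] at h3
    exact not_inM_one h h3
  · exact hne (bl_eq_of_congr hb hb' hd0 h2)

end Pool.Agent.LibLOC
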