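import Pool.Agent.LibLOC.P5
import Pool.Agent.LibKB1a.B1

/-!
[K+.LOC P8] Domination of points over `x`.
`VDom x V : (∀ f ∈ x, f ∈ V) ∧ ∀ f ∈ x, f⁻¹ ∉ x → f⁻¹ ∉ V ∨ f = 0`. For a valuation ring `V` write
`f ∈ 𝔪_V` if `f ∈ V` and (`f = 0` or `f⁻¹ ∉ V`): it is an ideal of `V` (`IsLocalRing.maximalIdeal V`,
`ValuationSubring.valuation_lt_one_iff`; as in `LibKB1a/C9a.lean`, `C9a_lt_one`). `inM_mV`: elements of
`(a, b)` are in `𝔪_V` (`inv_mem_iff`). `vdom_bl`: `x[t] ≤ V` (`adj_le` needs subalgebras; argue by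
`mem_adj_iff` or `Algebra.adjoin_induction`; or build the subalgebra of `L` underlying `V` from
`∀ c, algebraMap c ∈ V`, which follows from `x ≤ V`); `a, t ∈ 𝔪_V`; a denominator
`v = c + a p + t q` is then a unit of `V`; so `y ≤ V`; a nonunit of `y` is `a p + t q` with
`p, q ∈ y` (`(bl_rlr hb).unit`), so it is in `𝔪_V`.
`dom_bl`: `a, b ∈ 𝔪_V`, `a, b ≠ 0`. Case 1: `b / a ∈ V` and for some `c ∈ ℂ` `b / a - c` is not
invertible in `V` (`(b / a - c)⁻¹ ∉ V`; `b / a ≠ c` since `b - c a ≠ 0`, `b_ne (rlr_sub h c)`): parameters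
`a, b' = b - c a` (`rlr_sub`), `y` from `exists_bl`, `b' / a = b / a - c`, `vdom_bl`. Case 2:
`b / a ∈ V` and `(b / a - c)⁻¹ ∈ V` for all `c`. Then for every `0 ≠ F ∈ ℂ[T]`, `F(t)⁻¹ ∈ V` (`F` is a
product of linear factors: `IsAlgClosed`, `Polynomial.Splits`, induction on degree using
`IsAlgClosed.exists_root`); if `0 ≤ E.ord f` then `f = u / v` (`exists_frac_E`),
`v = F(t) + a p` (`adj_decomp`) with `F ≠ 0` (otherwise `E.ord v ≥ 1`), so `v⁻¹ ∈ V`, `f ∈ V`: the ring of
`E` is contained in `V`, and `V ≠ ⊤` (`a⁻¹ ∉ V`), so `V = E.toVal` by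
`LibKB1a.eq_or_top_of_toVal_le`. Case 3: `b / a ∉ V`: then `a / b ∈ V`, `(a / b)⁻¹ ∉ V`: parameters
`b, a` (`rlr_swap`), `vdom_bl`.
-/

set_option autoImplicit false

open Pool.Agent.LibGMM Pool.Agent.LibLB
open Pool.Agent.LibKB (ev ordP Ess VDom Ge)

namespace Pool.Agent.LibLOC

variable {L : Type} [Field L] [Algebra ℂ L]

variable {x y : Subalgebra ℂ L} {a b : L} {E : DVal L} {V : ValuationSubring L}

private theorem p8_lt_one (W : ValuationSubring L) (z : L) :
    W.valuation z < 1 ↔ (z = 0 ∨ z⁻¹ ∉ W) := by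
  by_cases h0 : z = 0
  · subst h0
    simp
  · have h1 : W.valuation z ≠ 0 := (Valuation.ne_zero_iff _).2 h0
    rw [← W.valuation_le_one_iff, map_inv₀, not_le]
    constructor
    · intro h
      exact Or.inr ((one_lt_inv₀ (zero_lt_iff.2 h1)).2 h)
    · rintro (h | h)
      · exact absurd h h0
      · exact (one_lt_inv₀ (zero_lt_iff.2 h1)).1 h

private theorem p8_mul {W : ValuationSubring L} {u m : L} (hm : W.valuation m < 1) (hu : u ∈ W) :
    W.valuation (m * u) < 1 := by
  rw [map_mul]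
  exact mul_lt_one_of_lt_of_le hm ((W.valuation_le_one_iff _).2 hu)

/-- The subalgebra underlying a valuation ring which contains the constants. -/
private def p8_alg (W : ValuationSubring L) (hW : ∀ c : ℂ, algebraMap ℂ L c ∈ W) :
    Subalgebra ℂ L where
  carrier := W
  mul_mem' := W.mul_mem _ _
  add_mem' := W.add_mem _ _
  algebraMap_mem' := hW

/-- A unit plus an element of the maximal ideal is a unit. -/
private theorem p8_unit {W : ValuationSubring L} {u m : L} (hu : u ≠ 0) (hu' : u⁻¹ ∈ W)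
    (hm : W.valuation m < 1) : (u + m)⁻¹ ∈ W := by
  by_contra h
  have h1 : W.valuation (u + m) < 1 := (p8_lt_one W _).2 (Or.inr h)
  have h2 : W.valuation u < 1 := by
    have h3 : u = (u + m) + (-m) := by ring
    rw [h3]
    exact Valuation.map_add_lt _ h1 (by rwa [Valuation.map_neg])
  rcases (p8_lt_one W u).1 h2 with h3 | h3
  · exact hu h3
  · exact h3 hu'

private theorem p8_const (hV : VDom x V) (c : ℂ) : algebraMap ℂ L c ∈ V :=
  hV.1 _ (x.algebraMap_mem c)

private theorem p8_a (h : RLR x a b) (hV : VDom x V) : V.valuation a < 1 := by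
  rw [p8_lt_one]
  have h1 : a⁻¹ ∉ x := fun h1 => (inv_mem_iff h h.memA h.a_ne).1 h1 inM_a
  rcases hV.2 a h.memA h1 with h2 | h2
  · exact Or.inr h2
  · exact Or.inl h2

theorem vdom_bl (hb : Bl x y a b) (hV : VDom x V) (ht : b / a ∈ V) (ht' : (b / a)⁻¹ ∉ V) :
    VDom y V := by
  have h := hb.rlr
  have hva : V.valuation a < 1 := p8_a h hV
  have hvt : V.valuation (b / a) < 1 := (p8_lt_one V _).2 (Or.inr ht')
  have hadj : adj x (b / a) ≤ p8_alg V (p8_const hV) := adj_le (fun f hf => hV.1 f hf) ht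
  have hy : ∀ z ∈ y, z ∈ V := by
    intro z hz
    obtain ⟨u, hu, v, ⟨hv1, hv0, c, hc0, p, hp, q, hq, hv⟩, rfl⟩ := (bl_mem_iff hb).1 hz
    have hc : algebraMap ℂ L c ≠ 0 := by
      rw [Ne, map_eq_zero_iff _ (algebraMap ℂ L).injective]; exact hc0
    have h1 : v⁻¹ ∈ V := by
      rw [hv, add_assoc]
      refine p8_unit hc ?_ ?_
      · rw [← map_inv₀]; exact p8_const hV _
      · exact Valuation.map_add_lt _ (p8_mul hva (hadj hp)) (p8_mul hvt (hadj hq))
    rw [div_eq_mul_inv]
    exact V.mul_mem _ _ (hadj hu) h1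
  refine ⟨hy, fun z hz hz' => ?_⟩
  rcases (bl_rlr hb).unit z hz with h1 | ⟨p, hp, q, hq, h1⟩
  · exact absurd h1 hz'
  · have h2 : V.valuation z < 1 := by
      rw [h1]
      exact Valuation.map_add_lt _ (p8_mul hva (hy p hp)) (p8_mul hvt (hy q hq))
    exact ((p8_lt_one V z).1 h2).symm

/-- If all `t - c` are invertible in `V` then so are all polynomials in `t`. -/
private theorem p8_poly {W : ValuationSubring L} (hW : ∀ c : ℂ, algebraMap ℂ L c ∈ W) {t : L}
    (ht : ∀ c : ℂ, (t - algebraMap ℂ L c)⁻¹ ∈ W) :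
    ∀ (n : ℕ) (F : Polynomial ℂ), F ≠ 0 → F.natDegree = n → (Polynomial.aeval t F)⁻¹ ∈ W := by
  intro n
  induction n with
  | zero =>
    intro F _ hn
    rw [Polynomial.eq_C_of_natDegree_eq_zero hn, Polynomial.aeval_C, ← map_inv₀]
    exact hW _
  | succ n ih =>
    intro F h0 hn
    obtain ⟨c, hc⟩ := IsAlgClosed.exists_root F (by
      intro hd
      rw [Polynomial.degree_eq_natDegree h0, hn] at hd
      norm_cast at hd)
    obtain ⟨G, hG⟩ := Polynomial.dvd_iff_isRoot.2 hc
    have hG0 : G ≠ 0 := by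
      rintro rfl
      rw [mul_zero] at hG
      exact h0 hG
    have hdeg : G.natDegree = n := by
      have h1 := congrArg Polynomial.natDegree hG
      rw [Polynomial.natDegree_mul (Polynomial.X_sub_C_ne_zero c) hG0,
        Polynomial.natDegree_X_sub_C, hn] at h1
      omega
    rw [hG, map_mul, mul_inv]
    refine W.mul_mem _ _ ?_ (ih G hG0 hdeg)
    rw [map_sub, Polynomial.aeval_X, Polynomial.aeval_C]
    exact ht c

theorem dom_bl (h : RLR x a b) (hE : OrdAt x a b E) (hV : VDom x V) :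
    (∀ f, f ∈ V ↔ 0 ≤ E.ord f) ∨ ∃ y, Over x y ∧ VDom y V := by
  have ha0 := h.a_ne
  by_cases hta : b / a ∈ V
  · by_cases hc : ∃ c : ℂ, (b / a - algebraMap ℂ L c)⁻¹ ∉ V
    · -- Case 1
      right
      obtain ⟨c, hc⟩ := hc
      have h' := rlr_sub h c
      obtain ⟨y, hy⟩ := exists_bl h'
      refine ⟨y, ⟨a, _, hy⟩, vdom_bl hy hV ?_ ?_⟩
      · have h1 : (b - algebraMap ℂ L c * a) / a = b / a + (- algebraMap ℂ L c) := by
          field_simp
          ring
        rw [h1]
        exact V.add_mem _ _ hta (V.neg_mem _ (p8_const hV c))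
      · have h1 : (b - algebraMap ℂ L c * a) / a = b / a - algebraMap ℂ L c := by
          field_simp
        rw [h1]
        exact hc
    · -- Case 2
      left
      push Not at hc
      have hva : V.valuation a < 1 := p8_a h hV
      have hadj : adj x (b / a) ≤ p8_alg V (p8_const hV) := adj_le (fun f hf => hV.1 f hf) hta
      have hle : E.toVal ≤ V := by
        intro f hf
        obtain ⟨u, hu, v, hv, hv0, hvE, rfl⟩ := exists_frac_E h hE hf
        obtain ⟨F, p, hp, hFp⟩ := adj_decomp h hv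
        have hF : F ≠ 0 := by
          rintro rfl
          rw [map_zero, zero_add] at hFp
          have hp0 : p ≠ 0 := by
            rintro rfl
            rw [mul_zero] at hFp
            exact hv0 hFp
          rw [hFp, E.ord_mul _ _ ha0 hp0, ord_a h hE] at hvE
          have := ord_adj_nonneg h hE hp
          omega
        have h1 := p8_poly (p8_const hV) hc _ F hF rfl
        have h2 : Polynomial.aeval (b / a) F ≠ 0 := by
          have := (ord_adj h hE hF (adj x (b / a)).zero_mem).1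
          rwa [mul_zero, add_zero] at this
        have h3 : v⁻¹ ∈ V := by
          rw [hFp]
          exact p8_unit h2 h1 (p8_mul hva (hadj hp))
        rw [div_eq_mul_inv]
        exact V.mul_mem _ _ (hadj hu) h3
      rcases LibKB1a.eq_or_top_of_toVal_le hle with h1 | h1
      · intro f
        rw [h1]
        exact E.mem_toVal
      · exfalso
        rcases (p8_lt_one V a).1 hva with h2 | h2
        · exact ha0 h2
        · exact h2 (by rw [h1]; exact ValuationSubring.mem_top _)
  · -- Case 3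
    right
    have hb0 := b_ne h
    have h1 : (b / a)⁻¹ = a / b := inv_div _ _
    obtain ⟨y, hy⟩ := exists_bl (rlr_swap h)
    refine ⟨y, ⟨b, a, hy⟩, vdom_bl hy hV ?_ ?_⟩
    · rw [← h1]
      exact (V.mem_or_inv_mem _).resolve_left hta
    · rw [inv_div]
      exact hta

end Pool.Agent.LibLOC
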