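import Pool.Agent.LibLOC.P4

/-!
[K+.LOC P9] There are infinitely many points over `x`.
For `c ∈ ℂ` take `y c` with `Bl x (y c) a (b - c a)` (`rlr_sub`, `exists_bl`). `c ↦ y c` is injective: if
`y c = y c' = y` then `t - c = (b - c a) / a` and `t - c'` are both in the maximal ideal of `y`:
`bl_rlr`: `InM y a (t - c) (t - c)` and, with `inM_iff_of_rlr` (the two `bl_rlr` are both RLR structures
on `y`), `InM y a (t - c) (t - c')`; so the constant `c - c'` is in `(a, t - c)`, hence `0`
(`const_unique` or `not_inM_one`). `Set.infinite_of_injective_forall_mem` (`ℂ` is infinite).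
-/

set_option autoImplicit false

open Pool.Agent.LibGMM Pool.Agent.LibLB
open Pool.Agent.LibKB (ev ordP Ess VDom Ge)

namespace Pool.Agent.LibLOC

variable {L : Type} [Field L] [Algebra ℂ L]

variable {x : Subalgebra ℂ L} {a b : L}

theorem infinite_bl (h : RLR x a b) : {y | Over x y}.Infinite := by
  have hex : ∀ c : ℂ, ∃ y, Bl x y a (b - algebraMap ℂ L c * a) :=
    fun c => exists_bl (rlr_sub h c)
  choose y hy using hex
  have ha : a ≠ 0 := h.a_ne
  have key : ∀ c : ℂ, (b - algebraMap ℂ L c * a) / a = b / a - algebraMap ℂ L c := by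
    intro c
    rw [sub_div, mul_div_assoc, div_self ha, mul_one]
  have hinj : Function.Injective y := by
    intro c c' hcc
    have h1 : RLR (y c) a ((b - algebraMap ℂ L c * a) / a) := bl_rlr (hy c)
    have h2 : RLR (y c) a ((b - algebraMap ℂ L c' * a) / a) := by
      rw [hcc]; exact bl_rlr (hy c')
    have h3 : InM (y c) a ((b - algebraMap ℂ L c * a) / a) (b / a - algebraMap ℂ L c) := by
      rw [← key c]; exact inM_b
    have h4 : InM (y c) a ((b - algebraMap ℂ L c * a) / a) (b / a - algebraMap ℂ L c') := by
      refine (inM_iff_of_rlr h2 h1 _).1 ?_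
      rw [← key c']; exact inM_b
    exact const_unique h1 h3 h4
  exact Set.infinite_of_injective_forall_mem hinj fun c => ⟨_, _, hy c⟩

end Pool.Agent.LibLOC
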