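import Pool.Agent.LibLOC.U3

/-!
[K+.LOC U4] The generators of different essential valuations.
`isGen_not`: `π = π' s`. The ideals `P = {f ∈ x | f = 0 ∨ 0 < ν.ord f}` and `P'` are prime, generated by
`π`, `π'`. Suppose `0 < ν'.ord π`. Then `π = π' s`, `s ∈ x`; `1 = ν.ord π = ν.ord π' + ν.ord s`, both
`≥ 0`. Case `ν.ord s > 0`: `s = π s'`, `π = π' π s'`, `1 = π' s'`, `0 = ν'.ord 1 = 1 + ν'.ord s' ≥ 1`,
contradiction. Case `ν.ord s = 0`, `ν.ord π' = 1`: `π' = π r`, so for `f ∈ x`: `0 < ν.ord f` iff `f` is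
a multiple of `π` iff it is a multiple of `π'` iff `0 < ν'.ord f` (`f ≠ 0`). So
`ν.ring ≤ ν'.ring` (`f = p / q`, `ν.ord q = 0`, so `ν'.ord q = 0`), and `ν = ν'`
(`DVal.ext_ring`, see `LibGMM/Api.lean`; `0 ≤ ν.ord f → 0 ≤ ν'.ord f` for all `f` suffices).
`divisorial_of_ess`: take `A = B` of the field `ess` of `RLR`: `f = p / q`, `p = v / w`, `q = v' / w'`
with `w⁻¹, w'⁻¹ ∈ x`, so `ν.ord w = ν.ord w' = 0`, `f = (v w') / (w v')`,
`ν.ord (w v') = ν.ord q = 0` (if `p = 0` use `0 / 1`).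
`factorial_aux`: for `ν ∈ Ess x` choose `π ν` (`exists_isGen`); `g = ∏ π ν ^ (D ν)` (`zpow`, product over
the finite set `hD.toFinset`); `ν.ord g = ∑ D ν' * ν.ord (π ν') = D ν` by `isGen_ord` and
`ν.ord (π ν) = 1` (`DVal.ord_prod`, `ord_zpow` of LibGMM/Api, or induction on the finite set; compare
`LibKB1a/C7.lean`, `exists_local_eq`).
-/

set_option autoImplicit false

open Pool.Agent.LibGMM Pool.Agent.LibLB
open Pool.Agent.LibKB (ev ordP Ess VDom Ge)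

namespace Pool.Agent.LibLOC

variable {L : Type} [Field L] [Algebra ℂ L]

variable {x : Subalgebra ℂ L} {a b : L} {ν ν' : DVal L} {π π' : L}

/-- Nonnegativity of the order of an essential valuation. -/
theorem ess_nonneg (hν : ν ∈ Ess x) {u : L} (hu : u ∈ x) : 0 ≤ ν.ord u := hν.1 hu

theorem isGen_ne_zero (hπ : IsGen x ν π) : π ≠ 0 := by
  intro h0
  have h1 := hπ.ord
  rw [h0, ν.ord_zero] at h1
  omega

/-- Two essential valuations with the same prime ideals are equal. -/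
theorem ess_eq_of_pos (hν : ν ∈ Ess x) (hν' : ν' ∈ Ess x)
    (hp : ∀ f ∈ x, f ≠ 0 → 0 < ν'.ord f → 0 < ν.ord f) : ν = ν' := by
  refine DVal.ext_ring fun f hf => ?_
  obtain ⟨p, hpx, q, hqx, hq0, hqo, he⟩ := hν.2 f hf
  have h1 : ν'.ord q = 0 := by
    by_contra hcon
    have h2 : 0 < ν'.ord q := lt_of_le_of_ne (ess_nonneg hν' hqx) (Ne.symm hcon)
    have h3 := hp q hqx hq0 h2
    omega
  by_cases hp0 : p = 0
  · rw [he, hp0, zero_div, ν'.ord_zero]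
  · rw [he, ν'.ord_div hp0 hq0, h1]
    have := ess_nonneg hν' hpx
    omega

theorem isGen_ord (hν : ν ∈ Ess x) (hν' : ν' ∈ Ess x) (hπ : IsGen x ν π) (hπ' : IsGen x ν' π')
    (hne : ν' ≠ ν) : ν'.ord π = 0 := by
  have hπ0 : π ≠ 0 := isGen_ne_zero hπ
  have hπ0' : π' ≠ 0 := isGen_ne_zero hπ'
  by_contra hcon
  have h1 : 0 < ν'.ord π := lt_of_le_of_ne (ess_nonneg hν' hπ.mem) (Ne.symm hcon)
  obtain ⟨s, hs, hse⟩ := hπ'.dvd π hπ.mem h1
  have hs0 : s ≠ 0 := by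
    intro h0
    rw [h0, mul_zero] at hse
    exact hπ0 hse
  have h2 : ν.ord π = ν.ord π' + ν.ord s := by rw [hse, ν.ord_mul _ _ hπ0' hs0]
  have h3 := ess_nonneg hν hs
  have h4 := ess_nonneg hν hπ'.mem
  rw [hπ.ord] at h2
  rcases lt_or_eq_of_le h3 with h5 | h5
  · obtain ⟨s', hs', hse'⟩ := hπ.dvd s hs h5
    have h6 : π * (π' * s' - 1) = 0 := by
      have h7 : π = π' * (π * s') := by rw [← hse']; exact hse
      linear_combination -h7
    have h8 : π' * s' = 1 := sub_eq_zero.1 ((mul_eq_zero.1 h6).resolve_left hπ0)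
    have hs0' : s' ≠ 0 := by
      intro h0
      rw [h0, mul_zero] at h8
      exact zero_ne_one h8
    have h9 : ν'.ord (π' * s') = 0 := by rw [h8, ν'.ord_one]
    rw [ν'.ord_mul _ _ hπ0' hs0', hπ'.ord] at h9
    have := ess_nonneg hν' hs'
    omega
  · refine hne (ess_eq_of_pos hν hν' fun f hf hf0 hfp => ?_).symm
    obtain ⟨r, hr, hre⟩ := hπ'.dvd f hf hfp
    have hr0 : r ≠ 0 := by
      intro h0
      rw [h0, mul_zero] at hre
      exact hf0 hre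
    rw [hre, ν.ord_mul _ _ hπ0' hr0]
    have := ess_nonneg hν hr
    omega

theorem div_of_ess (h : RLR x a b) (hν : ν ∈ Ess x) : ν.Divisorial := by
  obtain ⟨B, hB, hBx, hB'⟩ := h.ess
  refine ⟨B, hB, fun u hu => ess_nonneg hν (hBx hu), fun f hf => ?_⟩
  obtain ⟨p, hp, q, hq, hq0, hqo, he⟩ := hν.2 f hf
  obtain ⟨v, hv, w, hw, hw0, hwi, hpe⟩ := hB' p hp
  obtain ⟨v', hv', w', hw', hw0', hwi', hqe⟩ := hB' q hq
  have hwo : ν.ord w = 0 := by
    have h1 := ess_nonneg hν (hBx hw)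
    have h2 := ess_nonneg hν hwi
    rw [ν.ord_inv] at h2
    omega
  have hwo' : ν.ord w' = 0 := by
    have h1 := ess_nonneg hν (hBx hw')
    have h2 := ess_nonneg hν hwi'
    rw [ν.ord_inv] at h2
    omega
  have hv0' : v' ≠ 0 := by
    intro h0
    rw [h0, zero_div] at hqe
    exact hq0 hqe
  have hvo' : ν.ord v' = 0 := by
    rw [hqe, ν.ord_div hv0' hw0'] at hqo
    omega
  refine ⟨v * w', B.mul_mem hv hw', w * v', B.mul_mem hw hv', mul_ne_zero hw0 hv0', ?_, ?_⟩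
  · rw [ν.ord_mul _ _ hw0 hv0', hwo, hvo', add_zero]
  · rw [he, hpe, hqe, div_div_div_eq]

theorem factorial_aux (h : RLR x a b) (D : DVal L → ℤ)
    (hD : {ν | ν ∈ Ess x ∧ D ν ≠ 0}.Finite) : ∃ g : L, g ≠ 0 ∧ ∀ ν ∈ Ess x, ν.ord g = D ν := by
  classical
  have hex : ∀ μ : DVal L, ∃ ϖ : L, μ ∈ Ess x → IsGen x μ ϖ := by
    intro μ
    by_cases hμ : μ ∈ Ess x
    · obtain ⟨ϖ, hϖ⟩ := exists_isGen h hμ
      exact ⟨ϖ, fun _ => hϖ⟩
    · exact ⟨1, fun h1 => absurd h1 hμ⟩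
  choose G hG using hex
  have hne : ∀ μ ∈ hD.toFinset, G μ ^ D μ ≠ 0 := by
    intro μ hμ
    rw [Set.Finite.mem_toFinset] at hμ
    exact zpow_ne_zero _ (isGen_ne_zero (hG μ hμ.1))
  refine ⟨∏ μ ∈ hD.toFinset, G μ ^ D μ, Finset.prod_ne_zero_iff.2 hne, fun μ hμ => ?_⟩
  rw [μ.ord_prod _ _ hne]
  rw [Finset.sum_eq_single μ]
  · rw [μ.ord_zpow, (hG μ hμ).ord, mul_one]
  · intro μ' hμ' hμne
    rw [Set.Finite.mem_toFinset] at hμ'
    rw [μ.ord_zpow, isGen_ord hμ'.1 hμ (hG μ' hμ'.1) (hG μ hμ) hμne.symm, mul_zero]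
  · intro hnot
    have h1 : D μ = 0 := by
      by_contra hcon
      exact hnot ((Set.Finite.mem_toFinset hD).2 ⟨hμ, hcon⟩)
    rw [h1, zpow_zero, μ.ord_one]

end Pool.Agent.LibLOC
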