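import Pool.Agent.LibLOC.Defs

/-!
[K+.LOC O1] A discrete valuation from an order function on a ring.
Put `ord (u / v) = o u - o v`. By `hfrac` choose `num, den : L → L` with `z = num z / den z`,
`den z ≠ 0`, and put `ord z = if z = 0 then 0 else o (num z) - o (den z)`; for `z = u / v` with
`u, v ∈ x` nonzero, `num z * v = u * den z`, so by `hmul` `ord z = o u - o v`. `o 1 = 0` (`o 1 = o 1 +
o 1`). `ord_mul`, `ord_add` (common denominators: `u / v + u' / v' = (u v' + u' v) / (v v')`).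
`ord_const`: for `c ≠ 0`: `o c + o c⁻¹ = o 1 = 0`. `exists_ord_one`: `hone`. Compare
`Pool/Agent/LibKB1a/B2.lean` (`exists_isPolyVal`), which is the same construction.
-/

set_option autoImplicit false

open Pool.Agent.LibGMM Pool.Agent.LibLB
open Pool.Agent.LibKB (ev ordP Ess VDom Ge)

namespace Pool.Agent.LibLOC

variable {L : Type} [Field L] [Algebra ℂ L]

theorem exists_dval (x : Subalgebra ℂ L) (hfrac : ∀ z : L, ∃ u ∈ x, ∃ v ∈ x, v ≠ 0 ∧ z = u / v)
    (o : L → ℕ) (hmul : ∀ f ∈ x, ∀ g ∈ x, f ≠ 0 → g ≠ 0 → o (f * g) = o f + o g)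
    (hadd : ∀ f ∈ x, ∀ g ∈ x, f ≠ 0 → g ≠ 0 → f + g ≠ 0 → min (o f) (o g) ≤ o (f + g))
    (hone : ∃ t ∈ x, t ≠ 0 ∧ o t = 1) : ∃ E : DVal L, ∀ f ∈ x, f ≠ 0 → E.ord f = (o f : ℤ) := by
  classical
  choose P hP Q hQ hQ0 hPQ using hfrac
  have hP0 : ∀ f : L, f ≠ 0 → P f ≠ 0 := by
    intro f hf h0
    apply hf
    rw [hPQ f, h0, zero_div]
  -- the value on any representation as a quotient
  have hrep : ∀ (f : L) (R S : L), R ∈ x → S ∈ x → R ≠ 0 → S ≠ 0 → f = R / S →
      (o (P f) : ℤ) - o (Q f) = (o R : ℤ) - o S := by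
    intro f R S hRx hSx hR hS hf
    have hf0 : f ≠ 0 := by
      rw [hf]
      exact div_ne_zero hR hS
    have h1 : P f * S = R * Q f := by
      have h2 : R / S = P f / Q f := by
        rw [← hf]
        exact hPQ f
      rw [div_eq_div_iff hS (hQ0 f)] at h2
      exact h2.symm
    have h3 := hmul _ (hP f) _ hSx (hP0 f hf0) hS
    have h4 := hmul _ hRx _ (hQ f) hR (hQ0 f)
    rw [h1, h4] at h3
    omega
  have ho1 : o 1 = 0 := by
    have h1 := hmul 1 x.one_mem 1 x.one_mem one_ne_zero one_ne_zero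
    rw [mul_one] at h1
    omega
  refine ⟨⟨fun f => if f = 0 then 0 else (o (P f) : ℤ) - o (Q f), by simp, ?_, ?_, ?_, ?_⟩, ?_⟩
  · intro a b ha hb
    simp only [ha, hb, mul_ne_zero ha hb, if_false]
    have h1 : a * b = (P a * P b) / (Q a * Q b) := by
      rw [← div_mul_div_comm, ← hPQ a, ← hPQ b]
    rw [hrep (a * b) _ _ (x.mul_mem (hP a) (hP b)) (x.mul_mem (hQ a) (hQ b))
      (mul_ne_zero (hP0 a ha) (hP0 b hb)) (mul_ne_zero (hQ0 a) (hQ0 b)) h1,
      hmul _ (hP a) _ (hP b) (hP0 a ha) (hP0 b hb), hmul _ (hQ a) _ (hQ b) (hQ0 a) (hQ0 b)]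
    push_cast
    ring
  · intro a b ha hb hab
    simp only [ha, hb, hab, if_false]
    have h1 : a + b = (P a * Q b + Q a * P b) / (Q a * Q b) := by
      rw [← div_add_div _ _ (hQ0 a) (hQ0 b), ← hPQ a, ← hPQ b]
    have h2 : P a * Q b + Q a * P b ≠ 0 := by
      intro h0
      apply hab
      rw [h1, h0, zero_div]
    have h5 : P a * Q b ∈ x := x.mul_mem (hP a) (hQ b)
    have h6 : Q a * P b ∈ x := x.mul_mem (hQ a) (hP b)
    rw [hrep (a + b) _ _ (x.add_mem h5 h6) (x.mul_mem (hQ a) (hQ b)) h2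
      (mul_ne_zero (hQ0 a) (hQ0 b)) h1, hmul _ (hQ a) _ (hQ b) (hQ0 a) (hQ0 b)]
    have h3 := hadd _ h5 _ h6 (mul_ne_zero (hP0 a ha) (hQ0 b)) (mul_ne_zero (hQ0 a) (hP0 b hb)) h2
    rw [hmul _ (hP a) _ (hQ b) (hP0 a ha) (hQ0 b), hmul _ (hQ a) _ (hP b) (hQ0 a) (hP0 b hb)] at h3
    rcases min_le_iff.1 h3 with h4 | h4
    · exact min_le_iff.2 (Or.inl (by push_cast; omega))
    · exact min_le_iff.2 (Or.inr (by push_cast; omega))
  · intro c
    by_cases hc : algebraMap ℂ L c = 0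
    · simp [hc]
    · simp only [hc, if_false]
      have hc0 : c ≠ 0 := by
        rintro rfl
        exact hc (map_zero _)
      have h1 : algebraMap ℂ L c = algebraMap ℂ L c / 1 := by rw [div_one]
      have h3 : algebraMap ℂ L c⁻¹ ≠ 0 := by
        rw [map_inv₀]
        exact inv_ne_zero hc
      have h4 := hmul _ (x.algebraMap_mem c) _ (x.algebraMap_mem c⁻¹) hc h3
      rw [← map_mul, mul_inv_cancel₀ hc0, map_one, ho1] at h4
      rw [hrep _ _ _ (x.algebraMap_mem c) x.one_mem hc one_ne_zero h1, ho1]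
      omega
  · obtain ⟨t, htx, ht0, ht⟩ := hone
    refine ⟨t, ?_⟩
    simp only [ht0, if_false]
    rw [hrep t t 1 htx x.one_mem ht0 one_ne_zero (by rw [div_one]), ht, ho1]
    simp
  · intro f hf hf0
    change (if f = 0 then (0 : ℤ) else _) = _
    simp only [hf0, if_false]
    rw [hrep f f 1 hf x.one_mem hf0 one_ne_zero (by rw [div_one]), ho1]
    simp

end Pool.Agent.LibLOC
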