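import Pool.Agent.LibLOC.U5
import Pool.Agent.LibLOC.O1

/-!
[K+.LOC U6] The valuation of a prime element; elements of `x` in terms of `Ess x`.
`exists_primeVal`: `exists_dval` with `o f = multiplicity π f` (for `f ∈ x`; `0` elsewhere): additive for
a prime (`multiplicity_mul`, finite by `FiniteMultiplicity.of_prime_left`), `min`
(`pow_dvd`, see `LibKB1a/B2.lean`), `o π = 1`. `ν ∈ Ess x`: `x ≤ ν.ring` clear; if `0 ≤ ν.ord f`,
`f = p / q` (`h.frac`), `p = π ^ i p'`, `q = π ^ j q'`, `π ∤ p', q'`, `i ≥ j`,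
`f = (π ^ (i - j) p') / q'`, `ν.ord q' = 0` (compare `LibKB1a/B3.lean`, `IsPolyVal.ess`).
`mem_of_ess`: `f = p / q`; `UniqueFactorizationMonoid.exists_reduced_factors'`: `p = c p'`, `q = c q'`
with `p', q'` relatively prime. If `q'` is not a unit it has a prime factor `π`
(`WfDvdMonoid.exists_irreducible_factor`), `π ∤ p'`, and `ν.ord f = ν.ord p' - ν.ord q' < 0` for the
valuation of `π`. So `q'⁻¹ ∈ x`, `f ∈ x`.
-/

set_option autoImplicit false

open Pool.Agent.LibGMM Pool.Agent.LibLB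
open Pool.Agent.LibKB (ev ordP Ess VDom Ge)

namespace Pool.Agent.LibLOC

variable {L : Type} [Field L] [Algebra ℂ L]

variable {x : Subalgebra ℂ L} {a b : L}

theorem locU6_mult_add {R : Type} [CommRing R] [IsDomain R] [WfDvdMonoid R] {g P Q : R}
    (hg : Prime g) (hPQ : P + Q ≠ 0) :
    min (multiplicity g P) (multiplicity g Q) ≤ multiplicity g (P + Q) := by
  apply (FiniteMultiplicity.of_prime_left hg hPQ).le_multiplicity_of_pow_dvd
  apply dvd_add
  · exact (pow_dvd_pow g (min_le_left _ _)).trans (pow_multiplicity_dvd g P)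
  · exact (pow_dvd_pow g (min_le_right _ _)).trans (pow_multiplicity_dvd g Q)

theorem exists_primeVal (h : RLR x a b) {π : x} (hπ : Prime π) :
    ∃ ν ∈ Ess x, ∀ f : x, f ≠ 0 → ν.ord (f : L) = (multiplicity π f : ℤ) := by
  classical
  have hU : UniqueFactorizationMonoid x := ufd h
  have hW : WfDvdMonoid x := inferInstance
  obtain ⟨o, ho⟩ : ∃ o : L → ℕ, ∀ f : x, o (f : L) = multiplicity π f := by
    refine ⟨fun f => if hf : f ∈ x then multiplicity π (⟨f, hf⟩ : x) else 0, ?_⟩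
    intro f
    change (if hf : (f : L) ∈ x then multiplicity π (⟨(f : L), hf⟩ : x) else 0) = _
    rw [dif_pos f.2]
  obtain ⟨ν, hν⟩ := exists_dval x h.frac o (by
      intro f hf g hg hf0 hg0
      have hf1 : (⟨f, hf⟩ : x) ≠ 0 := fun h0 => hf0 (congrArg Subtype.val h0)
      have hg1 : (⟨g, hg⟩ : x) ≠ 0 := fun h0 => hg0 (congrArg Subtype.val h0)
      have h1 := multiplicity_mul hπ (FiniteMultiplicity.of_prime_left hπ (mul_ne_zero hf1 hg1))
      rw [← ho, ← ho, ← ho] at h1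
      exact h1) (by
      intro f hf g hg _ _ hfg0
      have hfg1 : (⟨f, hf⟩ : x) + ⟨g, hg⟩ ≠ 0 := fun h0 => hfg0 (congrArg Subtype.val h0)
      have h1 := locU6_mult_add hπ hfg1
      rw [← ho, ← ho, ← ho] at h1
      exact h1) (by
      refine ⟨(π : L), π.2, ?_, ?_⟩
      · intro h0
        exact hπ.ne_zero (Subtype.ext h0)
      · rw [ho]
        exact multiplicity_self)
  have hν' : ∀ f : x, f ≠ 0 → ν.ord (f : L) = (multiplicity π f : ℤ) := by
    intro f hf
    rw [hν f f.2 (fun h0 => hf (Subtype.ext h0)), ho]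
  refine ⟨ν, ⟨?_, ?_⟩, hν'⟩
  · intro f hf
    change 0 ≤ ν.ord f
    by_cases hf0 : f = 0
    · rw [hf0, ν.ord_zero]
    · rw [hν f hf hf0]
      positivity
  · intro f hf
    by_cases hf0 : f = 0
    · exact ⟨0, x.zero_mem, 1, x.one_mem, one_ne_zero, ν.ord_one, by simp [hf0]⟩
    obtain ⟨p, hp, q, hq, hq0, hpq⟩ := h.frac f
    have hp0 : p ≠ 0 := by
      rintro rfl
      rw [zero_div] at hpq
      exact hf0 hpq
    have hp1 : (⟨p, hp⟩ : x) ≠ 0 := fun h0 => hp0 (congrArg Subtype.val h0)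
    have hq1 : (⟨q, hq⟩ : x) ≠ 0 := fun h0 => hq0 (congrArg Subtype.val h0)
    rw [hpq, DVal.ord_div _ hp0 hq0, hν p hp hp0, hν q hq hq0] at hf
    have e1 : o p = multiplicity π (⟨p, hp⟩ : x) := ho ⟨p, hp⟩
    have e2 : o q = multiplicity π (⟨q, hq⟩ : x) := ho ⟨q, hq⟩
    obtain ⟨P', hP', hPn⟩ := (FiniteMultiplicity.of_prime_left hπ hp1).exists_eq_pow_mul_and_not_dvd
    obtain ⟨Q', hQ', hQn⟩ := (FiniteMultiplicity.of_prime_left hπ hq1).exists_eq_pow_mul_and_not_dvd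
    have hQ'0 : Q' ≠ 0 := by
      rintro rfl
      exact hQn (dvd_zero π)
    have hQ'1 : (Q' : L) ≠ 0 := fun h0 => hQ'0 (Subtype.ext h0)
    obtain ⟨k, hk⟩ : ∃ k, multiplicity π (⟨p, hp⟩ : x) = multiplicity π (⟨q, hq⟩ : x) + k := by
      refine ⟨multiplicity π (⟨p, hp⟩ : x) - multiplicity π (⟨q, hq⟩ : x), ?_⟩
      omega
    refine ⟨((π ^ k * P' : x) : L), (π ^ k * P' : x).2, (Q' : L), Q'.2, hQ'1, ?_, ?_⟩
    · rw [hν' Q' hQ'0, multiplicity_eq_zero.2 hQn]
      rfl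
    · rw [hpq, div_eq_div_iff hq0 hQ'1]
      have h1 : (⟨p, hp⟩ : x) * Q' = (π ^ k * P') * ⟨q, hq⟩ := by
        conv_lhs => rw [hP', hk]
        conv_rhs => rw [hQ']
        ring
      exact congrArg Subtype.val h1

theorem mem_of_ess (h : RLR x a b) {f : L} (hf : ∀ ν ∈ Ess x, 0 ≤ ν.ord f) : f ∈ x := by
  classical
  have hU : UniqueFactorizationMonoid x := ufd h
  have hW : WfDvdMonoid x := inferInstance
  by_cases hf0 : f = 0
  · rw [hf0]
    exact x.zero_mem
  obtain ⟨p, hp, q, hq, hq0, hpq⟩ := h.frac f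
  have hq1 : (⟨q, hq⟩ : x) ≠ 0 := fun h0 => hq0 (congrArg Subtype.val h0)
  obtain ⟨p', q', c, hrel, h1, h2⟩ :=
    UniqueFactorizationMonoid.exists_reduced_factors' (⟨p, hp⟩ : x) (⟨q, hq⟩ : x) hq1
  have hc0 : c ≠ 0 := by
    rintro rfl
    rw [zero_mul] at h2
    exact hq1 h2.symm
  have hq'0 : q' ≠ 0 := by
    rintro rfl
    rw [mul_zero] at h2
    exact hq1 h2.symm
  have hcL : (c : L) ≠ 0 := fun h0 => hc0 (Subtype.ext h0)
  have hqL : (q' : L) ≠ 0 := fun h0 => hq'0 (Subtype.ext h0)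
  have e1 : p = (c : L) * (p' : L) := (congrArg Subtype.val h1).symm
  have e2 : q = (c : L) * (q' : L) := (congrArg Subtype.val h2).symm
  have e3 : f = (p' : L) / (q' : L) := by
    rw [hpq, e1, e2, mul_div_mul_left _ _ hcL]
  have hp'0 : p' ≠ 0 := by
    rintro rfl
    rw [ZeroMemClass.coe_zero, zero_div] at e3
    exact hf0 e3
  have hpL : (p' : L) ≠ 0 := fun h0 => hp'0 (Subtype.ext h0)
  by_cases hu : IsUnit q'
  · obtain ⟨r, hr⟩ := hu.exists_left_inv
    have h3 : (r : L) * (q' : L) = 1 := congrArg Subtype.val hr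
    have h4 : f = (p' : L) * (r : L) := by
      rw [e3, div_eq_iff hqL, mul_assoc, h3, mul_one]
    rw [h4]
    exact x.mul_mem p'.2 r.2
  · exfalso
    obtain ⟨π, hπ, hπq⟩ := WfDvdMonoid.exists_irreducible_factor hu hq'0
    have hπp : Prime π := UniqueFactorizationMonoid.irreducible_iff_prime.1 hπ
    have hπn : ¬ π ∣ p' := fun h3 => hπ.not_isUnit (hrel h3 hπq)
    obtain ⟨ν, hν, hν'⟩ := exists_primeVal h hπp
    have h5 := hf ν hν
    rw [e3, DVal.ord_div _ hpL hqL, hν' p' hp'0, hν' q' hq'0, multiplicity_eq_zero.2 hπn] at h5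
    have h6 : multiplicity π q' ≠ 0 := by
      rw [Ne, multiplicity_eq_zero]
      exact fun h7 => h7 hπq
    omega

end Pool.Agent.LibLOC
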