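import Pool.Agent.LibLOC.Defs

/-!
[K+.LOC A1] First properties of `RLR x a b`.
`b_ne`: if `b = 0` then `a * 0 = b * 1`, so by `reg` `1 = a * r = a * r + b * 0` with `r ∈ x`,
contradicting `nonunit`. `rlr_swap`: exchange the roles; `reg`: if `b * p = a * q` (so
`a * q = b * p`) then `p = a * r` with `r ∈ x` by `reg`, hence `a * (b * r) = a * q`, `q = b * r`
(`a ≠ 0`). `rlr_sub` (parameters `a`, `b' = b - c a`): `a p + b q = a (p + c q) + b' q`;
`nonunit`: `a p + b' q = a (p - c q) + b q ≠ 1`; `reg`: `a p = b' q` gives `a (p + c q) = b q`.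
-/

set_option autoImplicit false

open Pool.Agent.LibGMM Pool.Agent.LibLB
open Pool.Agent.LibKB (ev ordP Ess VDom Ge)

namespace Pool.Agent.LibLOC

variable {L : Type} [Field L] [Algebra ℂ L]

variable {x : Subalgebra ℂ L} {a b : L}

theorem b_ne (h : RLR x a b) : b ≠ 0 := by
  intro hb
  obtain ⟨r, hr, h1⟩ := h.reg 0 x.zero_mem 1 x.one_mem (by rw [hb, mul_zero, zero_mul])
  exact h.nonunit r hr 0 x.zero_mem (by rw [mul_zero, add_zero]; exact h1.symm)

theorem rlr_swap (h : RLR x a b) : RLR x b a where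
  tr := h.tr
  memA := h.memB
  memB := h.memA
  frac := h.frac
  decomp := by
    intro u hu
    obtain ⟨c, p, hp, q, hq, h1⟩ := h.decomp u hu
    exact ⟨c, q, hq, p, hp, by rw [h1]; ring⟩
  unit := by
    intro u hu
    rcases h.unit u hu with h1 | ⟨p, hp, q, hq, h1⟩
    · exact Or.inl h1
    · exact Or.inr ⟨q, hq, p, hp, by rw [h1]; ring⟩
  nonunit := by
    intro p hp q hq h1
    exact h.nonunit q hq p hp (by rw [← h1]; ring)
  a_ne := b_ne h
  reg := by
    intro p hp q hq h1
    obtain ⟨r, hr, h2⟩ := h.reg q hq p hp h1.symm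
    refine ⟨r, hr, ?_⟩
    apply mul_left_cancel₀ h.a_ne
    rw [← h1, h2]
    ring
  ess := h.ess

theorem rlr_sub (h : RLR x a b) (c : ℂ) : RLR x a (b - algebraMap ℂ L c * a) where
  tr := h.tr
  memA := h.memA
  memB := x.sub_mem h.memB (x.mul_mem (x.algebraMap_mem c) h.memA)
  frac := h.frac
  decomp := by
    intro u hu
    obtain ⟨c₀, p, hp, q, hq, h1⟩ := h.decomp u hu
    exact ⟨c₀, p + algebraMap ℂ L c * q, x.add_mem hp (x.mul_mem (x.algebraMap_mem c) hq), q, hq,
      by rw [h1]; ring⟩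
  unit := by
    intro u hu
    rcases h.unit u hu with h1 | ⟨p, hp, q, hq, h1⟩
    · exact Or.inl h1
    · exact Or.inr ⟨p + algebraMap ℂ L c * q, x.add_mem hp (x.mul_mem (x.algebraMap_mem c) hq), q, hq,
        by rw [h1]; ring⟩
  nonunit := by
    intro p hp q hq h1
    refine h.nonunit (p - algebraMap ℂ L c * q)
      (x.sub_mem hp (x.mul_mem (x.algebraMap_mem c) hq)) q hq ?_
    rw [← h1]
    ring
  a_ne := h.a_ne
  reg := by
    intro p hp q hq h1
    refine h.reg (p + algebraMap ℂ L c * q) (x.add_mem hp (x.mul_mem (x.algebraMap_mem c) hq)) q hq ?_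
    linear_combination h1
  ess := h.ess

end Pool.Agent.LibLOC
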