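import Pool.Agent.LibLOC.I1

/-!
[K+.LOC I2] `InPow x a b k f` (`f ∈ (a, b) ^ k`), part 2.
`inPow_succ_iff` (→): `Finset.sum_range_succ'` (the term `i = 0` is `b * (c 0 * b ^ k)`, the others are
`a * (c (i + 1) * a ^ i * b ^ (k - i))`); (←): shift indices (`Finset.sum_range_succ'` /
`Finset.sum_range_succ`): `a * (∑ c i a^i b^(k-i)) = ∑_{i ≥ 1} c (i-1) a^i b^(k+1-i)`, and
`b * b ^ (k - i) = b ^ (k + 1 - i)` for `i ≤ k`. `inPow_swap`: `Finset.sum_range_reflect`.
`inPow_monom`: one coefficient equal to `1` (`Finset.sum_eq_single`). `inPow_anti`: induction on `l`,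
`inPow_succ_iff` and `inPow_smul` (or: `a * p + b * q` with `p, q ∈ (a, b) ^ k`). `inPow_mul`:
induction on `k` with `inPow_succ_iff`, or double sum with `inPow_sum`, `inPow_monom`.
-/

set_option autoImplicit false

open Pool.Agent.LibGMM Pool.Agent.LibLB
open Pool.Agent.LibKB (ev ordP Ess VDom Ge)

namespace Pool.Agent.LibLOC

variable {L : Type} [Field L] [Algebra ℂ L]

variable {x : Subalgebra ℂ L} {a b f g : L} {k l : ℕ}

private theorem i2_single {r : L} {i : ℕ} (hr : r ∈ x) (hi : i ≤ k) :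
    InPow x a b k (r * a ^ i * b ^ (k - i)) := by
  classical
  refine ⟨fun j => if j = i then r else 0, fun j => ?_, ?_⟩
  · show (if j = i then r else 0) ∈ x
    split_ifs
    · exact hr
    · exact x.zero_mem
  · rw [Finset.sum_eq_single i]
    · dsimp only
      rw [if_pos rfl]
    · intro j _ hj
      dsimp only
      rw [if_neg hj, zero_mul, zero_mul]
    · intro h
      exact absurd (Finset.mem_range.2 (by omega)) h

private theorem i2_mulA {p : L} (hp : InPow x a b k p) : InPow x a b (k + 1) (a * p) := by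
  obtain ⟨c, hc, rfl⟩ := hp
  refine ⟨fun i => Nat.casesOn i 0 c, fun i => ?_, ?_⟩
  · cases i with
    | zero => exact x.zero_mem
    | succ i => exact hc i
  · rw [Finset.sum_range_succ' _ (k + 1), Finset.mul_sum]
    have h0 : ((fun i : ℕ => (Nat.casesOn i 0 c : L)) 0) * a ^ 0 * b ^ (k + 1 - 0) = 0 := by
      show (0 : L) * a ^ 0 * b ^ (k + 1 - 0) = 0
      rw [zero_mul, zero_mul]
    rw [h0, add_zero]
    refine Finset.sum_congr rfl fun i _ => ?_
    show a * (c i * a ^ i * b ^ (k - i)) = c i * a ^ (i + 1) * b ^ (k + 1 - (i + 1))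
    rw [Nat.add_sub_add_right]
    ring

private theorem i2_mulB {q : L} (hq : InPow x a b k q) : InPow x a b (k + 1) (b * q) := by
  obtain ⟨c, hc, rfl⟩ := hq
  refine ⟨fun i => if i ≤ k then c i else 0, fun i => ?_, ?_⟩
  · show (if i ≤ k then c i else 0) ∈ x
    split_ifs
    · exact hc i
    · exact x.zero_mem
  · rw [Finset.sum_range_succ _ (k + 1), Finset.mul_sum]
    dsimp only
    rw [if_neg (show ¬ k + 1 ≤ k by omega), zero_mul, zero_mul, add_zero]
    refine Finset.sum_congr rfl fun i hi => ?_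
    rw [Finset.mem_range] at hi
    have hi' : i ≤ k := by omega
    rw [if_pos hi']
    have h1 : k + 1 - i = k - i + 1 := by omega
    rw [h1]
    ring

private theorem i2_swap (h : InPow x a b k f) : InPow x b a k f := by
  obtain ⟨c, hc, rfl⟩ := h
  refine ⟨fun i => c (k - i), fun i => hc _, ?_⟩
  rw [← Finset.sum_range_reflect]
  refine Finset.sum_congr rfl fun i hi => ?_
  rw [Finset.mem_range] at hi
  have h1 : k + 1 - 1 - i = k - i := by omega
  have h2 : k - (k - i) = i := by omega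
  rw [h1, h2]
  ring

theorem inPow_succ_iff : InPow x a b (k + 1) f ↔
    ∃ p q, InPow x a b k p ∧ InPow x a b k q ∧ f = a * p + b * q := by
  constructor
  · rintro ⟨c, hc, rfl⟩
    refine ⟨∑ i ∈ Finset.range (k + 1), c (i + 1) * a ^ i * b ^ (k - i), c 0 * a ^ 0 * b ^ (k - 0),
      ⟨fun i => c (i + 1), fun i => hc _, rfl⟩, i2_single (hc 0) (Nat.zero_le _), ?_⟩
    rw [Finset.sum_range_succ' _ (k + 1), Finset.mul_sum]
    congr 1
    · refine Finset.sum_congr rfl fun i _ => ?_
      rw [Nat.add_sub_add_right]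
      ring
    · rw [Nat.sub_zero, Nat.sub_zero]
      ring
  · rintro ⟨p, q, hp, hq, rfl⟩
    exact inPow_add (i2_mulA hp) (i2_mulB hq)

theorem inPow_one_iff : InPow x a b 1 f ↔ InM x a b f := by
  have h := inPow_succ_iff (x := x) (a := a) (b := b) (k := 0) (f := f)
  rw [zero_add] at h
  rw [h]
  constructor
  · rintro ⟨p, q, hp, hq, rfl⟩
    exact ⟨p, inPow_zero_iff.1 hp, q, inPow_zero_iff.1 hq, rfl⟩
  · rintro ⟨p, hp, q, hq, rfl⟩
    exact ⟨p, q, inPow_zero_iff.2 hp, inPow_zero_iff.2 hq, rfl⟩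

theorem inPow_monom (i j : ℕ) : InPow x a b (i + j) (a ^ i * b ^ j) := by
  have h := i2_single (x := x) (a := a) (b := b) (k := i + j) (i := i) x.one_mem (Nat.le_add_right _ _)
  rw [one_mul, Nat.add_sub_cancel_left] at h
  exact h

theorem inPow_swap : InPow x a b k f ↔ InPow x b a k f := ⟨i2_swap, i2_swap⟩

theorem inPow_anti (ha : a ∈ x) (hb : b ∈ x) (hkl : k ≤ l) (hf : InPow x a b l f) :
    InPow x a b k f := by
  induction l, hkl using Nat.le_induction with
  | base => exact hf
  | succ l _ ih =>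
    obtain ⟨p, q, hp, hq, rfl⟩ := inPow_succ_iff.1 hf
    exact ih (inPow_add (inPow_smul ha hp) (inPow_smul hb hq))

theorem inPow_mul (ha : a ∈ x) (hb : b ∈ x) (hf : InPow x a b k f) (hg : InPow x a b l g) :
    InPow x a b (k + l) (f * g) := by
  induction k generalizing f with
  | zero =>
    rw [zero_add]
    exact inPow_smul (inPow_zero_iff.1 hf) hg
  | succ k ih =>
    obtain ⟨p, q, hp, hq, rfl⟩ := inPow_succ_iff.1 hf
    have h1 : k + 1 + l = k + l + 1 := by omega
    rw [h1]
    refine inPow_succ_iff.2 ⟨p * g, q * g, ih hp, ih hq, ?_⟩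
    ring

end Pool.Agent.LibLOC
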