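import Pool.Agent.LibLOC.A1
import Pool.Agent.LibLOC.I2

/-!
[K+.LOC A2] Units of `x`.
`not_inM_one`: field `nonunit`. `inM_*`: algebra. `inv_mem_iff`: (→) `1 = a (p u⁻¹) + b (q u⁻¹)`; (←)
field `unit`. `unit_of_const`: if `c + m = 0` or `(c + m)⁻¹ ∉ x` then `c + m ∈ (a, b)` (field `unit`),
so `c ∈ (a, b)`, `1 = c⁻¹ c ∈ (a, b)`. `exists_const`: field `decomp`. `const_unique`: the difference
`c - c'` lies in `(a, b)`; if `c ≠ c'` then `1 ∈ (a, b)`. `inM_iff_of_rlr`: `InM x a b u ↔ u ∈ x ∧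
(u = 0 ∨ u⁻¹ ∉ x)` by `inv_mem_iff`, which does not depend on the parameters. `inPow_iff_of_rlr`:
induction on `k` (for all `f`) with `inPow_succ_iff`: if `f = a p + b q` with `p, q ∈ (a', b') ^ k`
(IH), `a = a' r + b' s`, `b = a' r' + b' s'`, then `f = a' (r p + r' q) + b' (s p + s' q)`. (Use `h.memA`
etc.: `InM x a b a`.)
-/

set_option autoImplicit false

open Pool.Agent.LibGMM Pool.Agent.LibLB
open Pool.Agent.LibKB (ev ordP Ess VDom Ge)

namespace Pool.Agent.LibLOC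

variable {L : Type} [Field L] [Algebra ℂ L]

variable {x : Subalgebra ℂ L} {a b a' b' : L}

theorem not_inM_one (h : RLR x a b) : ¬ InM x a b 1 := by
  rintro ⟨p, hp, q, hq, h1⟩
  exact h.nonunit p hp q hq h1.symm

theorem inM_zero : InM x a b 0 :=
  ⟨0, x.zero_mem, 0, x.zero_mem, by ring⟩

theorem inM_a : InM x a b a :=
  ⟨1, x.one_mem, 0, x.zero_mem, by ring⟩

theorem inM_b : InM x a b b :=
  ⟨0, x.zero_mem, 1, x.one_mem, by ring⟩

theorem inM_add {u v : L} (hu : InM x a b u) (hv : InM x a b v) : InM x a b (u + v) := by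
  obtain ⟨p, hp, q, hq, h1⟩ := hu
  obtain ⟨p', hp', q', hq', h2⟩ := hv
  exact ⟨p + p', x.add_mem hp hp', q + q', x.add_mem hq hq', by rw [h1, h2]; ring⟩

theorem inM_sub {u v : L} (hu : InM x a b u) (hv : InM x a b v) : InM x a b (u - v) := by
  obtain ⟨p, hp, q, hq, h1⟩ := hu
  obtain ⟨p', hp', q', hq', h2⟩ := hv
  exact ⟨p - p', x.sub_mem hp hp', q - q', x.sub_mem hq hq', by rw [h1, h2]; ring⟩

theorem inM_smul {r u : L} (hr : r ∈ x) (hu : InM x a b u) : InM x a b (r * u) := by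
  obtain ⟨p, hp, q, hq, h1⟩ := hu
  exact ⟨r * p, x.mul_mem hr hp, r * q, x.mul_mem hr hq, by rw [h1]; ring⟩

theorem inM_mem (h : RLR x a b) {u : L} (hu : InM x a b u) : u ∈ x := by
  obtain ⟨p, hp, q, hq, h1⟩ := hu
  rw [h1]
  exact x.add_mem (x.mul_mem h.memA hp) (x.mul_mem h.memB hq)

theorem inv_mem_iff (h : RLR x a b) {u : L} (hu : u ∈ x) (h0 : u ≠ 0) :
    u⁻¹ ∈ x ↔ ¬ InM x a b u := by
  constructor
  · intro h1 h2
    have h3 := inM_smul h1 h2
    rw [inv_mul_cancel₀ h0] at h3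
    exact not_inM_one h h3
  · intro h1
    rcases h.unit u hu with h2 | h2
    · exact h2
    · exact absurd h2 h1

theorem A2_const (h : RLR x a b) {c : ℂ} (hc : c ≠ 0) : ¬ InM x a b (algebraMap ℂ L c) := by
  intro h1
  have h2 := inM_smul (x.algebraMap_mem c⁻¹) h1
  rw [← map_mul, inv_mul_cancel₀ hc, map_one] at h2
  exact not_inM_one h h2

theorem unit_of_const (h : RLR x a b) {c : ℂ} (hc : c ≠ 0) {m : L} (hm : InM x a b m) :
    algebraMap ℂ L c + m ≠ 0 ∧ (algebraMap ℂ L c + m)⁻¹ ∈ x := by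
  have key : ¬ InM x a b (algebraMap ℂ L c + m) := by
    intro h1
    have h2 := inM_sub h1 hm
    rw [add_sub_cancel_right] at h2
    exact A2_const h hc h2
  have hmem : algebraMap ℂ L c + m ∈ x := x.add_mem (x.algebraMap_mem c) (inM_mem h hm)
  have h0 : algebraMap ℂ L c + m ≠ 0 := by
    intro h1
    apply key
    rw [h1]
    exact inM_zero
  exact ⟨h0, (inv_mem_iff h hmem h0).2 key⟩

theorem exists_const (h : RLR x a b) {u : L} (hu : u ∈ x) :
    ∃ c : ℂ, InM x a b (u - algebraMap ℂ L c) := by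
  obtain ⟨c, p, hp, q, hq, h1⟩ := h.decomp u hu
  exact ⟨c, p, hp, q, hq, by rw [h1]; ring⟩

theorem const_unique (h : RLR x a b) {u : L} {c c' : ℂ} (hc : InM x a b (u - algebraMap ℂ L c))
    (hc' : InM x a b (u - algebraMap ℂ L c')) : c = c' := by
  by_contra hne
  have h1 := inM_sub hc' hc
  have h2 : u - algebraMap ℂ L c' - (u - algebraMap ℂ L c) = algebraMap ℂ L (c - c') := by
    rw [map_sub]
    ring
  rw [h2] at h1
  exact A2_const h (sub_ne_zero.2 hne) h1

theorem A2_iff (h : RLR x a b) (u : L) : InM x a b u ↔ u ∈ x ∧ (u = 0 ∨ u⁻¹ ∉ x) := by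
  constructor
  · intro h1
    refine ⟨inM_mem h h1, ?_⟩
    by_cases h0 : u = 0
    · exact Or.inl h0
    · right
      intro h2
      exact (inv_mem_iff h (inM_mem h h1) h0).1 h2 h1
  · rintro ⟨h1, h2⟩
    rcases h2 with h2 | h2
    · rw [h2]
      exact inM_zero
    · by_contra h3
      by_cases h0 : u = 0
      · apply h3
        rw [h0]
        exact inM_zero
      · exact h2 ((inv_mem_iff h h1 h0).2 h3)

theorem inM_iff_of_rlr (h : RLR x a b) (h' : RLR x a' b') (u : L) :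
    InM x a b u ↔ InM x a' b' u := by
  rw [A2_iff h, A2_iff h']

theorem A2_le (h : RLR x a b) (h' : RLR x a' b') (k : ℕ) :
    ∀ f : L, InPow x a b k f → InPow x a' b' k f := by
  induction k with
  | zero =>
    intro f hf
    rw [inPow_zero_iff] at hf ⊢
    exact hf
  | succ k ih =>
    intro f hf
    obtain ⟨p, q, hp, hq, hf'⟩ := inPow_succ_iff.1 hf
    have hp' := ih p hp
    have hq' := ih q hq
    obtain ⟨r, hr, s, hs, ha⟩ := (inM_iff_of_rlr h h' a).1 inM_a
    obtain ⟨r', hr', s', hs', hb⟩ := (inM_iff_of_rlr h h' b).1 inM_b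
    refine inPow_succ_iff.2 ⟨r * p + r' * q, s * p + s' * q,
      inPow_add (inPow_smul hr hp') (inPow_smul hr' hq'),
      inPow_add (inPow_smul hs hp') (inPow_smul hs' hq'), ?_⟩
    rw [hf']
    linear_combination p * ha + q * hb

theorem inPow_iff_of_rlr (h : RLR x a b) (h' : RLR x a' b') (k : ℕ) (f : L) :
    InPow x a b k f ↔ InPow x a' b' k f :=
  ⟨A2_le h h' k f, A2_le h' h k f⟩

end Pool.Agent.LibLOC
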