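import Pool.Agent.LibLOC.I2

/-!
[K+.LOC I3] Comparison with the powers of the ideal `(a, b)` of the ring `x`.
Induction on `k`, `inPow_succ_iff`, `inPow_zero_iff`; `pow_succ`, `Ideal.mul_comm`,
`Ideal.span_insert`, `Ideal.mem_span_singleton_mul`, `Ideal.sup_mul`, `Submodule.mem_sup`: an element
of `span {A, B} * J` is `A * p + B * q` with `p, q ∈ J`.
-/

set_option autoImplicit false

open Pool.Agent.LibGMM Pool.Agent.LibLB
open Pool.Agent.LibKB (ev ordP Ess VDom Ge)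

namespace Pool.Agent.LibLOC

variable {L : Type} [Field L] [Algebra ℂ L]

variable {x : Subalgebra ℂ L} {a b : L} {k : ℕ}

theorem inPow_iff_mem (ha : a ∈ x) (hb : b ∈ x) (f : x) :
    InPow x a b k (f : L) ↔ f ∈ (Ideal.span {(⟨a, ha⟩ : x), ⟨b, hb⟩}) ^ k := by
  induction k generalizing f with
  | zero =>
    rw [inPow_zero_iff, pow_zero, Ideal.one_eq_top]
    exact ⟨fun _ => Submodule.mem_top, fun _ => f.2⟩
  | succ k ih =>
    rw [inPow_succ_iff, pow_succ', Ideal.span_insert, Ideal.sup_mul, Submodule.mem_sup,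
      ← Ideal.span_insert]
    constructor
    · rintro ⟨p, q, hp, hq, h1⟩
      have hp' := inPow_mem ha hb hp
      have hq' := inPow_mem ha hb hq
      refine ⟨⟨a, ha⟩ * ⟨p, hp'⟩, ?_, ⟨b, hb⟩ * ⟨q, hq'⟩, ?_, ?_⟩
      · exact Ideal.mem_span_singleton_mul.2 ⟨⟨p, hp'⟩, (ih ⟨p, hp'⟩).1 hp, rfl⟩
      · exact Ideal.mem_span_singleton_mul.2 ⟨⟨q, hq'⟩, (ih ⟨q, hq'⟩).1 hq, rfl⟩
      · apply Subtype.ext
        exact h1.symm
    · rintro ⟨u, hu, v, hv, h1⟩
      obtain ⟨p, hp, rfl⟩ := Ideal.mem_span_singleton_mul.1 hu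
      obtain ⟨q, hq, rfl⟩ := Ideal.mem_span_singleton_mul.1 hv
      refine ⟨(p : L), (q : L), (ih p).2 hp, (ih q).2 hq, ?_⟩
      rw [← h1]
      rfl

end Pool.Agent.LibLOC
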