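import Pool.Agent.LibLOC.A2
import Pool.Agent.LibLOC.I3

/-!
[K+.LOC A3] `x` is a Noetherian local ring with maximal ideal `(a, b)`.
`noeth`: let `B` be the subalgebra of the field `ess`: `B` is a finitely generated `ℂ`-algebra, so
Noetherian (`Algebra.FiniteType.isNoetherianRing`, `Subalgebra.fg_iff_finiteType`). Every ideal `I` of
`x` is finitely generated: the ideal `J = I ∩ B` of `B` is finitely generated and generates `I`: if
`u ∈ I`, `u = v / w`, `v, w ∈ B`, `w⁻¹ ∈ x`, then `v = w u ∈ J` and `u = w⁻¹ v`. (Or: `x` is the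
localisation of `B` at `{w ∈ B | w ≠ 0, w⁻¹ ∈ x}`, `IsLocalization.isNoetherianRing`.) `isLocal`:
`IsLocalRing.of_nonunits_add` or `of_isUnit_or_isUnit_one_sub_self`: `u` is a unit of `x` iff `u ≠ 0`
and `u⁻¹ ∈ x` iff not `InM x a b u` (`inv_mem_iff`); `maximalIdeal_eq`: same.
-/

set_option autoImplicit false

open Pool.Agent.LibGMM Pool.Agent.LibLB
open Pool.Agent.LibKB (ev ordP Ess VDom Ge)

namespace Pool.Agent.LibLOC

variable {L : Type} [Field L] [Algebra ℂ L]

variable {x : Subalgebra ℂ L} {a b : L}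

theorem noeth (h : RLR x a b) : IsNoetherianRing x := by
  obtain ⟨B, hB, hBx, hfr⟩ := h.ess
  have : Algebra.FiniteType ℂ B := (Subalgebra.fg_iff_finiteType B).1 hB
  have : IsNoetherianRing B := Algebra.FiniteType.isNoetherianRing ℂ B
  rw [isNoetherianRing_iff_ideal_fg]
  intro I
  set φ : B →ₐ[ℂ] x := Subalgebra.inclusion hBx with hφ
  have key : I = Ideal.map φ (Ideal.comap φ I) := by
    apply le_antisymm
    · intro u hu
      obtain ⟨v, hv, w, hw, hw0, hwx, huv⟩ := hfr (u : L) u.2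
      have h1 : φ ⟨v, hv⟩ = φ ⟨w, hw⟩ * u := by
        apply Subtype.ext
        change v = w * (u : L)
        rw [huv]
        field_simp
      have h2 : φ ⟨v, hv⟩ ∈ Ideal.map φ (Ideal.comap φ I) := by
        apply Ideal.mem_map_of_mem
        rw [Ideal.mem_comap, h1]
        exact I.mul_mem_left _ hu
      have h3 : u = (⟨w⁻¹, hwx⟩ : x) * φ ⟨v, hv⟩ := by
        apply Subtype.ext
        change (u : L) = w⁻¹ * v
        rw [huv]
        field_simp
      rw [h3]
      exact Ideal.mul_mem_left _ _ h2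
    · exact Ideal.map_comap_le
  rw [key]
  exact Ideal.FG.map (IsNoetherian.noetherian _) _

theorem isUnit_iff (h : RLR x a b) (u : x) : IsUnit u ↔ ¬ InM x a b (u : L) := by
  constructor
  · rintro hu hM
    obtain ⟨v, hv⟩ := hu.exists_right_inv
    have h1 := congrArg (fun z : x => (z : L)) hv
    have h2 : (u : L) * (v : L) = 1 := h1
    have h3 := inM_smul v.2 hM
    rw [mul_comm, h2] at h3
    exact not_inM_one h h3
  · intro hM
    have h0 : (u : L) ≠ 0 := by
      intro h0
      apply hM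
      rw [h0]
      exact inM_zero
    have h1 := (inv_mem_iff h u.2 h0).2 hM
    refine IsUnit.of_mul_eq_one (⟨(u : L)⁻¹, h1⟩ : x) ?_
    apply Subtype.ext
    change (u : L) * (u : L)⁻¹ = 1
    exact mul_inv_cancel₀ h0

theorem isLocal (h : RLR x a b) : IsLocalRing x := by
  refine IsLocalRing.of_nonunits_add ?_
  intro u v hu hv
  rw [mem_nonunits_iff, isUnit_iff h, not_not] at hu hv ⊢
  exact inM_add hu hv

theorem maximalIdeal_eq (h : RLR x a b) [IsLocalRing x] :
    IsLocalRing.maximalIdeal x = Ideal.span {(⟨a, h.memA⟩ : x), ⟨b, h.memB⟩} := by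
  ext u
  rw [IsLocalRing.mem_maximalIdeal, mem_nonunits_iff, isUnit_iff h, not_not, Ideal.mem_span_pair]
  constructor
  · rintro ⟨p, hp, q, hq, h1⟩
    refine ⟨⟨p, hp⟩, ⟨q, hq⟩, ?_⟩
    apply Subtype.ext
    change p * a + q * b = (u : L)
    rw [h1]
    ring
  · rintro ⟨p, q, h1⟩
    refine ⟨p, p.2, q, q.2, ?_⟩
    rw [← h1]
    change (p : L) * a + (q : L) * b = a * p + b * q
    ring

end Pool.Agent.LibLOC
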