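import Pool.Agent.LibLOC.A3

/-!
[K+.LOC A4] Krull's intersection theorem.
`krull_mod`: in the Noetherian local ring `R = x` let `J = (d)`. If `d` is a unit take `r = f d⁻¹`.
Otherwise `R ⧸ J` is a Noetherian local ring (or: module over `R`), and the image of `f` lies in
`⨅ k, (𝔪 (R ⧸ J)) ^ k = ⊥` (`Ideal.iInf_pow_eq_bot_of_isLocalRing`,
or `Ideal.iInf_pow_smul_eq_bot_of_isLocalRing` for the `R`-module `R ⧸ J`, which does not need `d` to
be a nonunit): `f = d r + g`, `g ∈ 𝔪 ^ k` for every `k` (`inPow_iff_mem`, `maximalIdeal_eq`). `krull`: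
the case `d = 0`. `exists_maxpow`: `Nat.find`, `krull`, `inPow_zero_iff`, `inPow_anti`.
-/

set_option autoImplicit false

open Pool.Agent.LibGMM Pool.Agent.LibLB
open Pool.Agent.LibKB (ev ordP Ess VDom Ge)

namespace Pool.Agent.LibLOC

variable {L : Type} [Field L] [Algebra ℂ L]

variable {x : Subalgebra ℂ L} {a b : L}

theorem krull_mod (h : RLR x a b) {d f : L} (hd : d ∈ x) (hf : f ∈ x)
    (hall : ∀ k : ℕ, ∃ r ∈ x, InPow x a b k (f - d * r)) : ∃ r ∈ x, f = d * r := by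
  have := noeth h
  have := isLocal h
  set J : Ideal x := Ideal.span {(⟨d, hd⟩ : x)} with hJ
  have hne : IsLocalRing.maximalIdeal x ≠ ⊤ := Ideal.IsPrime.ne_top inferInstance
  have hbot := Ideal.iInf_pow_smul_eq_bot_of_isLocalRing (R := x) (M := x ⧸ J)
    (IsLocalRing.maximalIdeal x) hne
  have hmem : (Ideal.Quotient.mk J (⟨f, hf⟩ : x)) ∈
      (⨅ i : ℕ, (IsLocalRing.maximalIdeal x) ^ i • ⊤ : Submodule x (x ⧸ J)) := by
    rw [Submodule.mem_iInf]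
    intro k
    obtain ⟨r, hr, hk⟩ := hall k
    have h1 : ((⟨f, hf⟩ - ⟨d, hd⟩ * ⟨r, hr⟩ : x) : L) = f - d * r := rfl
    rw [← h1, inPow_iff_mem h.memA h.memB, ← maximalIdeal_eq h] at hk
    have h2 : Ideal.Quotient.mk J (⟨f, hf⟩ : x) =
        (⟨f, hf⟩ - ⟨d, hd⟩ * ⟨r, hr⟩ : x) • (Ideal.Quotient.mk J (1 : x)) := by
      have h5 : (⟨f, hf⟩ - ⟨d, hd⟩ * ⟨r, hr⟩ : x) • (Ideal.Quotient.mk J (1 : x)) =
          Ideal.Quotient.mk J ((⟨f, hf⟩ - ⟨d, hd⟩ * ⟨r, hr⟩ : x) * 1) := rfl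
      rw [h5, mul_one, Ideal.Quotient.eq]
      have h3 : (⟨f, hf⟩ : x) - (⟨f, hf⟩ - ⟨d, hd⟩ * ⟨r, hr⟩) = ⟨r, hr⟩ * ⟨d, hd⟩ := by ring
      rw [h3]
      exact Ideal.mul_mem_left _ _ (Ideal.subset_span rfl)
    rw [h2]
    exact Submodule.smul_mem_smul hk Submodule.mem_top
  rw [hbot, Submodule.mem_bot, Ideal.Quotient.eq_zero_iff_mem, hJ, Ideal.mem_span_singleton'] at hmem
  obtain ⟨r, hr⟩ := hmem
  refine ⟨(r : L), r.2, ?_⟩
  have h4 := congrArg (Subtype.val : x → L) hr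
  simp only [MulMemClass.coe_mul] at h4
  rw [← h4, mul_comm]

theorem krull (h : RLR x a b) {f : L} (hf : f ∈ x) (hall : ∀ k : ℕ, InPow x a b k f) : f = 0 := by
  obtain ⟨r, _, hr⟩ := krull_mod h (d := 0) (zero_mem x) hf fun k => ⟨0, zero_mem x, by simpa using hall k⟩
  rw [hr, zero_mul]

theorem exists_maxpow (h : RLR x a b) {f : L} (hf : f ∈ x) (h0 : f ≠ 0) :
    ∃ k, InPow x a b k f ∧ ¬ InPow x a b (k + 1) f := by
  by_contra hcon
  push Not at hcon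
  refine h0 (krull h hf fun k => ?_)
  induction k with
  | zero => exact inPow_zero_iff.2 hf
  | succ k ih => exact hcon k ih

end Pool.Agent.LibLOC
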