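import Pool.Agent.LibLOC.Defs
import Pool.Agent.LibKB1a.F1a

/-!
[K+.LOC D1] `da, db` is a basis of the Kähler differentials.
`hinj`: `![a, b]` is algebraically independent. By `htr` it is a transcendence basis of `L / ℂ`
(`AlgebraicIndependent.isTranscendenceBasis_of_...` finite transcendence degree, or
`IsTranscendenceBasis` API: an algebraically independent family of cardinality `trdeg < ℵ₀` is a
transcendence basis), so `L` is algebraic over `ℂ(a, b)`. Put on `L` the structure of an algebra over
`Pol = MvPolynomial (Fin 2) ℂ` (`ev a b`) and over `K₀ = FractionRing Pol`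
(`IsFractionRing.lift`, `FractionRing.liftAlgebra`), scalar towers. `K₀ → L` is algebraic, separable
(characteristic 0), so `Algebra.FormallyEtale K₀ L` (`Algebra.FormallyEtale.of_isSeparable`);
`Algebra.FormallyEtale Pol K₀` (`of_isLocalization`); so `Algebra.FormallyEtale Pol L` (`comp`). The
rest is the proof of `LibKB1a/F1a.lean` `exists_basis_kaehler` word for word
(`KaehlerDifferential.tensorKaehlerEquivOfFormallyEtale`, `mvPolynomialBasis`).
-/

set_option autoImplicit false

open Pool.Agent.LibGMM Pool.Agent.LibLB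
open Pool.Agent.LibKB (ev ordP Ess VDom Ge)

open scoped TensorProduct KaehlerDifferential

namespace Pool.Agent.LibLOC

variable {L : Type} [Field L] [Algebra ℂ L]

/-- The field `ℂ(a, b)`. -/
noncomputable def D1_K (a b : L) : IntermediateField ℂ L := IntermediateField.adjoin ℂ {a, b}

/-- `a` in `ℂ(a, b)`. -/
noncomputable def D1_a (a b : L) : D1_K a b :=
  ⟨a, IntermediateField.subset_adjoin _ _ (Or.inl rfl)⟩

/-- `b` in `ℂ(a, b)`. -/
noncomputable def D1_b (a b : L) : D1_K a b :=
  ⟨b, IntermediateField.subset_adjoin _ _ (Or.inr rfl)⟩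

theorem D1_isPlane {a b : L} (hind : AlgebraicIndependent ℂ ![a, b]) :
    Pool.Agent.LibK.IsPlane (D1_a a b) (D1_b a b) := by
  constructor
  · have h1 : AlgebraicIndependent ℂ ((D1_K a b).val ∘ ![D1_a a b, D1_b a b]) := by
      have h2 : (D1_K a b).val ∘ ![D1_a a b, D1_b a b] = ![a, b] := by
        funext l
        fin_cases l <;> rfl
      rw [h2]
      exact hind
    exact h1.of_comp _
  · rw [eq_top_iff]
    rintro z -
    have h1 : (IntermediateField.adjoin ℂ {D1_a a b, D1_b a b}).map (D1_K a b).val =
        D1_K a b := by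
      rw [IntermediateField.adjoin_map]
      have h2 : ((D1_K a b).val : D1_K a b → L) '' {D1_a a b, D1_b a b} = {a, b} := by
        rw [Set.image_pair]
        rfl
      rw [h2]
      rfl
    have h2 : (z : L) ∈ (IntermediateField.adjoin ℂ {D1_a a b, D1_b a b}).map
        (D1_K a b).val := by
      rw [h1]
      exact z.2
    obtain ⟨w, hw, hwz⟩ := h2
    have h3 : w = z := Subtype.ext hwz
    rw [← h3]
    exact hw

theorem D1_algebraic {a b : L} (htr : Algebra.trdeg ℂ L = 2)
    (hind : AlgebraicIndependent ℂ ![a, b]) : Algebra.IsAlgebraic (D1_K a b) L := by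
  have h1 : IsTranscendenceBasis ℂ ![a, b] :=
    hind.isTranscendenceBasis_of_trdeg_le_of_finite (by rw [htr, Cardinal.mk_fin]; norm_num)
  have h2 := h1.isAlgebraic_field
  have h3 : Set.range ![a, b] = {a, b} := by
    rw [Matrix.range_cons, Matrix.range_cons, Matrix.range_empty, Set.union_empty]
    rfl
  rw [h3] at h2
  exact h2

theorem exists_basis_kaehler' {a b : L} (htr : Algebra.trdeg ℂ L = 2)
    (hinj : ∀ f : MvPolynomial (Fin 2) ℂ, ev a b f = 0 → f = 0) :
    ∃ B : Module.Basis (Fin 2) L (Ω[L⁄ℂ]), ∀ i, B i = KaehlerDifferential.D ℂ L (![a, b] i) := by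
  have hind : AlgebraicIndependent ℂ ![a, b] := by
    rw [AlgebraicIndependent, injective_iff_map_eq_zero]
    intro f hf
    exact hinj f hf
  obtain ⟨B, hB⟩ := Pool.Agent.LibKB1a.exists_basis_kaehler (D1_isPlane hind)
  have h1 := D1_algebraic htr hind
  have h2 : Algebra.FormallyEtale (D1_K a b) L := Algebra.FormallyEtale.of_isSeparable _ _
  refine ⟨(B.baseChange L).map
    (KaehlerDifferential.tensorKaehlerEquivOfFormallyEtale ℂ (D1_K a b) L), fun i => ?_⟩
  rw [Module.Basis.map_apply, Module.Basis.baseChange_apply, hB,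
    KaehlerDifferential.tensorKaehlerEquivOfFormallyEtale_apply,
    KaehlerDifferential.mapBaseChange_tmul, one_smul, KaehlerDifferential.map_D]
  congr 1
  fin_cases i <;> rfl

end Pool.Agent.LibLOC
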