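import Pool.Agent.LibLOC.J1
import Pool.Agent.LibLOC.A4

/-!
[K+.LOC D3] Derivations with `D a, D b ∈ x` preserve `x`.
Step 1 (`der_den`): there is `w ∈ x`, `w ≠ 0` with `w * D u ∈ x` for all `u ∈ x`. `B = adjoin ℂ S`, `S` a
finite set (field `ess`): each `D s = p_s / q_s` (`h.frac`), `w = ∏ q_s`; `w D(B) ⊆ x` by
`Algebra.adjoin_induction` (Leibniz); for `u = v / w'` with `v, w' ∈ B`, `w'⁻¹ ∈ x`:
`D u = w'⁻¹ D v - v w'⁻² D w'`. Step 2: `D (ev a b P) ∈ x` for polynomials `P`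
(`MvPolynomial.induction_on`). Step 3: if `r ∈ (a, b) ^ (k + 1)` then `w * D r ∈ (a, b) ^ k`:
`r = ∑ c i a ^ i b ^ (k + 1 - i)`,
`w D (c i a ^ i b ^ j) = (w D (c i)) a ^ i b ^ j + w c i D (a ^ i b ^ j)`, and `D (a ^ i b ^ j)`
(`i + j = k + 1`) is in `(a, b) ^ k` (or: induction on `k` with `inPow_succ_iff`:
`r = a p + b q`, `w D r = (w D a) p + a (w D p) + ...`). Step 4: for `z ∈ x` and every `k`:
`z = ev a b P + r`, `r ∈ (a, b) ^ (k + 1)` (`exists_jetpoly`), so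
`w D z - w * D (ev a b P) = w D r ∈ (a, b) ^ k`; by `krull_mod` with `d = w`, `f = w D z`:
`w D z = w r'`, `r' ∈ x`, `D z = r' ∈ x`.
`der_ring`: `u = p / q`, `p, q ∈ x`, `ν.ord q = 0` (`ν ∈ Ess x`): `D u = (q D p - p D q) / q ^ 2`.
-/

set_option autoImplicit false

open Pool.Agent.LibGMM Pool.Agent.LibLB
open Pool.Agent.LibKB (ev ordP Ess VDom Ge)

namespace Pool.Agent.LibLOC

variable {L : Type} [Field L] [Algebra ℂ L]

variable {x : Subalgebra ℂ L} {a b : L}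

theorem D3_inv (D : Derivation ℂ L L) {w : L} (hw : w ≠ 0) : D w⁻¹ = -(w⁻¹ * w⁻¹ * D w) := by
  have h1 := D.leibniz w w⁻¹
  rw [mul_inv_cancel₀ hw, D.map_one_eq_zero, smul_eq_mul, smul_eq_mul] at h1
  have h2 : w * D w⁻¹ = -(w⁻¹ * D w) := by linear_combination -h1
  have h3 : D w⁻¹ = w⁻¹ * (w * D w⁻¹) := by
    rw [← mul_assoc, inv_mul_cancel₀ hw, one_mul]
  rw [h3, h2]
  ring

/-- `x` has bounded denominators for `D`. -/
theorem D3_den (h : RLR x a b) (D : Derivation ℂ L L) :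
    ∃ w ∈ x, w ≠ 0 ∧ ∀ u ∈ x, w * D u ∈ x := by
  classical
  obtain ⟨B, ⟨S, hS⟩, hBx, hB⟩ := h.ess
  choose p hp q hq hq0 hpq using fun s : L => h.frac (D s)
  refine ⟨∏ s ∈ S, q s, Subalgebra.prod_mem _ fun s _ => hq s,
    Finset.prod_ne_zero_iff.2 fun s _ => hq0 s, ?_⟩
  have h1 : ∀ s ∈ S, (∏ s ∈ S, q s) * D s ∈ x := by
    intro s hs
    rw [← Finset.mul_prod_erase S q hs, hpq s]
    have h2 : q s * (∏ t ∈ S.erase s, q t) * (p s / q s) = p s * ∏ t ∈ S.erase s, q t := by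
      have := hq0 s
      field_simp
    rw [h2]
    exact x.mul_mem (hp s) (Subalgebra.prod_mem _ fun t _ => hq t)
  have h2 : ∀ u ∈ B, u ∈ B ∧ (∏ s ∈ S, q s) * D u ∈ x := by
    intro u hu
    rw [← hS] at hu
    induction hu using Algebra.adjoin_induction with
    | mem s hs => exact ⟨by rw [← hS]; exact Algebra.subset_adjoin hs, h1 s hs⟩
    | algebraMap c =>
      refine ⟨B.algebraMap_mem c, ?_⟩
      rw [D.map_algebraMap, mul_zero]
      exact x.zero_mem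
    | add s t _ _ h1 h2 =>
      refine ⟨B.add_mem h1.1 h2.1, ?_⟩
      rw [map_add, mul_add]
      exact x.add_mem h1.2 h2.2
    | mul s t _ _ h1 h2 =>
      refine ⟨B.mul_mem h1.1 h2.1, ?_⟩
      rw [D.leibniz, smul_eq_mul, smul_eq_mul]
      have h3 : (∏ s ∈ S, q s) * (s * D t + t * D s) =
          s * ((∏ s ∈ S, q s) * D t) + t * ((∏ s ∈ S, q s) * D s) := by ring
      rw [h3]
      exact x.add_mem (x.mul_mem (hBx h1.1) h2.2) (x.mul_mem (hBx h2.1) h1.2)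
  intro u hu
  obtain ⟨v, hv, w, hw, hw0, hwi, rfl⟩ := hB u hu
  rw [div_eq_mul_inv, D.leibniz, smul_eq_mul, smul_eq_mul, D3_inv D hw0]
  have h3 : (∏ s ∈ S, q s) * (v * -(w⁻¹ * w⁻¹ * D w) + w⁻¹ * D v) =
      w⁻¹ * ((∏ s ∈ S, q s) * D v) - v * w⁻¹ * w⁻¹ * ((∏ s ∈ S, q s) * D w) := by ring
  rw [h3]
  exact x.sub_mem (x.mul_mem hwi (h2 v hv).2)
    (x.mul_mem (x.mul_mem (x.mul_mem (hBx hv) hwi) hwi) (h2 w hw).2)

theorem D3_ev (h : RLR x a b) (D : Derivation ℂ L L) (ha : D a ∈ x) (hb : D b ∈ x)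
    (P : MvPolynomial (Fin 2) ℂ) : D (ev a b P) ∈ x := by
  induction P using MvPolynomial.induction_on with
  | C c =>
    have h1 : ev a b (MvPolynomial.C c) = algebraMap ℂ L c := by
      rw [← MvPolynomial.algebraMap_eq]
      exact AlgHom.commutes _ _
    rw [h1, D.map_algebraMap]
    exact x.zero_mem
  | add P Q hP hQ =>
    rw [map_add, map_add]
    exact x.add_mem hP hQ
  | mul_X P i hP =>
    rw [map_mul, D.leibniz, smul_eq_mul, smul_eq_mul]
    have h1 : D (ev a b (MvPolynomial.X i)) ∈ x := by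
      rw [MvPolynomial.aeval_X]
      fin_cases i
      · exact ha
      · exact hb
    exact x.add_mem (x.mul_mem (ev_mem h P) h1) (x.mul_mem (ev_mem h _) hP)

theorem D3_pow (h : RLR x a b) (D : Derivation ℂ L L) {w : L} (hw : ∀ u ∈ x, w * D u ∈ x)
    (k : ℕ) : ∀ r, InPow x a b (k + 1) r → InPow x a b k (w * D r) := by
  induction k with
  | zero =>
    intro r hr
    rw [inPow_zero_iff]
    exact hw r (inPow_mem h.memA h.memB hr)
  | succ k ih =>
    intro r hr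
    obtain ⟨p, q, hp, hq, rfl⟩ := inPow_succ_iff.1 hr
    have h1 : w * D (a * p + b * q) =
        (a * (w * D p) + b * (w * D q)) + ((w * D a) * p + (w * D b) * q) := by
      rw [map_add, D.leibniz, D.leibniz, smul_eq_mul, smul_eq_mul, smul_eq_mul, smul_eq_mul]
      ring
    rw [h1]
    refine inPow_add (inPow_succ_iff.2 ⟨_, _, ih p hp, ih q hq, rfl⟩) (inPow_add ?_ ?_)
    · exact inPow_smul (hw a h.memA) hp
    · exact inPow_smul (hw b h.memB) hq

theorem der_mem (h : RLR x a b) (D : Derivation ℂ L L) (ha : D a ∈ x) (hb : D b ∈ x) :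
    ∀ z ∈ x, D z ∈ x := by
  obtain ⟨w, hwx, hw0, hw⟩ := D3_den h D
  intro z hz
  obtain ⟨r, hr, hr'⟩ := krull_mod h hwx (hw z hz) fun k => by
    obtain ⟨P, -, hP⟩ := exists_jetpoly h (k + 1) hz
    refine ⟨D (ev a b P), D3_ev h D ha hb P, ?_⟩
    have h1 : w * D z - w * D (ev a b P) = w * D (z - ev a b P) := by
      rw [map_sub, mul_sub]
    rw [h1]
    exact D3_pow h D hw k _ hP
  rw [mul_left_cancel₀ hw0 hr']
  exact hr

theorem der_ring (h : RLR x a b) (D : Derivation ℂ L L) (ha : D a ∈ x) (hb : D b ∈ x) {ν : DVal L}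
    (hν : ν ∈ Ess x) {u : L} (hu : 0 ≤ ν.ord u) : 0 ≤ ν.ord (D u) := by
  obtain ⟨p, hp, q, hq, hq0, hqo, rfl⟩ := hν.2 u hu
  have h1 : D (p / q) = (q * D p - p * D q) / q ^ 2 := by
    rw [div_eq_mul_inv, D.leibniz, smul_eq_mul, smul_eq_mul, D3_inv D hq0]
    field_simp
    ring
  have h2 : q * D p - p * D q ∈ x :=
    x.sub_mem (x.mul_mem hq (der_mem h D ha hb p hp)) (x.mul_mem hp (der_mem h D ha hb q hq))
  have h3 : 0 ≤ ν.ord (q * D p - p * D q) := hν.1 h2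
  rw [h1]
  by_cases h0 : q * D p - p * D q = 0
  · rw [h0, zero_div, ν.ord_zero]
  · rw [ν.ord_div h0 (pow_ne_zero 2 hq0), ν.ord_pow, hqo]
    simpa using h3

end Pool.Agent.LibLOC
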