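import Pool.Agent.LibLOC.I2

/-!
[K+.LOC F1] Forms. `form a b k F = ∑_{i ≤ k} Fᵢ aⁱ b ^ (k - i)`.
`form_eq`: `Polynomial.aeval_eq_sum_range'` (for `natDegree F < k + 1`),
`b ^ k (a / b) ^ i = a ^ i b ^ (k - i)` for `i ≤ k`. `form_mul`: by `form_eq` (`natDegree_mul_le`).
`inPow_form`: coefficients `algebraMap (F.coeff i) ∈ x`. `form_X_mul`: `X * F` (`form_eq` or reindex):
`form a b (k + 1) (X * F) = a * form a b k F`.
-/

set_option autoImplicit false

open Pool.Agent.LibGMM Pool.Agent.LibLB
open Pool.Agent.LibKB (ev ordP Ess VDom Ge)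

namespace Pool.Agent.LibLOC

variable {L : Type} [Field L] [Algebra ℂ L]

variable {x : Subalgebra ℂ L} {a b : L} {k l : ℕ} {F G : Polynomial ℂ}

theorem form_eq (hb : b ≠ 0) (hF : F.natDegree ≤ k) :
    form a b k F = b ^ k * Polynomial.aeval (a / b) F := by
  unfold form
  have h1 : Polynomial.aeval (a / b) F
      = ∑ i ∈ Finset.range (k + 1), algebraMap ℂ L (F.coeff i) * (a / b) ^ i := by
    rw [Polynomial.aeval_eq_sum_range' (Nat.lt_succ_of_le hF)]
    exact Finset.sum_congr rfl fun i _ => by rw [Algebra.smul_def]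
  rw [h1, Finset.mul_sum]
  refine Finset.sum_congr rfl fun i hi => ?_
  have hi' : i ≤ k := Nat.lt_succ_iff.mp (Finset.mem_range.mp hi)
  have h2 : b ^ k = b ^ i * b ^ (k - i) := by rw [← pow_add, Nat.add_sub_cancel' hi']
  have h3 : b ^ i ≠ 0 := pow_ne_zero _ hb
  rw [h2, div_pow]
  field_simp

theorem form_mul (hb : b ≠ 0) (hF : F.natDegree ≤ k) (hG : G.natDegree ≤ l) :
    form a b (k + l) (F * G) = form a b k F * form a b l G := by
  rw [form_eq hb hF, form_eq hb hG,
    form_eq hb (Polynomial.natDegree_mul_le.trans (Nat.add_le_add hF hG)), map_mul, pow_add]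
  ring

theorem form_add : form a b k (F + G) = form a b k F + form a b k G := by
  unfold form
  rw [← Finset.sum_add_distrib]
  exact Finset.sum_congr rfl fun i _ => by rw [Polynomial.coeff_add, map_add]; ring

theorem form_sub : form a b k (F - G) = form a b k F - form a b k G := by
  unfold form
  rw [← Finset.sum_sub_distrib]
  exact Finset.sum_congr rfl fun i _ => by rw [Polynomial.coeff_sub, map_sub]; ring

theorem inPow_form : InPow x a b k (form a b k F) := by
  exact ⟨fun i => algebraMap ℂ L (F.coeff i), fun i => x.algebraMap_mem _, rfl⟩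

end Pool.Agent.LibLOC
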