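import Pool.Agent.LibLOC.A2

/-!
[K+.LOC Q1] Quasi-regularity of the parameters.
`quasi_zero` by induction on `k` (for all `c`). `k = 0`: `c 0 = 0`. Step: `c 0 b ^ (k + 1) =
- a (∑_{i ≤ k} c (i + 1) a ^ i b ^ (k - i))` (`Finset.sum_range_succ'`). So `c 0 b ^ (k + 1) ∈ a x`; by
`reg`, `k + 1` times (lemma: `u ∈ x`, `u * b ^ n = a * p`, `p ∈ x` ⟹ `∃ r ∈ x, u = a * r`, by induction
on `n`): `c 0 = a e`, `e ∈ x`. Cancel `a`: `e b ^ (k + 1) + ∑_{i ≤ k} c (i + 1) a ^ i b ^ (k - i) = 0`,
that is the sum of degree `k` with coefficients `c 1 + e b, c 2, ..., c (k + 1)` is `0`. IH: they lie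
in `(a, b)`; so `c 1 ∈ (a, b)` as well, and `c 0 = a e ∈ (a, b)`.
`quasi`: write the sum as `∑_{i ≤ k + 1} d i a ^ i b ^ (k + 1 - i)`; the term `i = 0` is
`(d 0 b) b ^ k`, the term `i + 1` is `(d (i + 1) a) a ^ i b ^ (k - i)`: so
`∑_{i ≤ k} (c i - e i) a ^ i b ^ (k - i) = 0` with `e i ∈ (a, b)`; apply `quasi_zero`.
-/

set_option autoImplicit false

open Pool.Agent.LibGMM Pool.Agent.LibLB
open Pool.Agent.LibKB (ev ordP Ess VDom Ge)

namespace Pool.Agent.LibLOC

variable {L : Type} [Field L] [Algebra ℂ L]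

variable {x : Subalgebra ℂ L} {a b : L}

private theorem Q1_cancel (h : RLR x a b) (n : ℕ) : ∀ {u p : L}, u ∈ x → p ∈ x → u * b ^ n = a * p →
    ∃ r ∈ x, u = a * r := by
  induction n with
  | zero =>
    intro u p hu hp he
    exact ⟨p, hp, by rw [← he, pow_zero, mul_one]⟩
  | succ n ih =>
    intro u p hu hp he
    have h1 : a * p = b * (u * b ^ n) := by
      rw [← he, pow_succ]
      ring
    obtain ⟨r, hr, hr'⟩ := h.reg p hp (u * b ^ n) (mul_mem hu (pow_mem h.memB n)) h1
    exact ih hu hr hr'

theorem quasi_zero (h : RLR x a b) (k : ℕ) (c : ℕ → L) (hc : ∀ i, c i ∈ x)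
    (h0 : ∑ i ∈ Finset.range (k + 1), c i * a ^ i * b ^ (k - i) = 0) :
    ∀ i ≤ k, InM x a b (c i) := by
  induction k generalizing c with
  | zero =>
    intro i hi
    obtain rfl : i = 0 := by omega
    have h1 : c 0 = 0 := by simpa using h0
    rw [h1]
    exact inM_zero
  | succ k ih =>
    rw [Finset.sum_range_succ'] at h0
    simp only [pow_zero, mul_one, Nat.sub_zero, Nat.reduceSubDiff] at h0
    set T := ∑ i ∈ Finset.range (k + 1), c (i + 1) * a ^ i * b ^ (k - i) with hT
    have hsum : ∑ i ∈ Finset.range (k + 1), c (i + 1) * a ^ (i + 1) * b ^ (k - i) = a * T := by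
      rw [hT, Finset.mul_sum]
      refine Finset.sum_congr rfl fun i _ => ?_
      rw [pow_succ]
      ring
    have hTx : T ∈ x := sum_mem fun i _ =>
      mul_mem (mul_mem (hc _) (pow_mem h.memA _)) (pow_mem h.memB _)
    rw [hsum] at h0
    have h1 : c 0 * b ^ (k + 1) = a * (-T) := by
      have : c 0 * b ^ (k + 1) = -(a * T) := by
        rw [eq_neg_iff_add_eq_zero, add_comm]
        exact h0
      rw [this]
      ring
    obtain ⟨e, he, he'⟩ := Q1_cancel h (k + 1) (hc 0) (neg_mem hTx) h1
    have h2 : e * b ^ (k + 1) + T = 0 := by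
      have h3 : a * (e * b ^ (k + 1) + T) = 0 := by
        rw [he'] at h0
        rw [← h0]
        ring
      exact (mul_eq_zero.1 h3).resolve_left h.a_ne
    have hbe : InM x a b (e * b) := inM_smul he inM_b
    have h3 : ∀ i ≤ k, InM x a b ((fun i => if i = 0 then c 1 + e * b else c (i + 1)) i) := by
      refine ih _ ?_ ?_
      · intro i
        by_cases hi : i = 0
        · simp only [hi, if_true]
          exact add_mem (hc 1) (mul_mem he h.memB)
        · simp only [if_neg hi]
          exact hc _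
      · rw [Finset.sum_range_succ']
        rw [hT, Finset.sum_range_succ'] at h2
        simp only [pow_zero, mul_one, Nat.sub_zero, if_true, zero_add, Nat.add_eq_zero_iff, one_ne_zero,
          and_false, if_false] at h2 ⊢
        rw [← h2]
        rw [pow_succ]
        ring
    intro i hi
    rcases i with _ | _ | i
    · rw [he', mul_comm]
      exact inM_smul he inM_a
    · have h4 := h3 0 (Nat.zero_le _)
      simp only [if_true] at h4
      have h5 := inM_sub h4 hbe
      rwa [add_sub_cancel_right] at h5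
    · have h4 := h3 (i + 1) (by omega)
      simpa using h4

theorem quasi (h : RLR x a b) (k : ℕ) (c : ℕ → L) (hc : ∀ i, c i ∈ x)
    (h0 : InPow x a b (k + 1) (∑ i ∈ Finset.range (k + 1), c i * a ^ i * b ^ (k - i))) :
    ∀ i ≤ k, InM x a b (c i) := by
  obtain ⟨d, hd, hS⟩ := h0
  have hem : ∀ i, InM x a b ((fun i => d (i + 1) * a + if i = 0 then d 0 * b else 0) i) := by
    intro i
    refine inM_add (inM_smul (hd _) inM_a) ?_
    by_cases hi : i = 0
    · rw [if_pos hi]
      exact inM_smul (hd 0) inM_b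
    · rw [if_neg hi]
      exact inM_zero
  have hkey : ∑ i ∈ Finset.range (k + 1), c i * a ^ i * b ^ (k - i) =
      ∑ i ∈ Finset.range (k + 1), (d (i + 1) * a + if i = 0 then d 0 * b else 0) * a ^ i * b ^ (k - i) := by
    rw [hS, Finset.sum_range_succ']
    simp only [add_mul, Finset.sum_add_distrib]
    congr 1
    · refine Finset.sum_congr rfl fun i _ => ?_
      rw [show k + 1 - (i + 1) = k - i by omega, pow_succ]
      ring
    · rw [Finset.sum_range_succ']
      simp only [Nat.add_eq_zero_iff, one_ne_zero, and_false, if_false, zero_mul, Finset.sum_const_zero,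
        zero_add, if_true, pow_zero, mul_one, Nat.sub_zero]
      rw [pow_succ]
      ring
  have h1 := quasi_zero h k (fun i => c i - (d (i + 1) * a + if i = 0 then d 0 * b else 0))
    (fun i => sub_mem (hc i) (inM_mem h (hem i))) (by
      simp only [sub_mul, Finset.sum_sub_distrib]
      rw [hkey]
      simp only [sub_self])
  intro i hi
  have h2 := inM_add (h1 i hi) (hem i)
  simpa using h2

end Pool.Agent.LibLOC
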