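import Pool.Agent.LibLOC.F1
import Pool.Agent.LibLOC.Q1

/-!
[K+.LOC F2] Leading forms.
`exists_lead`: `f = ∑_{i ≤ k} c i a ^ i b ^ (k - i)`, `c i = γ i + m i` with `γ i ∈ ℂ`,
`m i ∈ (a, b)` (`exists_const`); `F = ∑_{i ≤ k} C (γ i) X ^ i` (`natDegree ≤ k`, coefficients:
`Polynomial.finset_sum_coeff`); `f - form a b k F = ∑ m i a ^ i b ^ (k - i) ∈ (a, b) ^ (k + 1)`
(`inPow_sum`, `inPow_mul`, `inPow_monom`, `inPow_one_iff`). `form_eq_zero`: `quasi` with
`c i = F.coeff i`: for `i ≤ k` the constant `F.coeff i` lies in `(a, b)`, so it is `0`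
(`const_unique`/`not_inM_one`); `natDegree F ≤ k`, so `F = 0`. `not_inPow_mul`: `f = form F + f'`,
`g = form G + g'`, `f' ∈ (a, b) ^ (k + 1)`, `g' ∈ (a, b) ^ (l + 1)`; `F, G ≠ 0` (else `f = f'`); if
`f g ∈ (a, b) ^ (k + l + 1)` then `form (F G) = form F form G` is in it too, so `F G = 0`.
-/

set_option autoImplicit false

open Pool.Agent.LibGMM Pool.Agent.LibLB
open Pool.Agent.LibKB (ev ordP Ess VDom Ge)

namespace Pool.Agent.LibLOC

variable {L : Type} [Field L] [Algebra ℂ L]

variable {x : Subalgebra ℂ L} {a b : L} {k l : ℕ} {f g : L}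

theorem exists_lead (h : RLR x a b) (hf : InPow x a b k f) :
    ∃ F : Polynomial ℂ, F.natDegree ≤ k ∧ InPow x a b (k + 1) (f - form a b k F) := by
  obtain ⟨c, hc, rfl⟩ := hf
  choose γ hγ using fun i => exists_const h (hc i)
  have hcoeff : ∀ i ∈ Finset.range (k + 1),
      (∑ j ∈ Finset.range (k + 1), Polynomial.monomial j (γ j)).coeff i = γ i := by
    intro i hi
    rw [Polynomial.finsetSum_coeff]
    simp only [Polynomial.coeff_monomial]
    rw [Finset.sum_ite_eq' (Finset.range (k + 1)) i γ, if_pos hi]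
  refine ⟨∑ j ∈ Finset.range (k + 1), Polynomial.monomial j (γ j), ?_, ?_⟩
  · refine Polynomial.natDegree_sum_le_of_forall_le _ _ fun j hj => ?_
    exact (Polynomial.natDegree_monomial_le _).trans (by rw [Finset.mem_range] at hj; omega)
  · unfold form
    rw [← Finset.sum_sub_distrib]
    refine inPow_sum _ _ fun i hi => ?_
    rw [hcoeff i hi]
    have h1 : c i * a ^ i * b ^ (k - i) - algebraMap ℂ L (γ i) * a ^ i * b ^ (k - i) =
        (c i - algebraMap ℂ L (γ i)) * (a ^ i * b ^ (k - i)) := by ring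
    have h2 : InPow x a b (1 + (i + (k - i))) ((c i - algebraMap ℂ L (γ i)) * (a ^ i * b ^ (k - i))) :=
      inPow_mul h.memA h.memB (inPow_one_iff.2 (hγ i)) (inPow_monom i (k - i))
    have h3 : 1 + (i + (k - i)) = k + 1 := by
      rw [Finset.mem_range] at hi
      omega
    rw [h1, ← h3]
    exact h2

theorem form_eq_zero (h : RLR x a b) {F : Polynomial ℂ} (hF : F.natDegree ≤ k)
    (h1 : InPow x a b (k + 1) (form a b k F)) : F = 0 := by
  have h2 := quasi h k (fun i => algebraMap ℂ L (F.coeff i)) (fun i => x.algebraMap_mem _) h1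
  ext i
  rw [Polynomial.coeff_zero]
  by_cases hi : i ≤ k
  · refine const_unique h (u := algebraMap ℂ L (F.coeff i)) (c' := 0) ?_ ?_
    · rw [sub_self]
      exact inM_zero
    · rw [map_zero, sub_zero]
      exact h2 i hi
  · exact Polynomial.coeff_eq_zero_of_natDegree_lt (by omega)

theorem not_inPow_mul (h : RLR x a b) (hf : InPow x a b k f) (hf' : ¬ InPow x a b (k + 1) f)
    (hg : InPow x a b l g) (hg' : ¬ InPow x a b (l + 1) g) :
    ¬ InPow x a b (k + l + 1) (f * g) := by
  intro hfg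
  obtain ⟨F, hF, hF1⟩ := exists_lead h hf
  obtain ⟨G, hG, hG1⟩ := exists_lead h hg
  have h0 : ∀ m : ℕ, form a b m (0 : Polynomial ℂ) = 0 := by
    intro m
    unfold form
    refine Finset.sum_eq_zero fun i _ => ?_
    rw [Polynomial.coeff_zero, map_zero, zero_mul, zero_mul]
  have hF0 : F ≠ 0 := by
    rintro rfl
    rw [h0, sub_zero] at hF1
    exact hf' hF1
  have hG0 : G ≠ 0 := by
    rintro rfl
    rw [h0, sub_zero] at hG1
    exact hg' hG1
  have h1 : InPow x a b (k + (l + 1)) (f * (g - form a b l G)) :=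
    inPow_mul h.memA h.memB hf hG1
  have h2 : InPow x a b (k + 1 + l) ((f - form a b k F) * form a b l G) :=
    inPow_mul h.memA h.memB hF1 inPow_form
  have e1 : k + (l + 1) = k + l + 1 := by omega
  have e2 : k + 1 + l = k + l + 1 := by omega
  rw [e1] at h1
  rw [e2] at h2
  have h3 : form a b (k + l) (F * G) =
      f * g - (f * (g - form a b l G) + (f - form a b k F) * form a b l G) := by
    rw [form_mul (b_ne h) hF hG]
    ring
  have h4 : InPow x a b (k + l + 1) (form a b (k + l) (F * G)) := by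
    rw [h3]
    exact inPow_sub hfg (inPow_add h1 h2)
  have h5 := form_eq_zero h (Polynomial.natDegree_mul_le.trans (add_le_add hF hG)) h4
  exact mul_ne_zero hF0 hG0 h5

end Pool.Agent.LibLOC
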