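import Pool.Agent.LibLOC.O3
import Pool.Agent.LibLOC.F2

/-!
[K+.LOC J1] Jets: every element of `x` is a polynomial of degree `< m` modulo `(a, b) ^ m`.
`exists_poly_form`: `form a b k F = ev a b P` with `P = ∑_{i ≤ k} C (F.coeff i) X0 ^ i X1 ^ (k - i)`,
all monomials of `P` have degree `k`. `exists_jetpoly`: induction on `m`: `m = 0`: `P = 0`; step:
`z - ev a b P ∈ (a, b) ^ m`, take its leading form (`exists_lead`) and add it to `P`.
(`ev a b` is the algebra homomorphism `MvPolynomial.aeval ![a, b]`; it maps into `x`.)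
-/

set_option autoImplicit false

open Pool.Agent.LibGMM Pool.Agent.LibLB
open Pool.Agent.LibKB (ev ordP Ess VDom Ge)

namespace Pool.Agent.LibLOC

variable {L : Type} [Field L] [Algebra ℂ L]

variable {x : Subalgebra ℂ L} {a b : L} {E : DVal L}

theorem ev_mem (h : RLR x a b) (P : MvPolynomial (Fin 2) ℂ) : ev a b P ∈ x := by
  induction P using MvPolynomial.induction_on with
  | C c =>
    rw [MvPolynomial.aeval_C]
    exact x.algebraMap_mem c
  | add p q hp hq =>
    rw [map_add]
    exact x.add_mem hp hq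
  | mul_X p i hp =>
    rw [map_mul, MvPolynomial.aeval_X]
    apply x.mul_mem hp
    fin_cases i
    · exact h.memA
    · exact h.memB

theorem exists_poly_form (k : ℕ) (F : Polynomial ℂ) : ∃ P : MvPolynomial (Fin 2) ℂ,
    (∀ d ∈ P.support, d.degree = k) ∧ ev a b P = form a b k F := by
  refine ⟨∑ i ∈ Finset.range (k + 1), MvPolynomial.C (F.coeff i) * MvPolynomial.X 0 ^ i *
    MvPolynomial.X 1 ^ (k - i), ?_, ?_⟩
  · have hhom : (∑ i ∈ Finset.range (k + 1), MvPolynomial.C (F.coeff i) * MvPolynomial.X 0 ^ i *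
        MvPolynomial.X 1 ^ (k - i) : MvPolynomial (Fin 2) ℂ).IsHomogeneous k := by
      apply MvPolynomial.IsHomogeneous.sum
      intro i hi
      have hi' : i + (k - i) = k := by
        have := Finset.mem_range.1 hi
        omega
      have h1 : (MvPolynomial.C (F.coeff i) * MvPolynomial.X 0 ^ i :
          MvPolynomial (Fin 2) ℂ).IsHomogeneous i := by
        have h2 := (MvPolynomial.isHomogeneous_C (Fin 2) (F.coeff i)).mul
          (MvPolynomial.isHomogeneous_X_pow (R := ℂ) (0 : Fin 2) i)
        rwa [zero_add] at h2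
      have h3 := h1.mul (MvPolynomial.isHomogeneous_X_pow (R := ℂ) (1 : Fin 2) (k - i))
      rwa [hi'] at h3
    intro d hd
    have h1 := hhom (MvPolynomial.mem_support_iff.1 hd)
    rw [Finsupp.degree_eq_weight_one]
    exact h1
  · rw [map_sum, form]
    apply Finset.sum_congr rfl
    intro i _
    rw [map_mul, map_mul, map_pow, map_pow, MvPolynomial.aeval_C, MvPolynomial.aeval_X,
      MvPolynomial.aeval_X]
    rfl

theorem exists_jetpoly (h : RLR x a b) (m : ℕ) {z : L} (hz : z ∈ x) :
    ∃ P : MvPolynomial (Fin 2) ℂ, (∀ d ∈ P.support, d.degree < m) ∧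
      InPow x a b m (z - ev a b P) := by
  classical
  induction m with
  | zero =>
    refine ⟨0, ?_, ?_⟩
    · intro d hd
      simp at hd
    · rw [map_zero, sub_zero, inPow_zero_iff]
      exact hz
  | succ m ih =>
    obtain ⟨P, hP1, hP2⟩ := ih
    obtain ⟨F, hF1, hF2⟩ := exists_lead h hP2
    obtain ⟨Q, hQ1, hQ2⟩ := exists_poly_form (a := a) (b := b) m F
    refine ⟨P + Q, ?_, ?_⟩
    · intro d hd
      have h1 := MvPolynomial.support_add hd
      rw [Finset.mem_union] at h1
      rcases h1 with h1 | h1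
      · exact (hP1 d h1).trans (Nat.lt_succ_self m)
      · rw [hQ1 d h1]
        exact Nat.lt_succ_self m
    · rw [map_add, hQ2, ← sub_sub]
      exact hF2

end Pool.Agent.LibLOC
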