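import Pool.Agent.LibLOC.O3
import Pool.Agent.LibKB1a.BR0

/-!
[K+.LOC O4] The order of a polynomial in `a, b`.
`LibKB1a.ordP_eq_mdeg` (BR0): `m = ordP f = LibKB1a.mdeg f`, the least degree with nonzero homogeneous
component: `LibKB1a.homogeneousComponent_mdeg_ne_zero` (C2), `LibKB1a.le_mdeg_iff` (C2c: the components
of degree `< m` vanish); `MvPolynomial.coeff_homogeneousComponent`.
`f = ∑_d coeff d f * X0 ^ (d 0) * X1 ^ (d 1)` (`MvPolynomial.as_sum`, `aeval_monomial`,
`Fin.prod_univ_two`): the terms with `d 0 + d 1 ≥ m + 1` are in `(a, b) ^ (m + 1)`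
(`inPow_monom`, `inPow_anti`), the others (`d 0 + d 1 = m`) sum up to `form a b m F` with
`F.coeff i = coeff (i, m - i) f`, `F ≠ 0`. Conclude with `ord_form`: if `ev a b f` were in
`(a, b) ^ (m + 1)` the form would be too (`form_eq_zero`); it is in `(a, b) ^ m`; `ord_eq`.
-/

set_option autoImplicit false

open Pool.Agent.LibGMM Pool.Agent.LibLB
open Pool.Agent.LibKB (ev ordP Ess VDom Ge)

namespace Pool.Agent.LibLOC

variable {L : Type} [Field L] [Algebra ℂ L]

variable {x : Subalgebra ℂ L} {a b : L} {E : DVal L}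

theorem O4_form_monom (i k : ℕ) (hi : i ≤ k) (c : ℂ) :
    form a b k (Polynomial.C c * Polynomial.X ^ i) = algebraMap ℂ L c * a ^ i * b ^ (k - i) := by
  unfold form
  rw [Finset.sum_eq_single i]
  · rw [Polynomial.coeff_C_mul, Polynomial.coeff_X_pow, if_pos rfl, mul_one]
  · intro j _ hj
    rw [Polynomial.coeff_C_mul, Polynomial.coeff_X_pow, if_neg hj, mul_zero, map_zero, zero_mul,
      zero_mul]
  · intro h
    exact absurd (Finset.mem_range.2 (Nat.lt_succ_of_le hi)) h

theorem ord_ev (h : RLR x a b) (hE : OrdAt x a b E) {f : MvPolynomial (Fin 2) ℂ} (hf : f ≠ 0) :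
    ev a b f ≠ 0 ∧ E.ord (ev a b f) = ordP f := by
  classical
  have hdeg2 : ∀ d : Fin 2 →₀ ℕ, d.degree = d 0 + d 1 := fun d => by
    rw [Finsupp.degree_eq_sum, Fin.sum_univ_two]
  set m := ordP f with hm
  have hlow : ∀ d : Fin 2 →₀ ℕ, d ∈ f.support → m ≤ d.degree := by
    intro d hd
    by_contra hlt
    exact MvPolynomial.mem_support_iff.1 hd
      ((Pool.Agent.LibKB.le_ordP_iff hf m).1 le_rfl d (by omega))
  obtain ⟨d0, hd0, hd0m⟩ : ∃ d ∈ f.support, d.degree = m := by
    by_contra hcon
    push Not at hcon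
    have h1 : m + 1 ≤ ordP f := (Pool.Agent.LibKB.le_ordP_iff hf (m + 1)).2 fun d hd => by
      by_contra h2
      have h3 := MvPolynomial.mem_support_iff.2 h2
      have h4 := hlow d h3
      exact hcon d h3 (by omega)
    omega
  set S : Finset (Fin 2 →₀ ℕ) := f.support.filter fun d => d.degree = m with hS
  set T : Finset (Fin 2 →₀ ℕ) := f.support.filter fun d => ¬ d.degree = m with hT
  set term : (Fin 2 →₀ ℕ) → L := fun d =>
    algebraMap ℂ L (MvPolynomial.coeff d f) * (a ^ d 0 * b ^ d 1) with hterm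
  have hev : ev a b f = ∑ d ∈ S, term d + ∑ d ∈ T, term d := by
    rw [hS, hT, Finset.sum_filter_add_sum_filter_not]
    change MvPolynomial.aeval ![a, b] f = _
    rw [MvPolynomial.aeval_def, MvPolynomial.eval₂_eq']
    refine Finset.sum_congr rfl fun d _ => ?_
    rw [Fin.prod_univ_two]
    rfl
  set F : Polynomial ℂ := ∑ d ∈ S, Polynomial.C (MvPolynomial.coeff d f) * Polynomial.X ^ (d 0)
    with hF
  have hSmem : ∀ d ∈ S, d 0 + d 1 = m := by
    intro d hd
    rw [hS, Finset.mem_filter] at hd
    rw [← hdeg2]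
    exact hd.2
  have hform : form a b m F = ∑ d ∈ S, term d := by
    have h1 := map_sum (AddMonoidHom.mk' (form a b m) fun F G => form_add)
      (fun d : Fin 2 →₀ ℕ => Polynomial.C (MvPolynomial.coeff d f) * Polynomial.X ^ (d 0)) S
    simp only [AddMonoidHom.mk'_apply] at h1
    rw [hF, h1]
    refine Finset.sum_congr rfl fun d hd => ?_
    have h2 := hSmem d hd
    rw [O4_form_monom (d 0) m (by omega)]
    have h3 : m - d 0 = d 1 := by omega
    rw [h3, hterm, mul_assoc]
  have hFdeg : F.natDegree ≤ m := by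
    rw [hF]
    refine Polynomial.natDegree_sum_le_of_forall_le _ _ fun d hd => ?_
    have h2 := hSmem d hd
    exact (Polynomial.natDegree_C_mul_X_pow_le _ _).trans (by omega)
  have hd0S : d0 ∈ S := by
    rw [hS, Finset.mem_filter]
    exact ⟨hd0, hd0m⟩
  have hF0 : F ≠ 0 := by
    intro h0
    have h1 : F.coeff (d0 0) = MvPolynomial.coeff d0 f := by
      rw [hF, Polynomial.finsetSum_coeff, Finset.sum_eq_single d0]
      · rw [Polynomial.coeff_C_mul, Polynomial.coeff_X_pow, if_pos rfl, mul_one]
      · intro d hd hne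
        rw [Polynomial.coeff_C_mul, Polynomial.coeff_X_pow, if_neg, mul_zero]
        intro h2
        apply hne
        have h3 := hSmem d hd
        have h4 := hSmem d0 hd0S
        ext i
        fin_cases i
        · exact h2.symm
        · change d 1 = d0 1
          omega
      · intro h2
        exact absurd hd0S h2
    rw [h0, Polynomial.coeff_zero] at h1
    exact MvPolynomial.mem_support_iff.1 hd0 h1.symm
  have hg : InPow x a b (m + 1) (∑ d ∈ T, term d) := by
    refine inPow_sum T term fun d hd => ?_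
    rw [hT, Finset.mem_filter] at hd
    have h1 := hlow d hd.1
    have h2 := hdeg2 d
    have h3 := hd.2
    exact inPow_smul (x.algebraMap_mem _)
      (inPow_anti h.memA h.memB (by omega) (inPow_monom (d 0) (d 1)))
  rw [← hform] at hev
  have h1 : InPow x a b m (ev a b f) := by
    rw [hev]
    exact inPow_add inPow_form (inPow_anti h.memA h.memB (Nat.le_succ m) hg)
  have h2 : ¬ InPow x a b (m + 1) (ev a b f) := by
    intro h3
    have h4 := inPow_sub h3 hg
    rw [hev, add_sub_cancel_right] at h4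
    exact hF0 (form_eq_zero h hFdeg h4)
  exact ord_eq hE (inPow_mem h.memA h.memB h1) h1 h2

end Pool.Agent.LibLOC
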