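import Pool.Agent.LibLOC.J1
import Pool.Agent.LibLOC.O4
import Pool.Agent.LibKB1a.C5
import Pool.Agent.LibKB1a.BR0

/-!
[K+.LOC J2] The space of jets `x / (a, b) ^ m` has dimension `m (m + 1) / 2`.
Port of `LibKB1a/C5.lean`, theorem `IsOrd.jets` (last theorem of the file), with `x` instead of
`Oloc a b` and the subspace `powSub x a b m` instead of `C5_K v m`: `φ : W → x ⧸ powSub`, `W` the
polynomials of degree `< m` (`MvPolynomial.restrictSupport ℂ (C5_S m)`, `C5_card`, `C5_finite`);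
injective: `P ≠ 0` of degree `< m` has `ordP P < m` (`C5_lt`, `LibKB1a.ordP_eq_mdeg`), so by `ord_ev`
(with `E` of `exists_ordAt`) `ev a b P ∉ (a, b) ^ m`; surjective: `exists_jetpoly`.
-/

set_option autoImplicit false

open Pool.Agent.LibGMM Pool.Agent.LibLB
open Pool.Agent.LibKB (ev ordP Ess VDom Ge)

namespace Pool.Agent.LibLOC

variable {L : Type} [Field L] [Algebra ℂ L]

variable {x : Subalgebra ℂ L} {a b : L}

/-- The elements of `(a, b) ^ m` as a subspace of `x`. -/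
def powSub (x : Subalgebra ℂ L) (a b : L) (m : ℕ) : Submodule ℂ x where
  carrier := {f | InPow x a b m (f : L)}
  zero_mem' := inPow_zero_right
  add_mem' := fun hf hg => inPow_add hf hg
  smul_mem' := by
    intro c f hf
    have h1 : ((c • f : x) : L) = algebraMap ℂ L c * f := by
      rw [Subalgebra.coe_smul, Algebra.smul_def]
    change InPow x a b m ((c • f : x) : L)
    rw [h1]
    exact inPow_smul (x.algebraMap_mem c) hf

/-- evaluation with values in the local ring -/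
noncomputable def J2_ev (x : Subalgebra ℂ L) (a b : L) (hx : ∀ P, ev a b P ∈ x) :
    MvPolynomial (Fin 2) ℂ →ₗ[ℂ] x :=
  LinearMap.codRestrict (Subalgebra.toSubmodule x) (ev a b).toLinearMap hx

theorem J2_ev_coe (hx : ∀ P, ev a b P ∈ x) (P : MvPolynomial (Fin 2) ℂ) :
    ((J2_ev x a b hx P : x) : L) = ev a b P := rfl

theorem jets (h : RLR x a b) (m : ℕ) :
    ∃ J : x →ₗ[ℂ] (Fin (m * (m + 1) / 2) → ℂ), Function.Surjective J ∧
      ∀ f : x, J f = 0 ↔ InPow x a b m (f : L) := by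
  classical
  obtain ⟨E, hE⟩ := exists_ordAt h
  have hfin := Pool.Agent.LibKB1a.C5_finite m
  have hx : ∀ P, ev a b P ∈ x := ev_mem h
  let W : Submodule ℂ (MvPolynomial (Fin 2) ℂ) :=
    MvPolynomial.restrictSupport ℂ (Pool.Agent.LibKB1a.C5_S m)
  let K : Submodule ℂ x := powSub x a b m
  let φ : W →ₗ[ℂ] (x ⧸ K) := (K.mkQ ∘ₗ J2_ev x a b hx) ∘ₗ W.subtype
  have hinj : Function.Injective φ := by
    rw [← LinearMap.ker_eq_bot, LinearMap.ker_eq_bot']
    rintro ⟨P, hP⟩ hφ
    have h1 : K.mkQ (J2_ev x a b hx P) = 0 := hφ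
    rw [Submodule.mkQ_apply, Submodule.Quotient.mk_eq_zero] at h1
    by_contra hne
    have hP0 : P ≠ 0 := fun h => hne (Subtype.ext h)
    have h2 : InPow x a b m (ev a b P) := h1
    obtain ⟨h3, h5⟩ := ord_ev h hE hP0
    have h6 := (hE _ (hx P) h3 m).2 h2
    rw [h5, Pool.Agent.LibKB1a.ordP_eq_mdeg hP0] at h6
    have h4 := Pool.Agent.LibKB1a.C5_lt hP0 (m := m)
      (fun d hd => ((MvPolynomial.mem_restrictSupport_iff ℂ).1 hP) hd)
    omega
  have hsurj : Function.Surjective φ := by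
    intro y
    obtain ⟨f, rfl⟩ := K.mkQ_surjective y
    obtain ⟨P, hP, hPm⟩ := exists_jetpoly h m f.2
    refine ⟨⟨P, ?_⟩, ?_⟩
    · refine (MvPolynomial.mem_restrictSupport_iff ℂ).2 fun d hd => ?_
      have h1 := hP d hd
      rw [Finsupp.degree_eq_sum, Fin.sum_univ_two] at h1
      exact h1
    · show K.mkQ (J2_ev x a b hx P) = K.mkQ f
      rw [← sub_eq_zero, ← map_sub, Submodule.mkQ_apply, Submodule.Quotient.mk_eq_zero]
      show InPow x a b m ((J2_ev x a b hx P - f : x) : L)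
      have h1 : ((J2_ev x a b hx P - f : x) : L) = -((f : L) - ev a b P) := by
        rw [Subalgebra.coe_sub, J2_ev_coe]
        ring
      rw [h1]
      exact inPow_neg hPm
  let e : W ≃ₗ[ℂ] (x ⧸ K) := LinearEquiv.ofBijective φ ⟨hinj, hsurj⟩
  let bW := MvPolynomial.basisRestrictSupport ℂ (Pool.Agent.LibKB1a.C5_S m)
  have hcard : Nat.card (Pool.Agent.LibKB1a.C5_S m) = m * (m + 1) / 2 :=
    Pool.Agent.LibKB1a.C5_card m
  have := Fintype.ofFinite (Pool.Agent.LibKB1a.C5_S m)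
  have hcard' : Fintype.card (Pool.Agent.LibKB1a.C5_S m) =
      Fintype.card (Fin (m * (m + 1) / 2)) := by
    rw [← Nat.card_eq_fintype_card, hcard, Fintype.card_fin]
  let b2 := bW.reindex (Fintype.equivOfCardEq hcard')
  let J0 : (x ⧸ K) ≃ₗ[ℂ] (Fin (m * (m + 1) / 2) → ℂ) := e.symm.trans b2.equivFun
  refine ⟨J0.toLinearMap ∘ₗ K.mkQ, ?_, ?_⟩
  · rw [LinearMap.coe_comp]
    exact J0.surjective.comp K.mkQ_surjective
  · intro f
    show J0 (K.mkQ f) = 0 ↔ _
    rw [LinearEquiv.map_eq_zero_iff, Submodule.mkQ_apply, Submodule.Quotient.mk_eq_zero]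
    rfl

end Pool.Agent.LibLOC
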