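import Pool.Agent.LibLOC.O1
import Pool.Agent.LibLOC.F2
import Pool.Agent.LibLOC.A4

/-!
[K+.LOC O2] The order function.
`exists_ordAt`: for `f ∈ x`, `f ≠ 0` let `o f` be the `k` of `exists_maxpow` (unique: `inPow_anti`;
`k ≤ o f ↔ InPow x a b k f`). `o (f g) = o f + o g`: `inPow_mul`, `not_inPow_mul`. `hadd`: `inPow_add`.
`o a = 1`: `a ∈ (a, b)` (`inPow_monom 1 0`), and `a ∉ (a, b) ^ 2` by `form_eq_zero` with `F = X`,
`k = 1` (`form a b 1 X = a`). Use `exists_dval`. `isOrd_iff`: `inPow_iff_of_rlr`.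
-/

set_option autoImplicit false

open Pool.Agent.LibGMM Pool.Agent.LibLB
open Pool.Agent.LibKB (ev ordP Ess VDom Ge)

namespace Pool.Agent.LibLOC

variable {L : Type} [Field L] [Algebra ℂ L]

variable {x : Subalgebra ℂ L} {a b a' b' : L} {E : DVal L}

theorem not_inPow_two_a (h : RLR x a b) : ¬ InPow x a b 2 a := by
  intro h1
  have h2 : form a b 1 (Polynomial.X : Polynomial ℂ) = a := by
    simp [form, Finset.sum_range_succ]
  have h3 : InPow x a b (1 + 1) (form a b 1 (Polynomial.X : Polynomial ℂ)) := by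
    rw [h2]
    exact h1
  exact Polynomial.X_ne_zero (form_eq_zero h (by simp) h3)

private theorem o2_unique (ha : a ∈ x) (hb : b ∈ x) {f : L} {k l : ℕ} (h1 : InPow x a b k f)
    (h2 : ¬ InPow x a b (k + 1) f) (h3 : InPow x a b l f) (h4 : ¬ InPow x a b (l + 1) f) :
    k = l := by
  rcases lt_trichotomy k l with h5 | h5 | h5
  · exact absurd (inPow_anti ha hb h5 h3) h2
  · exact h5
  · exact absurd (inPow_anti ha hb h5 h1) h4

theorem exists_ordAt (h : RLR x a b) : ∃ E, OrdAt x a b E := by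
  classical
  have hex : ∀ f : L, ∃ k : ℕ, f ∈ x → f ≠ 0 → (InPow x a b k f ∧ ¬ InPow x a b (k + 1) f) := by
    intro f
    by_cases hf : f ∈ x ∧ f ≠ 0
    · obtain ⟨k, hk⟩ := exists_maxpow h hf.1 hf.2
      exact ⟨k, fun _ _ => hk⟩
    · exact ⟨0, fun h1 h2 => absurd ⟨h1, h2⟩ hf⟩
  choose o ho using hex
  obtain ⟨E, hE⟩ := exists_dval x h.frac o
    (by
      intro f hf g hg hf0 hg0
      have h1 := ho f hf hf0
      have h2 := ho g hg hg0
      have h3 := ho (f * g) (x.mul_mem hf hg) (mul_ne_zero hf0 hg0)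
      exact o2_unique h.memA h.memB h3.1 h3.2 (inPow_mul h.memA h.memB h1.1 h2.1)
        (not_inPow_mul h h1.1 h1.2 h2.1 h2.2))
    (by
      intro f hf g hg hf0 hg0 hfg
      have h1 := ho f hf hf0
      have h2 := ho g hg hg0
      have h3 := ho (f + g) (x.add_mem hf hg) hfg
      by_contra hlt
      rw [not_le] at hlt
      have h4 : InPow x a b (o (f + g) + 1) f :=
        inPow_anti h.memA h.memB (le_trans (Nat.succ_le_of_lt hlt) (min_le_left _ _)) h1.1
      have h5 : InPow x a b (o (f + g) + 1) g :=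
        inPow_anti h.memA h.memB (le_trans (Nat.succ_le_of_lt hlt) (min_le_right _ _)) h2.1
      exact h3.2 (inPow_add h4 h5))
    (by
      refine ⟨a, h.memA, h.a_ne, ?_⟩
      have h1 := ho a h.memA h.a_ne
      have h2 : InPow x a b (1 + 0) (a ^ 1 * b ^ 0) := inPow_monom 1 0
      have h3 : a ^ 1 * b ^ 0 = a := by ring
      rw [h3] at h2
      exact o2_unique h.memA h.memB h1.1 h1.2 h2 (not_inPow_two_a h))
  refine ⟨E, ?_⟩
  intro f hf hf0 k
  rw [hE f hf hf0]
  have h1 := ho f hf hf0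
  constructor
  · intro h2
    have h3 : k ≤ o f := by exact_mod_cast h2
    exact inPow_anti h.memA h.memB h3 h1.1
  · intro h2
    by_contra h3
    have h4 : o f < k := by
      rw [not_le] at h3
      exact_mod_cast h3
    exact h1.2 (inPow_anti h.memA h.memB h4 h2)

theorem ordAt_of_isOrd (h : RLR x a b) (hE : IsOrd x E) : OrdAt x a b E := by
  obtain ⟨a', b', h', hE'⟩ := hE
  intro f hf hf0 k
  rw [hE' f hf hf0 k]
  exact (inPow_iff_of_rlr h h' k f).symm

theorem isOrd_of_ordAt (h : RLR x a b) (hE : OrdAt x a b E) : IsOrd x E :=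
  ⟨a, b, h, hE⟩

end Pool.Agent.LibLOC
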