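import Pool.Agent.LibLOC.A2

/-!
[K+.LOC P1] The ring `x[t]`, `t = b / a` (`adj x t = x ⊔ Algebra.adjoin ℂ {t}`).
`adj_le` etc.: lattice. `mem_adj_iff`: (→) the set `S` of the `f / a ^ n` with `f ∈ (a, b) ^ n` is a
subalgebra (`f / a ^ n + g / a ^ m = (f a ^ m + g a ^ n) / a ^ (n + m)`, `inPow_mul`,
`a ^ m ∈ (a, b) ^ m` by `inPow_monom m 0`) containing `x` (`n = 0`) and `t = b / a ^ 1`; use `adj_le`
for the subalgebra `S`. (←) `f = ∑ c i a ^ i b ^ (n - i)`, so `f / a ^ n = ∑ c i t ^ (n - i)`.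
`adj_decomp`: the set of the `F(t) + a p` (`F ∈ ℂ[T]`, `p ∈ x[t]`) is a subalgebra (product:
`F(t) G(t) + a (p G(t) + F(t) q + a p q)`) containing `t` (`F = X`) and `x`: `u = c + a p + b q
= c + a (p + t q)` (`h.decomp`).
-/

set_option autoImplicit false

open Pool.Agent.LibGMM Pool.Agent.LibLB
open Pool.Agent.LibKB (ev ordP Ess VDom Ge)

namespace Pool.Agent.LibLOC

variable {L : Type} [Field L] [Algebra ℂ L]

variable {x z : Subalgebra ℂ L} {a b t : L}

theorem adj_le (hx : x ≤ z) (ht : t ∈ z) : adj x t ≤ z := by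
  exact sup_le hx (Algebra.adjoin_le (Set.singleton_subset_iff.2 ht))

theorem le_adj : x ≤ adj x t := by
  exact le_sup_left

theorem self_mem_adj : t ∈ adj x t := by
  exact (le_sup_right : Algebra.adjoin ℂ {t} ≤ adj x t) (Algebra.subset_adjoin rfl)

theorem aeval_mem_adj (F : Polynomial ℂ) : Polynomial.aeval t F ∈ adj x t := by
  exact (le_sup_right : Algebra.adjoin ℂ {t} ≤ adj x t)
    (Polynomial.aeval_mem_adjoin_singleton ℂ t)

theorem mem_adj_iff (h : RLR x a b) {w : L} :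
    w ∈ adj x (b / a) ↔ ∃ (n : ℕ) (f : L), InPow x a b n f ∧ w = f / a ^ n := by
  have ha0 : a ≠ 0 := h.a_ne
  have hap : ∀ n : ℕ, InPow x a b n (a ^ n) := fun n => by
    have h1 := inPow_monom (x := x) (a := a) (b := b) n 0
    rw [pow_zero, mul_one, Nat.add_zero] at h1
    exact h1
  constructor
  · intro hw
    let S : Subalgebra ℂ L :=
      { carrier := {w | ∃ (n : ℕ) (f : L), InPow x a b n f ∧ w = f / a ^ n}
        mul_mem' := by
          rintro u v ⟨n, f, hf, rfl⟩ ⟨m, g, hg, rfl⟩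
          exact ⟨n + m, f * g, inPow_mul h.memA h.memB hf hg, by rw [pow_add, div_mul_div_comm]⟩
        one_mem' := ⟨0, 1, inPow_zero_iff.2 x.one_mem, by simp⟩
        add_mem' := by
          rintro u v ⟨n, f, hf, rfl⟩ ⟨m, g, hg, rfl⟩
          refine ⟨n + m, f * a ^ m + a ^ n * g, inPow_add (inPow_mul h.memA h.memB hf (hap m))
            (inPow_mul h.memA h.memB (hap n) hg), ?_⟩
          rw [pow_add, div_add_div _ _ (pow_ne_zero _ ha0) (pow_ne_zero _ ha0)]
        zero_mem' := ⟨0, 0, inPow_zero_iff.2 x.zero_mem, by simp⟩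
        algebraMap_mem' := fun c => ⟨0, algebraMap ℂ L c, inPow_zero_iff.2 (x.algebraMap_mem c),
          by simp⟩ }
    have hx : x ≤ S := fun u hu => ⟨0, u, inPow_zero_iff.2 hu, by simp⟩
    have ht : b / a ∈ S := by
      refine ⟨1, b, inPow_one_iff.2 ⟨0, x.zero_mem, 1, x.one_mem, by ring⟩, by rw [pow_one]⟩
    exact adj_le hx ht hw
  · rintro ⟨n, f, ⟨c, hc, hf⟩, rfl⟩
    have h1 : f / a ^ n = ∑ i ∈ Finset.range (n + 1), c i * (b / a) ^ (n - i) := by
      rw [hf, Finset.sum_div]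
      refine Finset.sum_congr rfl fun i hi => ?_
      have hi' : i ≤ n := Nat.lt_succ_iff.mp (Finset.mem_range.mp hi)
      have h2 : a ^ n = a ^ i * a ^ (n - i) := by rw [← pow_add, Nat.add_sub_cancel' hi']
      have h3 : a ^ i ≠ 0 := pow_ne_zero _ ha0
      have h4 : a ^ (n - i) ≠ 0 := pow_ne_zero _ ha0
      rw [h2, div_pow]
      field_simp
    rw [h1]
    exact Subalgebra.sum_mem _ fun i _ =>
      Subalgebra.mul_mem _ (le_adj (hc i)) (Subalgebra.pow_mem _ self_mem_adj _)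

theorem adj_decomp (h : RLR x a b) {w : L} (hw : w ∈ adj x (b / a)) :
    ∃ (F : Polynomial ℂ) (p : L), p ∈ adj x (b / a) ∧ w = Polynomial.aeval (b / a) F + a * p := by
  have ha0 : a ≠ 0 := h.a_ne
  let S : Subalgebra ℂ L :=
    { carrier := {w | ∃ (F : Polynomial ℂ) (p : L), p ∈ adj x (b / a) ∧
        w = Polynomial.aeval (b / a) F + a * p}
      mul_mem' := by
        rintro u v ⟨F, p, hp, rfl⟩ ⟨G, q, hq, rfl⟩
        refine ⟨F * G, p * Polynomial.aeval (b / a) G + Polynomial.aeval (b / a) F * q + a * p * q,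
          ?_, by rw [map_mul]; ring⟩
        have haa : a ∈ adj x (b / a) := le_adj h.memA
        exact Subalgebra.add_mem _ (Subalgebra.add_mem _ (Subalgebra.mul_mem _ hp (aeval_mem_adj G))
          (Subalgebra.mul_mem _ (aeval_mem_adj F) hq))
          (Subalgebra.mul_mem _ (Subalgebra.mul_mem _ haa hp) hq)
      one_mem' := ⟨1, 0, Subalgebra.zero_mem _, by simp⟩
      add_mem' := by
        rintro u v ⟨F, p, hp, rfl⟩ ⟨G, q, hq, rfl⟩
        exact ⟨F + G, p + q, Subalgebra.add_mem _ hp hq, by rw [map_add]; ring⟩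
      zero_mem' := ⟨0, 0, Subalgebra.zero_mem _, by simp⟩
      algebraMap_mem' := fun c => ⟨Polynomial.C c, 0, Subalgebra.zero_mem _, by simp⟩ }
  have hx : x ≤ S := by
    intro u hu
    obtain ⟨c, p, hp, q, hq, he⟩ := h.decomp u hu
    refine ⟨Polynomial.C c, p + b / a * q, Subalgebra.add_mem _ (le_adj hp)
      (Subalgebra.mul_mem _ self_mem_adj (le_adj hq)), ?_⟩
    rw [Polynomial.aeval_C, he]
    field_simp
    ring
  have ht : b / a ∈ S := ⟨Polynomial.X, 0, Subalgebra.zero_mem _, by simp⟩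
  exact adj_le hx ht hw

end Pool.Agent.LibLOC
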