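import Pool.Agent.LibLOC.P1
import Pool.Agent.LibLOC.F2

/-!
[K+.LOC P2] `x[t] / (a) = ℂ[T]`.
`adj_eq_zero`: `p = f / a ^ n`, `f ∈ (a, b) ^ n` (`mem_adj_iff`); enlarging `n` (multiply `f` by powers of
`a`) we may assume `natDegree F ≤ n`. Multiply `F(t) + a p = 0` by `a ^ n`:
`a ^ n F(b / a) = form b a n F` (`form_eq` with the roles exchanged) equals `- a f ∈ (a, b) ^ (n + 1)`,
so `F = 0` by `form_eq_zero` for `rlr_swap h` (`inPow_swap`).
`adj_const_zero`: `c + a p + t q = 0`; `q = G(t) + a q'` (`adj_decomp`), so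
`(C c + X G)(t) + a (p + t q') = 0`, `C c + X G = 0`, `c = 0` (coefficient 0).
`adj_tor`: `t q = a p`: `q = G(t) + a q'`, `(X G)(t) + a (t q' - p) = 0`, `X G = 0`, `G = 0`,
`q = a q'`.
-/

set_option autoImplicit false

open Pool.Agent.LibGMM Pool.Agent.LibLB
open Pool.Agent.LibKB (ev ordP Ess VDom Ge)

namespace Pool.Agent.LibLOC

variable {L : Type} [Field L] [Algebra ℂ L]

variable {x : Subalgebra ℂ L} {a b : L}

theorem adj_eq_zero (h : RLR x a b) {F : Polynomial ℂ} {p : L} (hp : p ∈ adj x (b / a))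
    (h0 : Polynomial.aeval (b / a) F + a * p = 0) : F = 0 := by
  have ha0 : a ≠ 0 := h.a_ne
  obtain ⟨n, f, hf, hpf⟩ := (mem_adj_iff h).1 hp
  obtain ⟨N, hN⟩ : ∃ N, N = n + F.natDegree := ⟨_, rfl⟩
  have hnN : n ≤ N := by omega
  have hFN : F.natDegree ≤ N := by omega
  have hap : InPow x a b F.natDegree (a ^ F.natDegree) := by
    have h1 := inPow_monom (x := x) (a := a) (b := b) F.natDegree 0
    rw [pow_zero, mul_one, Nat.add_zero] at h1
    exact h1
  have hf' : InPow x a b N (f * a ^ F.natDegree) := by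
    rw [hN]
    exact inPow_mul h.memA h.memB hf hap
  have hpf' : a ^ N * p = f * a ^ F.natDegree := by
    have h3 : a ^ n ≠ 0 := pow_ne_zero _ ha0
    rw [hpf, hN, pow_add]
    field_simp
  have h1 : form b a N F = -(a * (f * a ^ F.natDegree)) := by
    rw [form_eq ha0 hFN, ← hpf']
    linear_combination a ^ N * h0
  refine form_eq_zero (rlr_swap h) hFN ?_
  rw [← inPow_swap, h1]
  refine inPow_neg (inPow_succ_iff.2 ⟨_, 0, hf', inPow_zero_right, by ring⟩)

theorem adj_const_zero (h : RLR x a b) {c : ℂ} {p q : L} (hp : p ∈ adj x (b / a))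
    (hq : q ∈ adj x (b / a)) (h0 : algebraMap ℂ L c + a * p + b / a * q = 0) : c = 0 := by
  obtain ⟨G, q', hq', he⟩ := adj_decomp h hq
  have h1 : Polynomial.C c + Polynomial.X * G = 0 := by
    refine adj_eq_zero h (p := p + b / a * q')
      (Subalgebra.add_mem _ hp (Subalgebra.mul_mem _ self_mem_adj hq')) ?_
    rw [map_add, map_mul, Polynomial.aeval_C, Polynomial.aeval_X, ← h0, he]
    ring
  have h2 := congrArg (fun P : Polynomial ℂ => P.coeff 0) h1
  simpa using h2

theorem adj_tor (h : RLR x a b) {p q : L} (hp : p ∈ adj x (b / a)) (hq : q ∈ adj x (b / a))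
    (h0 : a * p = b / a * q) : ∃ r ∈ adj x (b / a), q = a * r := by
  obtain ⟨G, q', hq', he⟩ := adj_decomp h hq
  have h1 : Polynomial.X * G = 0 := by
    refine adj_eq_zero h (p := b / a * q' - p)
      (Subalgebra.sub_mem _ (Subalgebra.mul_mem _ self_mem_adj hq') hp) ?_
    rw [map_mul, Polynomial.aeval_X]
    rw [he] at h0
    linear_combination -h0
  have h2 : G = 0 := (mul_eq_zero.1 h1).resolve_left Polynomial.X_ne_zero
  refine ⟨q', hq', ?_⟩
  rw [he, h2, map_zero, zero_add]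

end Pool.Agent.LibLOC
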