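import Pool.Agent.LibLOC.P2

/-!
[K+.LOC P3] The local ring `y` of a point of the blow-up: construction and first properties.
`Den x a b v`: `v ∈ x[t]`, `v ≠ 0`, `v = c + a p + t q` with `c ≠ 0`. `den_mk`: the value is nonzero by
`adj_const_zero`. `den_one`, `den_mul`: constants multiply. `exists_bl`: the set of the `u / v`
(`u ∈ x[t]`, `Den v`) is a subalgebra (common denominators, `den_mul`); `Bl.mem` is then by
definition (up to `Den`). For `hb : Bl x y a b`: `bl_mem_iff`: rewrite `hb.mem` with `Den`.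
`bl_common`: two elements have a common denominator. `bl_adj_le`: denominator `1`.
`bl_den_inv`: `v⁻¹ = 1 / v`. `bl_le`: `x ≤ x[t] ≤ y`.
-/

set_option autoImplicit false

open Pool.Agent.LibGMM Pool.Agent.LibLB
open Pool.Agent.LibKB (ev ordP Ess VDom Ge)

namespace Pool.Agent.LibLOC

variable {L : Type} [Field L] [Algebra ℂ L]

variable {x y : Subalgebra ℂ L} {a b : L}

theorem den_mk (h : RLR x a b) {c : ℂ} (hc : c ≠ 0) {p q : L} (hp : p ∈ adj x (b / a))
    (hq : q ∈ adj x (b / a)) : Den x a b (algebraMap ℂ L c + a * p + b / a * q) := by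
  have ha : a ∈ adj x (b / a) := (le_adj (x := x) (t := b / a)) h.memA
  have ht : b / a ∈ adj x (b / a) := self_mem_adj
  refine ⟨?_, ?_, c, hc, p, hp, q, hq, rfl⟩
  · exact add_mem (add_mem (Subalgebra.algebraMap_mem _ c) (mul_mem ha hp)) (mul_mem ht hq)
  · intro h0
    exact hc (adj_const_zero h hp hq h0)

theorem den_one : Den x a b 1 := by
  refine ⟨one_mem _, one_ne_zero, 1, one_ne_zero, 0, zero_mem _, 0, zero_mem _, ?_⟩
  rw [map_one, mul_zero, mul_zero, add_zero, add_zero]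

theorem den_mul (h : RLR x a b) {v w : L} (hv : Den x a b v) (hw : Den x a b w) :
    Den x a b (v * w) := by
  obtain ⟨hv1, hv2, c, hc, p, hp, q, hq, he⟩ := hv
  obtain ⟨hw1, hw2, c', hc', p', hp', q', hq', he'⟩ := hw
  have hcm : algebraMap ℂ L c ∈ adj x (b / a) := Subalgebra.algebraMap_mem _ c
  have h1 := den_mk h (mul_ne_zero hc hc')
    (add_mem (mul_mem hcm hp') (mul_mem hp hw1)) (add_mem (mul_mem hcm hq') (mul_mem hq hw1))
  have h2 : v * w = algebraMap ℂ L (c * c') + a * (algebraMap ℂ L c * p' + p * w) +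
      b / a * (algebraMap ℂ L c * q' + q * w) := by
    rw [map_mul]
    have h3 : algebraMap ℂ L c * algebraMap ℂ L c' + a * (algebraMap ℂ L c * p' + p * w) +
      b / a * (algebraMap ℂ L c * q' + q * w) = algebraMap ℂ L c *
        (algebraMap ℂ L c' + a * p' + b / a * q') + (a * p + b / a * q) * w := by ring
    rw [h3, ← he']
    rw [he]
    ring
  rw [h2]
  exact h1

theorem exists_bl (h : RLR x a b) : ∃ y, Bl x y a b := by
  refine ⟨{ carrier := {z | ∃ u ∈ adj x (b / a), ∃ v, Den x a b v ∧ z = u / v}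
            mul_mem' := ?_
            add_mem' := ?_
            algebraMap_mem' := ?_ }, h, ?_⟩
  · rintro z z' ⟨u, hu, v, hv, rfl⟩ ⟨u', hu', v', hv', rfl⟩
    exact ⟨u * u', mul_mem hu hu', v * v', den_mul h hv hv', by rw [div_mul_div_comm]⟩
  · rintro z z' ⟨u, hu, v, hv, rfl⟩ ⟨u', hu', v', hv', rfl⟩
    exact ⟨u * v' + v * u', add_mem (mul_mem hu hv'.1) (mul_mem hv.1 hu'), v * v',
      den_mul h hv hv', by rw [div_add_div _ _ hv.2.1 hv'.2.1]⟩
  · intro c
    exact ⟨algebraMap ℂ L c, Subalgebra.algebraMap_mem _ c, 1, den_one, by rw [div_one]⟩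
  · intro z
    constructor
    · rintro ⟨u, hu, v, ⟨hv1, hv2, hv3⟩, hz⟩
      exact ⟨u, hu, v, hv1, hv2, hv3, hz⟩
    · rintro ⟨u, hu, v, hv1, hv2, hv3, hz⟩
      exact ⟨u, hu, v, ⟨hv1, hv2, hv3⟩, hz⟩

theorem bl_mem_iff (hb : Bl x y a b) {z : L} :
    z ∈ y ↔ ∃ u ∈ adj x (b / a), ∃ v, Den x a b v ∧ z = u / v := by
  rw [hb.mem]
  constructor
  · rintro ⟨u, hu, v, hv1, hv2, hv3, hz⟩
    exact ⟨u, hu, v, ⟨hv1, hv2, hv3⟩, hz⟩
  · rintro ⟨u, hu, v, ⟨hv1, hv2, hv3⟩, hz⟩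
    exact ⟨u, hu, v, hv1, hv2, hv3, hz⟩

theorem bl_adj_le (hb : Bl x y a b) : adj x (b / a) ≤ y := by
  intro u hu
  exact (bl_mem_iff hb).2 ⟨u, hu, 1, den_one, by rw [div_one]⟩

theorem bl_den_inv (hb : Bl x y a b) {v : L} (hv : Den x a b v) : v⁻¹ ∈ y :=
  (bl_mem_iff hb).2 ⟨1, one_mem _, v, hv, by rw [one_div]⟩

theorem bl_le (hb : Bl x y a b) : x ≤ y := (le_adj (x := x) (t := b / a)).trans (bl_adj_le hb)

theorem bl_common (hb : Bl x y a b) {p q : L} (hp : p ∈ y) (hq : q ∈ y) :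
    ∃ p' ∈ adj x (b / a), ∃ q' ∈ adj x (b / a), ∃ v, Den x a b v ∧ p = p' / v ∧ q = q' / v := by
  obtain ⟨u, hu, v, hv, rfl⟩ := (bl_mem_iff hb).1 hp
  obtain ⟨u', hu', v', hv', rfl⟩ := (bl_mem_iff hb).1 hq
  refine ⟨u * v', mul_mem hu hv'.1, u' * v, mul_mem hu' hv.1, v * v', den_mul hb.rlr hv hv', ?_, ?_⟩
  · rw [mul_div_mul_right _ _ hv'.2.1]
  · rw [mul_comm v v', mul_div_mul_right _ _ hv.2.1]

end Pool.Agent.LibLOC
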