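import Pool.Agent.LibLOC.P3

/-!
[K+.LOC P4] `y` is a regular local ring with parameters `a`, `t = b / a`.
Fields of `RLR y a (b / a)`: `tr` from `hb.rlr`; `memA`, `memB`: `x ≤ y`, `t ∈ x[t] ≤ y`; `frac`: from
`hb.rlr.frac` and `x ≤ y`. `decomp`: `u = z / v`, `v = c + a p + t q`, `c ≠ 0`,
`z = F(t) + a p' = F(0) + t G(t) + a p'` (`Polynomial.divX_mul_X_add`); then
`u - F(0) / c = (z - (F(0) / c) v) / v` and `z - (F(0) / c) v = a p'' + t q''` with
`p'', q'' ∈ x[t]`. `unit`: `u = z / v`: if `F(0) ≠ 0` then `z` is `Den` (`den_mk`) and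
`u⁻¹ = v / z ∈ y`; otherwise `u = a (p' / v) + t (G(t) / v)`. `nonunit`: if `a p + t q = 1` then by
`bl_common` `a p' + t q' = v = c + a p'' + t q''`, so `c = 0` by `adj_const_zero`, contradiction.
`reg`: `a p = t q`: `a p' = t q'` (common denominator), `q' = a r` by `adj_tor`, `q = a (r / v)`.
`ess`: `B` the algebra of `hb.rlr.ess`, `B' = B ⊔ adjoin ℂ {t}` (finitely generated:
`Subalgebra.FG.sup`, `Subalgebra.fg_adjoin_singleton`...). Every `z ∈ x[t]` is `z' / w` with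
`z' ∈ B'`, `w ∈ B`, `w ≠ 0`, `w⁻¹ ∈ x` (the set of these elements is a subalgebra containing `x` and
`t`; `adj_le`). So `u = z / v = (z' w₂) / (w₁ v')` and `(w₁ v')⁻¹ = w₁⁻¹ w₂⁻¹ v⁻¹ ∈ y`.
-/

set_option autoImplicit false

open Pool.Agent.LibGMM Pool.Agent.LibLB
open Pool.Agent.LibKB (ev ordP Ess VDom Ge)

namespace Pool.Agent.LibLOC

variable {L : Type} [Field L] [Algebra ℂ L]

variable {x y : Subalgebra ℂ L} {a b : L}

/-- The fractions of elements of `B` with denominator invertible in `y`. -/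
private def fracAlg (B y : Subalgebra ℂ L) : Subalgebra ℂ L where
  carrier := {z | ∃ z' ∈ B, ∃ w ∈ B, w ≠ 0 ∧ w⁻¹ ∈ y ∧ z = z' / w}
  mul_mem' := by
    rintro u v ⟨z, hz, w, hw, hw0, hwi, rfl⟩ ⟨z', hz', w', hw', hw'0, hwi', rfl⟩
    refine ⟨z * z', B.mul_mem hz hz', w * w', B.mul_mem hw hw', mul_ne_zero hw0 hw'0, ?_, ?_⟩
    · rw [mul_inv]; exact y.mul_mem hwi hwi'
    · rw [div_mul_div_comm]
  add_mem' := by
    rintro u v ⟨z, hz, w, hw, hw0, hwi, rfl⟩ ⟨z', hz', w', hw', hw'0, hwi', rfl⟩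
    refine ⟨z * w' + w * z', B.add_mem (B.mul_mem hz hw') (B.mul_mem hw hz'), w * w',
      B.mul_mem hw hw', mul_ne_zero hw0 hw'0, ?_, ?_⟩
    · rw [mul_inv]; exact y.mul_mem hwi hwi'
    · rw [div_add_div _ _ hw0 hw'0]
  algebraMap_mem' := by
    intro c
    exact ⟨algebraMap ℂ L c, B.algebraMap_mem c, 1, B.one_mem, one_ne_zero, by
      rw [inv_one]; exact y.one_mem, by rw [div_one]⟩

theorem bl_ess (hb : Bl x y a b) : ∃ B : Subalgebra ℂ L, B.FG ∧ B ≤ y ∧
    ∀ u ∈ y, ∃ v ∈ B, ∃ w ∈ B, w ≠ 0 ∧ w⁻¹ ∈ y ∧ u = v / w := by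
  obtain ⟨B, hB, hBx, hf⟩ := hb.rlr.ess
  have hxy := bl_le hb
  have hay := bl_adj_le hb
  set B' : Subalgebra ℂ L := B ⊔ Algebra.adjoin ℂ {b / a} with hB'
  have hBB' : B ≤ B' := le_sup_left
  have htB' : b / a ∈ B' :=
    (le_sup_right : Algebra.adjoin ℂ {b / a} ≤ B') (Algebra.self_mem_adjoin_singleton ℂ (b / a))
  have hB'FG : B'.FG := hB.sup (Subalgebra.fg_adjoin_finset {b / a} |> fun h => by
    simpa using h)
  have hB'y : B' ≤ y := sup_le (hBx.trans hxy)
    (Algebra.adjoin_le (by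
      intro s hs
      rw [Set.mem_singleton_iff] at hs
      subst hs
      exact hay self_mem_adj))
  have key : adj x (b / a) ≤ fracAlg B' y := by
    refine adj_le ?_ ?_
    · intro u hu
      obtain ⟨v, hv, w, hw, hw0, hwi, he⟩ := hf u hu
      exact ⟨v, hBB' hv, w, hBB' hw, hw0, hxy hwi, he⟩
    · exact ⟨b / a, htB', 1, B'.one_mem, one_ne_zero, by rw [inv_one]; exact y.one_mem,
        by rw [div_one]⟩
  refine ⟨B', hB'FG, hB'y, ?_⟩
  intro u hu
  obtain ⟨z, hz, v, hv, rfl⟩ := (bl_mem_iff hb).1 hu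
  obtain ⟨z', hz', w₁, hw₁, hw₁0, hw₁i, rfl⟩ := key hz
  obtain ⟨v', hv', w₂, hw₂, hw₂0, hw₂i, hve⟩ := key hv.1
  have hv0 : v ≠ 0 := hv.2.1
  have hv'0 : v' ≠ 0 := by
    rintro rfl
    rw [zero_div] at hve
    exact hv0 hve
  refine ⟨z' * w₂, B'.mul_mem hz' hw₂, w₁ * v', B'.mul_mem hw₁ hv', mul_ne_zero hw₁0 hv'0, ?_, ?_⟩
  · have : (w₁ * v')⁻¹ = w₁⁻¹ * (w₂⁻¹ * v⁻¹) := by
      rw [hve]
      field_simp
    rw [this]
    exact y.mul_mem hw₁i (y.mul_mem hw₂i (bl_den_inv hb hv))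
  · rw [hve]
    field_simp

theorem bl_rlr (hb : Bl x y a b) : RLR y a (b / a) := by
  have h := hb.rlr
  have hxy := bl_le hb
  have hay := bl_adj_le hb
  have hdiv : ∀ z ∈ adj x (b / a), ∀ v, Den x a b v → z / v ∈ y := fun z hz v hv =>
    (bl_mem_iff hb).2 ⟨z, hz, v, hv, rfl⟩
  -- the decomposition of an element of `x[t]`
  have hdec : ∀ z ∈ adj x (b / a), ∃ c : ℂ, ∃ p ∈ adj x (b / a), ∃ q ∈ adj x (b / a),
      z = algebraMap ℂ L c + a * p + b / a * q := by
    intro z hz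
    obtain ⟨F, p, hp, rfl⟩ := adj_decomp h hz
    refine ⟨F.coeff 0, p, hp, Polynomial.aeval (b / a) F.divX, aeval_mem_adj _, ?_⟩
    have : Polynomial.aeval (b / a) F = Polynomial.aeval (b / a) F.divX * (b / a) +
        algebraMap ℂ L (F.coeff 0) := by
      conv_lhs => rw [← Polynomial.divX_mul_X_add F]
      simp
    rw [this]
    ring
  refine
    { memA := hxy h.memA
      memB := hay self_mem_adj
      frac := ?_
      decomp := ?_
      unit := ?_
      nonunit := ?_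
      a_ne := h.a_ne
      reg := ?_
      ess := bl_ess hb
      tr := h.tr }
  · intro z
    obtain ⟨u, hu, v, hv, hv0, he⟩ := h.frac z
    exact ⟨u, hxy hu, v, hxy hv, hv0, he⟩
  · intro u hu
    obtain ⟨z, hz, v, hv, rfl⟩ := (bl_mem_iff hb).1 hu
    obtain ⟨c', p', hp', q', hq', hze⟩ := hdec z hz
    obtain ⟨-, hv0, c, hc, p, hp, q, hq, hve⟩ := id hv
    have hcL : algebraMap ℂ L c ≠ 0 := by
      rw [Ne, map_eq_zero]; exact hc
    refine ⟨c' / c, (p' - algebraMap ℂ L (c' / c) * p) / v, hdiv _ ?_ _ hv,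
      (q' - algebraMap ℂ L (c' / c) * q) / v, hdiv _ ?_ _ hv, ?_⟩
    · exact (adj x (b / a)).sub_mem hp' ((adj x (b / a)).mul_mem
        ((adj x (b / a)).algebraMap_mem _) hp)
    · exact (adj x (b / a)).sub_mem hq' ((adj x (b / a)).mul_mem
        ((adj x (b / a)).algebraMap_mem _) hq)
    · have hcc : algebraMap ℂ L (c' / c) * algebraMap ℂ L c = algebraMap ℂ L c' := by
        rw [← map_mul, div_mul_cancel₀ _ hc]
      have h1 : z = algebraMap ℂ L (c' / c) * v + a * (p' - algebraMap ℂ L (c' / c) * p) +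
          b / a * (q' - algebraMap ℂ L (c' / c) * q) := by
        rw [hve, hze, ← hcc]
        ring
      rw [h1]
      field_simp
  · intro u hu
    obtain ⟨z, hz, v, hv, rfl⟩ := (bl_mem_iff hb).1 hu
    obtain ⟨c', p', hp', q', hq', hze⟩ := hdec z hz
    by_cases hc' : c' = 0
    · right
      refine ⟨p' / v, hdiv _ hp' _ hv, q' / v, hdiv _ hq' _ hv, ?_⟩
      rw [hze, hc', map_zero, zero_add, add_div, mul_div_assoc, mul_div_assoc]
    · left
      have hzD : Den x a b z := by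
        rw [hze]; exact den_mk h hc' hp' hq'
      rw [inv_div]
      exact hdiv _ hv.1 _ hzD
  · intro p hp q hq he
    obtain ⟨p', hp', q', hq', v, hv, rfl, rfl⟩ := bl_common hb hp hq
    obtain ⟨-, hv0, c, hc, p'', hp'', q'', hq'', hve⟩ := id hv
    have h1 : a * p' + b / a * q' = v := by
      have h2 : (a * (p' / v) + b / a * (q' / v)) * v = 1 * v := by rw [he]
      rw [one_mul, add_mul, mul_assoc, mul_assoc, div_mul_cancel₀ _ hv0,
        div_mul_cancel₀ _ hv0] at h2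
      exact h2
    refine hc (adj_const_zero h ((adj x (b / a)).sub_mem hp'' hp')
      ((adj x (b / a)).sub_mem hq'' hq') ?_)
    rw [hve] at h1
    linear_combination -h1
  · intro p hp q hq he
    obtain ⟨p', hp', q', hq', v, hv, rfl, rfl⟩ := bl_common hb hp hq
    have hv0 : v ≠ 0 := hv.2.1
    have h1 : a * p' = b / a * q' := by
      have h2 : (a * (p' / v)) * v = (b / a * (q' / v)) * v := by rw [he]
      rw [mul_assoc, mul_assoc, div_mul_cancel₀ _ hv0, div_mul_cancel₀ _ hv0] at h2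
      exact h2
    obtain ⟨r, hr, hre⟩ := adj_tor h hp' hq' h1
    exact ⟨r / v, hdiv _ hr _ hv, by rw [hre, mul_div_assoc]⟩

end Pool.Agent.LibLOC
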