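import Pool.Agent.LibLOC.A4
import Pool.Agent.LibLOC.Q1

/-!
[K+.LOC U1] `x / (a)` is a discrete valuation ring.
`mod_a`: say `Div k` if `f = v b ^ k + a s` for some `v, s ∈ x`. If `Div k` for all `k`: then
`f - a s ∈ (a, b) ^ k` (`inPow_smul`, `inPow_monom 0 k`), so `f = a r` by `krull_mod`. Otherwise take
`k` with `Div k`, not `Div (k + 1)` (`Nat.find`; `Div 0` holds, `v = f`); then `v` is not in `(a, b)`:
`v = a p + b q` would give `f = q b ^ (k + 1) + a (s + p b ^ k)`. So `v ≠ 0`, `v⁻¹ ∈ x`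
(`inv_mem_iff`). `reg_pow`: induction on `n`: `(u * b ^ n) * b = a * p` gives `u * b ^ n = a * r` by
`reg` (in the form `a * p = b * q`).
-/

set_option autoImplicit false

open Pool.Agent.LibGMM Pool.Agent.LibLB
open Pool.Agent.LibKB (ev ordP Ess VDom Ge)

namespace Pool.Agent.LibLOC

variable {L : Type} [Field L] [Algebra ℂ L]

variable {x : Subalgebra ℂ L} {a b : L}

theorem reg_pow (h : RLR x a b) {u p : L} (hu : u ∈ x) (hp : p ∈ x) (n : ℕ)
    (he : u * b ^ n = a * p) : ∃ r ∈ x, u = a * r := by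
  induction n generalizing p with
  | zero => exact ⟨p, hp, by simpa using he⟩
  | succ n ih =>
    have h1 : a * p = b * (u * b ^ n) := by rw [← he, pow_succ]; ring
    obtain ⟨r, hr, hr'⟩ := h.reg p hp (u * b ^ n) (x.mul_mem hu (x.pow_mem h.memB n)) h1
    exact ih hr hr'

theorem mod_a (h : RLR x a b) {f : L} (hf : f ∈ x) : (∃ r ∈ x, f = a * r) ∨
    ∃ k : ℕ, ∃ u ∈ x, u ≠ 0 ∧ u⁻¹ ∈ x ∧ ∃ s ∈ x, f = u * b ^ k + a * s := by
  classical
  by_cases hall : ∀ k : ℕ, ∃ v ∈ x, ∃ s ∈ x, f = v * b ^ k + a * s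
  · left
    refine krull_mod h h.memA hf fun k => ?_
    obtain ⟨v, hv, s, hs, he⟩ := hall k
    refine ⟨s, hs, ?_⟩
    have h1 : f - a * s = v * (a ^ 0 * b ^ k) := by rw [he, pow_zero]; ring
    rw [h1]
    have h2 := inPow_monom (x := x) (a := a) (b := b) 0 k
    rw [Nat.zero_add] at h2
    exact inPow_smul hv h2
  · right
    push Not at hall
    have hex : ∃ k : ℕ, ¬ ∃ v ∈ x, ∃ s ∈ x, f = v * b ^ k + a * s := by
      obtain ⟨k, hk⟩ := hall
      exact ⟨k, by rintro ⟨v, hv, s, hs, he⟩; exact hk v hv s hs he⟩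
    have hsp := Nat.find_spec hex
    have hmin := fun m => Nat.find_min hex (m := m)
    generalize hk : Nat.find hex = k at hsp hmin
    rcases k with _ | k
    · exact absurd ⟨f, hf, 0, x.zero_mem, by simp⟩ hsp
    · have h1 := hmin k (Nat.lt_succ_self k)
      rw [not_not] at h1
      obtain ⟨v, hv, s, hs, he⟩ := h1
      have hnm : ¬ InM x a b v := by
        rintro ⟨p, hp, q, hq, hpq⟩
        refine hsp ⟨q, hq, s + p * b ^ k, x.add_mem hs (x.mul_mem hp (x.pow_mem h.memB k)), ?_⟩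
        rw [he, hpq, pow_succ]; ring
      have hv0 : v ≠ 0 := fun h0 => hnm (h0 ▸ inM_zero)
      exact ⟨k, v, hv, hv0, (inv_mem_iff h hv hv0).2 hnm, s, hs, he⟩

end Pool.Agent.LibLOC
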