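import Pool.Agent.LibLOC.U1

/-!
[K+.LOC U2] Reflexive ideals are principal.
Write `A, B : x` for `a, b`. Let `I` be an ideal with (sat): `A w ∈ I`, `B w ∈ I` ⟹ `w ∈ I`.
Step 1 (`principal_aux`): if moreover `J` satisfies (sat) and `J` is not contained in `(A)` then `J`
is principal. (i) `A w ∈ J ⟹ w ∈ J`: `J` contains `z = u B ^ k + A s` with `u` a unit (`mod_a` for an
element of `J` not in `(A)`), so `u B ^ k w = z w - s (A w) ∈ J`, `B ^ k w ∈ J`; with `A w ∈ J` and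
(sat) for `B ^ j w` (descending induction on `j`: `A B ^ j w ∈ J`, `B ^ (j + 1) w ∈ J`) we get
`w ∈ J`. (ii) Among the elements of `J` not in `(A)` choose `z₀ = u₀ B ^ k + A s₀` with `k` minimal.
For `z ∈ J`: either `z = A w`, `w ∈ J` by (i); or `z = u B ^ l + A s`, `l ≥ k`, and
`z - u u₀⁻¹ B ^ (l - k) z₀ ∈ J` is a multiple `A w`, `w ∈ J`. So `J ≤ span {z₀} ⊔ 𝔪 J`, and `J` is
finitely generated (`noeth`), so `J = span {z₀}` by Nakayama
(`Submodule.le_of_le_smul_of_le_jacobson_bot` or `Submodule.sup_smul_eq...`; `𝔪 = maximalIdeal`,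
`maximalIdeal_eq`, `IsLocalRing.jacobson_eq_maximalIdeal`).
Step 2 (`principal`): `I = ⊥` is principal. Otherwise there is a maximal `n` with `I ≤ (A ^ n)`
(an element `0 ≠ f ∈ I` is not in `(A ^ n)` for `n` large: `A ^ n x ⊆ (a, b) ^ n`, `krull`). Let
`J = {w | A ^ n w ∈ I}`: `I = A ^ n J`, `J` satisfies (sat) (for `w`: `A (A ^ n w), B (A ^ n w) ∈ I`),
`J` is not contained in `(A)`; if `J = (g)` then `I = (A ^ n g)`.
-/

set_option autoImplicit false

open Pool.Agent.LibGMM Pool.Agent.LibLB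
open Pool.Agent.LibKB (ev ordP Ess VDom Ge)

namespace Pool.Agent.LibLOC

variable {L : Type} [Field L] [Algebra ℂ L]

variable {x : Subalgebra ℂ L} {a b : L}

private theorem u2_mod (h : RLR x a b) (f : x) : (∃ r : x, f = (⟨a, h.memA⟩ : x) * r) ∨
    ∃ k : ℕ, ∃ u v s : x, u * v = 1 ∧ f = u * (⟨b, h.memB⟩ : x) ^ k + (⟨a, h.memA⟩ : x) * s := by
  rcases mod_a h f.2 with ⟨r, hr, h1⟩ | ⟨k, u, hu, h0, hui, s, hs, h1⟩
  · exact Or.inl ⟨⟨r, hr⟩, Subtype.ext h1⟩
  · exact Or.inr ⟨k, ⟨u, hu⟩, ⟨u⁻¹, hui⟩, ⟨s, hs⟩, Subtype.ext (mul_inv_cancel₀ h0),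
      Subtype.ext (by push_cast; exact h1)⟩

theorem principal_aux (h : RLR x a b) (J : Ideal x)
    (hJ : ∀ w : x, (⟨a, h.memA⟩ : x) * w ∈ J → (⟨b, h.memB⟩ : x) * w ∈ J → w ∈ J)
    (hn : ¬ J ≤ Ideal.span {(⟨a, h.memA⟩ : x)}) : ∃ g : x, J = Ideal.span {g} := by
  classical
  have hmod := u2_mod h
  have hN := noeth h
  have hL := isLocal h
  have hM := maximalIdeal_eq h
  set A : x := ⟨a, h.memA⟩ with hA
  set B : x := ⟨b, h.memB⟩ with hB
  have hsat : ∀ (n : ℕ) (w : x), A * w ∈ J → B ^ n * w ∈ J → w ∈ J := by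
    intro n
    induction n with
    | zero => intro w _ h2; simpa using h2
    | succ n ih =>
      intro w h1 h2
      refine ih w h1 (hJ _ ?_ ?_)
      · have := J.mul_mem_left (B ^ n) h1
        rwa [mul_left_comm] at this
      · rwa [pow_succ', mul_assoc] at h2
  -- the set of exponents
  have hex : ∃ k : ℕ, ∃ z ∈ J, ∃ u v s : x, u * v = 1 ∧ z = u * B ^ k + A * s := by
    obtain ⟨z, hz, hz'⟩ := SetLike.not_le_iff_exists.1 hn
    rcases hmod z with ⟨r, hr⟩ | ⟨k, u, v, s, h1, h2⟩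
    · exact absurd (Ideal.mem_span_singleton'.2 ⟨r, by rw [hr, mul_comm]⟩) hz'
    · exact ⟨k, z, hz, u, v, s, h1, h2⟩
  have hi : ∀ w : x, A * w ∈ J → w ∈ J := by
    intro w hw
    obtain ⟨k, z, hz, u, v, s, h1, h2⟩ := hex
    refine hsat k w hw ?_
    have h3 : B ^ k * w = v * (z * w - s * (A * w)) := by
      rw [h2]
      linear_combination (-(B ^ k * w)) * h1
    rw [h3]
    exact J.mul_mem_left _ (J.sub_mem (J.mul_mem_right _ hz) (J.mul_mem_left _ hw))
  obtain ⟨z₀, hz₀, u₀, v₀, s₀, h1, h2⟩ := Nat.find_spec hex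
  have hmin := fun m => Nat.find_min hex (m := m)
  set k := Nat.find hex with hk
  refine ⟨z₀, le_antisymm ?_ ((Ideal.span_singleton_le_iff_mem _).2 hz₀)⟩
  have hfg : (J : Submodule x x).FG := (isNoetherianRing_iff_ideal_fg x).1 hN J
  have hjac : Ideal.span {A} ≤ Ideal.jacobson (⊥ : Ideal x) := by
    refine le_trans ?_ (IsLocalRing.maximalIdeal_le_jacobson _)
    rw [hM, Ideal.span_singleton_le_iff_mem]
    exact Ideal.subset_span (by simp)
  refine Submodule.le_of_le_smul_of_le_jacobson_bot (I := Ideal.span {A}) hfg hjac ?_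
  intro z hz
  have hkey : ∃ c w : x, w ∈ J ∧ z = c * z₀ + A * w := by
    rcases hmod z with ⟨w, hw⟩ | ⟨l, u, v, s, h3, h4⟩
    · exact ⟨0, w, hi w (by rw [← hw]; exact hz), by rw [hw]; ring⟩
    · have hkl : k ≤ l := by
        by_contra hcon
        exact hmin l (not_le.1 hcon) ⟨z, hz, u, v, s, h3, h4⟩
      obtain ⟨m, rfl⟩ := Nat.exists_eq_add_of_le hkl
      have h5 : z = u * v₀ * B ^ m * z₀ + A * (s - u * v₀ * B ^ m * s₀) := by
        rw [h4, h2, pow_add]
        linear_combination (-(u * B ^ k * B ^ m)) * h1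
      refine ⟨u * v₀ * B ^ m, s - u * v₀ * B ^ m * s₀, hi _ ?_, h5⟩
      have h6 : A * (s - u * v₀ * B ^ m * s₀) = z - u * v₀ * B ^ m * z₀ := by
        linear_combination (-1 : x) * h5
      rw [h6]
      exact J.sub_mem hz (J.mul_mem_left _ hz₀)
  obtain ⟨c, w, hw, h3⟩ := hkey
  rw [h3]
  refine Submodule.add_mem_sup ?_ ?_
  · exact Ideal.mul_mem_left _ _ (Ideal.mem_span_singleton_self _)
  · exact Submodule.smul_mem_smul (Ideal.mem_span_singleton_self _) hw

theorem principal (h : RLR x a b) (I : Ideal x)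
    (hI : ∀ w : x, (⟨a, h.memA⟩ : x) * w ∈ I → (⟨b, h.memB⟩ : x) * w ∈ I → w ∈ I) :
    ∃ g : x, I = Ideal.span {g} := by
  classical
  by_cases hI0 : I = ⊥
  · exact ⟨0, by rw [hI0]; simp⟩
  obtain ⟨f, hf, hf0⟩ := Submodule.exists_mem_ne_zero_of_ne_bot hI0
  have haux := principal_aux h
  set A : x := ⟨a, h.memA⟩ with hA
  set B : x := ⟨b, h.memB⟩ with hB
  have hex : ∃ n : ℕ, ¬ I ≤ Ideal.span {A ^ n} := by
    by_contra hcon
    push Not at hcon
    apply hf0
    apply Subtype.ext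
    refine krull h f.2 fun n => ?_
    obtain ⟨r, hr⟩ := Ideal.mem_span_singleton'.1 (hcon n hf)
    have h1 : (f : L) = (r : L) * (a ^ n * b ^ 0) := by
      rw [← hr]
      push_cast
      rw [pow_zero, mul_one]
    rw [h1]
    exact inPow_smul r.2 (inPow_monom n 0)
  have hsp := Nat.find_spec hex
  have hmin := fun m => Nat.find_min hex (m := m)
  rcases hm : Nat.find hex with _ | n
  · rw [hm] at hsp
    exact absurd (by rw [pow_zero, Ideal.span_singleton_one]; exact le_top) hsp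
  rw [hm] at hsp hmin
  have hle : I ≤ Ideal.span {A ^ n} := by
    have := hmin n (Nat.lt_succ_self n)
    exact not_not.1 this
  let J : Ideal x := Submodule.comap (LinearMap.mulLeft x (A ^ n)) I
  have hJ : ∀ w : x, w ∈ J ↔ A ^ n * w ∈ I := fun w => Iff.rfl
  obtain ⟨g, hg⟩ := haux J (by
    intro w h1 h2
    rw [hJ] at h1 h2 ⊢
    refine hI _ ?_ ?_
    · rwa [mul_left_comm] at h1
    · rwa [mul_left_comm] at h2) (by
    intro hJA
    apply hsp
    intro z hz
    obtain ⟨w, hw⟩ := Ideal.mem_span_singleton'.1 (hle hz)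
    have h1 : w ∈ J := by rw [hJ, mul_comm, hw]; exact hz
    obtain ⟨r, hr⟩ := Ideal.mem_span_singleton'.1 (hJA h1)
    exact Ideal.mem_span_singleton'.2 ⟨r, by rw [← hw, ← hr, pow_succ]; ring⟩)
  refine ⟨A ^ n * g, le_antisymm ?_ ?_⟩
  · intro z hz
    obtain ⟨w, hw⟩ := Ideal.mem_span_singleton'.1 (hle hz)
    have h1 : w ∈ J := by rw [hJ, mul_comm, hw]; exact hz
    rw [hg] at h1
    obtain ⟨r, hr⟩ := Ideal.mem_span_singleton'.1 h1
    exact Ideal.mem_span_singleton'.2 ⟨r, by rw [← hw, ← hr]; ring⟩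
  · rw [Ideal.span_singleton_le_iff_mem]
    have h1 : g ∈ J := by rw [hg]; exact Ideal.mem_span_singleton_self _
    exact h1

end Pool.Agent.LibLOC
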