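import Pool.Agent.LibLOC.U2

/-!
[K+.LOC U5] Unique factorisation.
`prime_of_irreducible`: write `A, B : x`. (1) principal ideals satisfy (sat): if `A v = π r`,
`B v = π s`, then `π` times `(B r - A s)` is `A B v - A B v = 0`, so `A s = B r` (`π ≠ 0`), `r = A r'`
by `reg`, `A v = π A r'`, `v = π r'`. (2) Let `π` be irreducible, `f ∉ (π)`. The ideal
`(π : f) = {w | w f ∈ (π)}` satisfies (sat) by (1) applied to `v = w f`, so it is `(g)` (`principal`);
`π ∈ (g)`: `π = g s`; if `g` is a unit then `f ∈ (π)`, contradiction; so `s` is a unit and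
`(π : f) = (π)`: `π ∣ w f ⟹ π ∣ w`. So `π` is prime. `ufd`: Noetherian domain (`WfDvdMonoid`) in which
irreducible elements are prime (`UniqueFactorizationMonoid` constructor `irreducible_iff_prime`).
-/

set_option autoImplicit false

open Pool.Agent.LibGMM Pool.Agent.LibLB
open Pool.Agent.LibKB (ev ordP Ess VDom Ge)

namespace Pool.Agent.LibLOC

variable {L : Type} [Field L] [Algebra ℂ L]

variable {x : Subalgebra ℂ L} {a b : L}

theorem locU5_sat (h : RLR x a b) {π : x} (hπ : π ≠ 0) (v : x)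
    (h1 : π ∣ (⟨a, h.memA⟩ : x) * v) (h2 : π ∣ (⟨b, h.memB⟩ : x) * v) : π ∣ v := by
  obtain ⟨r, hr⟩ := h1
  obtain ⟨s, hs⟩ := h2
  have hA : (⟨a, h.memA⟩ : x) ≠ 0 := by
    intro h0
    exact h.a_ne (congrArg Subtype.val h0)
  have h3 : (⟨a, h.memA⟩ : x) * s = (⟨b, h.memB⟩ : x) * r := by
    apply mul_left_cancel₀ hπ
    linear_combination (⟨b, h.memB⟩ : x) * hr - (⟨a, h.memA⟩ : x) * hs
  have h4 : a * (s : L) = b * (r : L) := congrArg Subtype.val h3
  obtain ⟨r', hr'm, hr'⟩ := h.reg s s.2 r r.2 h4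
  have h5 : r = (⟨a, h.memA⟩ : x) * ⟨r', hr'm⟩ := Subtype.ext hr'
  refine ⟨⟨r', hr'm⟩, ?_⟩
  apply mul_left_cancel₀ hA
  rw [hr, h5]
  ring

theorem prime_of_irreducible (h : RLR x a b) {π : x} (hπ : Irreducible π) : Prime π := by
  have hπ0 : π ≠ 0 := hπ.ne_zero
  refine ⟨hπ0, hπ.not_isUnit, ?_⟩
  intro p f hpf
  by_contra hcon
  push Not at hcon
  obtain ⟨hp, hf⟩ := hcon
  obtain ⟨I, hI⟩ : ∃ I : Ideal x, ∀ w : x, w ∈ I ↔ π ∣ w * f := by
    refine ⟨Submodule.comap (LinearMap.mulRight x f) (Ideal.span {π}), fun w => ?_⟩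
    rw [Submodule.mem_comap, LinearMap.mulRight_apply, Ideal.mem_span_singleton]
  obtain ⟨g, hg⟩ := principal h I (fun w hAw hBw => by
    rw [hI] at hAw hBw ⊢
    rw [mul_assoc] at hAw hBw
    exact locU5_sat h hπ0 _ hAw hBw)
  have hmem : ∀ w : x, w ∈ I ↔ g ∣ w := fun w => by rw [hg, Ideal.mem_span_singleton]
  have h1 : g ∣ π := (hmem π).1 ((hI π).2 (Dvd.intro _ rfl))
  obtain ⟨s, hs⟩ := h1
  rcases hπ.isUnit_or_isUnit hs with h2 | h2
  · have h3 : (1 : x) ∈ I := (hmem 1).2 (isUnit_iff_dvd_one.1 h2)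
    have h4 := (hI 1).1 h3
    rw [one_mul] at h4
    exact hf h4
  · have h3 : p ∈ I := (hI p).2 hpf
    have h4 : g ∣ p := (hmem p).1 h3
    apply hp
    rw [hs]
    exact (IsUnit.mul_right_dvd h2).2 h4

theorem ufd (h : RLR x a b) : UniqueFactorizationMonoid x := by
  have := noeth h
  have hw : WfDvdMonoid x := IsNoetherianRing.wfDvdMonoid
  exact { hw with irreducible_iff_prime := ⟨fun hπ => prime_of_irreducible h hπ, Prime.irreducible⟩ }

end Pool.Agent.LibLOC
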