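import Pool.Agent.LibLOC.D1
import Pool.Agent.LibLOC.O4

/-!
[K+.LOC D2] The derivations dual to `da, db`; change of parameters.
`exists_derB`: `hinj` from `ord_ev` (`ev a b f ≠ 0`; `exists_ordAt`), `exists_basis_kaehler' h.tr`;
`D1, D2` = coordinates of the differential (`(B.coord i).compDer (KaehlerDifferential.D ℂ L)` as in
`LibKB1a/F1a.lean` `exists_isDers`). `span`: for a derivation `D` with linear map
`ℓ = D.liftKaehlerDifferential : Ω → L`, `ℓ z = ∑ (B.coord i z) ℓ (B i)` (`Module.Basis.sum_repr`),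
`z = d u`. `dimK_two`: `dimK L = finrank Ω = 2` (`Module.finrank_eq_card_basis`). `jac_change`: expand
`D1' u`, `D2' u`, `D1' w`, `D2' w` with `span`: `ring`. `derB_bl`: `D1' = D1 + (b / a) • D2`,
`D2' = a • D2`: `D1' a = 1`, `D1' (b / a) = 0` (`Derivation.leibniz_div` or apply to `b = a (b / a)`),
`D2' (b / a) = 1`, `D2' a = 0`; `span`: `D (b / a) = (a D b - b D a) / a ^ 2`. `jac_bl`: for
`D1', D2'` dual to `(a, b / a)`: `jac' u w = a * jac u w` (`jac_change`; `jac D1' D2' a b = a` as
`b = a (b / a)`).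
-/

set_option autoImplicit false

open Pool.Agent.LibGMM Pool.Agent.LibLB
open Pool.Agent.LibKB (ev ordP Ess VDom Ge)

namespace Pool.Agent.LibLOC

variable {L : Type} [Field L] [Algebra ℂ L]

variable {x : Subalgebra ℂ L} {a b a' b' : L} {D1 D2 D1' D2' : Derivation ℂ L L}

theorem D2_inj (h : RLR x a b) (f : MvPolynomial (Fin 2) ℂ) (hf : ev a b f = 0) : f = 0 := by
  obtain ⟨E, hE⟩ := exists_ordAt h
  by_contra hne
  exact (ord_ev h hE hne).1 hf

theorem exists_derB (h : RLR x a b) : ∃ D1 D2, DerB a b D1 D2 := by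
  obtain ⟨B, hB⟩ := exists_basis_kaehler' h.tr (D2_inj h)
  have ha : KaehlerDifferential.D ℂ L a = B 0 := (hB 0).symm
  have hb : KaehlerDifferential.D ℂ L b = B 1 := (hB 1).symm
  refine ⟨(B.coord 0).compDer (KaehlerDifferential.D ℂ L),
    (B.coord 1).compDer (KaehlerDifferential.D ℂ L), ?_, ?_, ?_, ?_, ?_⟩
  · show B.coord 0 (KaehlerDifferential.D ℂ L a) = 1
    rw [ha]; simp
  · show B.coord 0 (KaehlerDifferential.D ℂ L b) = 0
    rw [hb]; simp
  · show B.coord 1 (KaehlerDifferential.D ℂ L a) = 0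
    rw [ha]; simp
  · show B.coord 1 (KaehlerDifferential.D ℂ L b) = 1
    rw [hb]; simp
  · intro D u
    show D u = D a * B.coord 0 (KaehlerDifferential.D ℂ L u) +
      D b * B.coord 1 (KaehlerDifferential.D ℂ L u)
    have h1 : ∀ z, D z = D.liftKaehlerDifferential (KaehlerDifferential.D ℂ L z) := fun z =>
      (Derivation.liftKaehlerDifferential_comp_D D z).symm
    have h2 := B.sum_repr (KaehlerDifferential.D ℂ L u)
    rw [Fin.sum_univ_two] at h2
    rw [h1 u, ← h2, map_add, map_smul, map_smul, h2, ← ha, ← hb, ← h1, ← h1, smul_eq_mul,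
      smul_eq_mul, Module.Basis.coord_apply, Module.Basis.coord_apply, mul_comm (D a),
      mul_comm (D b)]

theorem dimK_two (h : RLR x a b) : dimK L = 2 := by
  obtain ⟨B, -⟩ := exists_basis_kaehler' h.tr (D2_inj h)
  unfold dimK
  rw [Module.finrank_eq_card_basis B, Fintype.card_fin]

theorem jac_change (hD : DerB a b D1 D2) (D1' D2' : Derivation ℂ L L) (u w : L) :
    jac D1' D2' u w = jac D1' D2' a b * jac D1 D2 u w := by
  unfold jac
  rw [hD.span D1' u, hD.span D2' u, hD.span D1' w, hD.span D2' w]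
  ring

theorem D2_div (D : Derivation ℂ L L) (ha : a ≠ 0) : D (b / a) = (a * D b - b * D a) / a ^ 2 := by
  have h1 : D b = a * D (b / a) + (b / a) * D a := by
    have h2 := D.leibniz a (b / a)
    rw [mul_div_cancel₀ b ha, smul_eq_mul, smul_eq_mul] at h2
    exact h2
  rw [h1]
  field_simp
  ring

theorem derB_bl (ha : a ≠ 0) (hD : DerB a b D1 D2) :
    DerB a (b / a) (D1 + (b / a) • D2) (a • D2) := by
  refine ⟨?_, ?_, ?_, ?_, ?_⟩
  · rw [Derivation.add_apply, Derivation.smul_apply, hD.h11, hD.h21, smul_zero, add_zero]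
  · rw [Derivation.add_apply, Derivation.smul_apply, D2_div _ ha, D2_div _ ha, hD.h11, hD.h21,
      hD.h12, hD.h22, smul_eq_mul]
    field_simp
    ring
  · rw [Derivation.smul_apply, hD.h21, smul_zero]
  · rw [Derivation.smul_apply, D2_div _ ha, hD.h21, hD.h22, smul_eq_mul]
    field_simp
    ring
  · intro D u
    rw [Derivation.add_apply, Derivation.smul_apply, Derivation.smul_apply, D2_div _ ha,
      hD.span D u, smul_eq_mul, smul_eq_mul]
    field_simp
    ring

theorem jac_bl (ha : a ≠ 0) (hD : DerB a b D1 D2) (hD' : DerB a (b / a) D1' D2') (u w : L) :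
    jac D1' D2' u w = a * jac D1 D2 u w := by
  rw [jac_change hD D1' D2' u w]
  congr 1
  unfold jac
  have h1 : D2' b = a := by
    have h2 := D2'.leibniz a (b / a)
    rw [mul_div_cancel₀ b ha, smul_eq_mul, smul_eq_mul, hD'.h22, hD'.h21, mul_zero, add_zero,
      mul_one] at h2
    exact h2
  rw [h1, hD'.h11, hD'.h21, zero_mul, sub_zero, one_mul]

end Pool.Agent.LibLOC
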