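import Pool.Agent.LibLB.Defs
import Pool.Agent.LibGMM.Api

/-!
THEOREM K+, part LOC: working definitions. `RLR x a b`: `x` is a two-dimensional regular local ring
with parameters `a, b`, residue field `ℂ`, field of fractions `L`. `InPow x a b k f`: `f ∈ (a, b) ^ k`.
-/

set_option autoImplicit false

open Pool.Agent.LibGMM Pool.Agent.LibLB
open Pool.Agent.LibKB (ev ordP Ess VDom Ge)

namespace Pool.Agent.LibLOC

variable {L : Type} [Field L] [Algebra ℂ L]

/-- `u` lies in the ideal `(a, b)` of `x`. -/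
def InM (x : Subalgebra ℂ L) (a b u : L) : Prop := ∃ p ∈ x, ∃ q ∈ x, u = a * p + b * q

/-- The form `∑ Fᵢ aⁱ b ^ (k - i)` of degree `k`. -/
noncomputable def form (a b : L) (k : ℕ) (F : Polynomial ℂ) : L :=
  ∑ i ∈ Finset.range (k + 1), algebraMap ℂ L (F.coeff i) * a ^ i * b ^ (k - i)

/-- `E` is the order function of `x` (with parameters `a, b`). -/
def OrdAt (x : Subalgebra ℂ L) (a b : L) (E : DVal L) : Prop :=
  ∀ f ∈ x, f ≠ 0 → ∀ k : ℕ, (k : ℤ) ≤ E.ord f ↔ InPow x a b k f

/-- `π` generates the ideal of the elements of `x` of positive order at `ν`. -/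
structure IsGen (x : Subalgebra ℂ L) (ν : DVal L) (π : L) : Prop where
  mem : π ∈ x
  ord : ν.ord π = 1
  dvd : ∀ f ∈ x, 0 < ν.ord f → ∃ r ∈ x, f = π * r

/-- The denominators of the local ring of the blow-up at the point `a = b / a = 0`. -/
def Den (x : Subalgebra ℂ L) (a b v : L) : Prop :=
  v ∈ adj x (b / a) ∧ v ≠ 0 ∧ ∃ c : ℂ, c ≠ 0 ∧ ∃ p ∈ adj x (b / a), ∃ q ∈ adj x (b / a),
    v = algebraMap ℂ L c + a * p + b / a * q

/-- `D1, D2` is the basis of the derivations of `L` dual to `da, db`. -/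
structure DerB (a b : L) (D1 D2 : Derivation ℂ L L) : Prop where
  h11 : D1 a = 1
  h12 : D1 b = 0
  h21 : D2 a = 0
  h22 : D2 b = 1
  span : ∀ (D : Derivation ℂ L L) (u : L), D u = D a * D1 u + D b * D2 u

/-- The Jacobian of `(u, w)`. -/
def jac (D1 D2 : Derivation ℂ L L) (u w : L) : L := D1 u * D2 w - D2 u * D1 w

/-- The value of the form `ω` at `(D1, D2)`. -/
noncomputable def valAt (ω : TopForm L) (D1 D2 : Derivation ℂ L L) : L :=
  ω fun i => if i.val = 0 then D1 else D2

end Pool.Agent.LibLOC
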