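import Pool.Agent.LibLOC.Defs

/-!
[K+.LOC I1] `InPow x a b k f` (`f ∈ (a, b) ^ k`), part 1.
Unfold: `∃ c : ℕ → L, (∀ i, c i ∈ x) ∧ f = ∑ i ∈ range (k + 1), c i * a ^ i * b ^ (k - i)`.
`inPow_zero_iff`: the sum over `range 1` is `c 0`. `add`, `smul`, `neg`, `sub`: coefficientwise.
-/

set_option autoImplicit false

open Pool.Agent.LibGMM Pool.Agent.LibLB
open Pool.Agent.LibKB (ev ordP Ess VDom Ge)

namespace Pool.Agent.LibLOC

variable {L : Type} [Field L] [Algebra ℂ L]

variable {x y : Subalgebra ℂ L} {a b f g r : L} {k : ℕ}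

theorem inPow_zero_iff : InPow x a b 0 f ↔ f ∈ x := by
  constructor
  · rintro ⟨c, hc, hf⟩
    rw [zero_add, Finset.sum_range_one, pow_zero, Nat.sub_zero, pow_zero, mul_one, mul_one] at hf
    rw [hf]
    exact hc 0
  · intro hf
    refine ⟨fun _ => f, fun _ => hf, ?_⟩
    rw [zero_add, Finset.sum_range_one, pow_zero, Nat.sub_zero, pow_zero, mul_one, mul_one]

theorem inPow_mem (ha : a ∈ x) (hb : b ∈ x) (h : InPow x a b k f) : f ∈ x := by
  obtain ⟨c, hc, rfl⟩ := h
  exact sum_mem fun i _ => mul_mem (mul_mem (hc i) (pow_mem ha _)) (pow_mem hb _)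

theorem inPow_zero_right : InPow x a b k 0 := by
  refine ⟨fun _ => 0, fun _ => zero_mem x, ?_⟩
  symm
  refine Finset.sum_eq_zero fun i _ => ?_
  rw [zero_mul, zero_mul]

theorem inPow_add (hf : InPow x a b k f) (hg : InPow x a b k g) : InPow x a b k (f + g) := by
  obtain ⟨c, hc, rfl⟩ := hf
  obtain ⟨d, hd, rfl⟩ := hg
  refine ⟨fun i => c i + d i, fun i => add_mem (hc i) (hd i), ?_⟩
  rw [← Finset.sum_add_distrib]
  refine Finset.sum_congr rfl fun i _ => ?_
  ring

theorem inPow_smul (hr : r ∈ x) (hf : InPow x a b k f) : InPow x a b k (r * f) := by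
  obtain ⟨c, hc, rfl⟩ := hf
  refine ⟨fun i => r * c i, fun i => mul_mem hr (hc i), ?_⟩
  rw [Finset.mul_sum]
  refine Finset.sum_congr rfl fun i _ => ?_
  ring

theorem inPow_neg (hf : InPow x a b k f) : InPow x a b k (-f) := by
  have h := inPow_smul (neg_mem (one_mem x)) hf
  rwa [neg_one_mul] at h

theorem inPow_sub (hf : InPow x a b k f) (hg : InPow x a b k g) : InPow x a b k (f - g) := by
  rw [sub_eq_add_neg]
  exact inPow_add hf (inPow_neg hg)

theorem inPow_mono (hxy : x ≤ y) (hf : InPow x a b k f) : InPow y a b k f := by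
  obtain ⟨c, hc, hf⟩ := hf
  exact ⟨c, fun i => hxy (hc i), hf⟩

theorem inPow_sum {ι : Type} (s : Finset ι) (F : ι → L) (h : ∀ i ∈ s, InPow x a b k (F i)) :
    InPow x a b k (∑ i ∈ s, F i) := by
  classical
  induction s using Finset.induction_on with
  | empty =>
    rw [Finset.sum_empty]
    exact inPow_zero_right
  | insert i s hi ih =>
    rw [Finset.sum_insert hi]
    exact inPow_add (h i (Finset.mem_insert_self i s))
      (ih fun j hj => h j (Finset.mem_insert_of_mem hj))

end Pool.Agent.LibLOC
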